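import Mathlib

/-! Gauss sums of diagonal quadratic forms over finite fields of odd characteristic. -/

set_option autoImplicit false
set_option linter.unusedSectionVars false

namespace Run7.h191

open Finset

variable {F : Type*} [Field F] [Fintype F] [DecidableEq F]
variable {ι : Type*} [Fintype ι] [DecidableEq ι]

theorem sum_psi_mul {ψ : AddChar F ℂ} (hψ : ψ.IsPrimitive) (b : F) :
    ∑ x : F, ψ (x * b) = if b = 0 then (Fintype.card F : ℂ) else 0 :=
  AddChar.sum_mulShift b hψ |>.trans (by split_ifs <;> simp)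

theorem sum_psi_mul' {ψ : AddChar F ℂ} (hψ : ψ.IsPrimitive) (b : F) :
    ∑ x : F, ψ (b * x) = if b = 0 then (Fintype.card F : ℂ) else 0 := by
  rw [← sum_psi_mul hψ b]
  exact sum_congr rfl (fun x _ => by rw [mul_comm])

theorem psi_sum (ψ : AddChar F ℂ) {κ : Type*} (s : Finset κ) (f : κ → F) :
    ψ (∑ i ∈ s, f i) = ∏ i ∈ s, ψ (f i) := by
  classical
  induction s using Finset.induction_on with
  | empty => simp
  | insert a s ha ih => rw [sum_insert ha, prod_insert ha, AddChar.map_add_eq_mul, ih]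

theorem conj_psi (ψ : AddChar F ℂ) (x : F) : (starRingEnd ℂ) (ψ x) = ψ (-x) :=
  (AddChar.map_neg_eq_conj ψ x).symm

theorem norm_psi (ψ : AddChar F ℂ) (x : F) : ‖ψ x‖ = 1 := AddChar.norm_apply ψ x

theorem two_ne (hF : ringChar F ≠ 2) : (2 : F) ≠ 0 := Ring.two_ne_zero hF

theorem four_ne (hF : ringChar F ≠ 2) : (4 : F) ≠ 0 := by
  have h : (4 : F) = 2 * 2 := by norm_num
  rw [h]
  exact mul_ne_zero (two_ne hF) (two_ne hF)

/-- the one dimensional quadratic Gauss sum -/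
noncomputable def G1 (ψ : AddChar F ℂ) (s : F) : ℂ := ∑ t : F, ψ (s * t ^ 2)

theorem G1_eq_sum (hF : ringChar F ≠ 2) {ψ : AddChar F ℂ} (hψ : ψ.IsPrimitive) {s : F}
    (hs : s ≠ 0) : G1 ψ s = ∑ a : F, ((quadraticChar F a : ℤ) : ℂ) * ψ (s * a) := by
  unfold G1
  have h1 : ∑ t : F, ψ (s * t ^ 2) = ∑ a : F, ∑ t ∈ univ.filter (fun t : F => t ^ 2 = a),
      ψ (s * t ^ 2) := (sum_fiberwise univ (fun t : F => t ^ 2) (fun t => ψ (s * t ^ 2))).symm
  have h2 : ∀ a : F, ∑ t ∈ univ.filter (fun t : F => t ^ 2 = a), ψ (s * t ^ 2) =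
      ((quadraticChar F a : ℤ) : ℂ) * ψ (s * a) + ψ (s * a) := by
    intro a
    have h3 : ∑ t ∈ univ.filter (fun t : F => t ^ 2 = a), ψ (s * t ^ 2) =
        ∑ t ∈ univ.filter (fun t : F => t ^ 2 = a), ψ (s * a) := by
      apply sum_congr rfl
      intro t ht
      rw [(mem_filter.1 ht).2]
    rw [h3, sum_const, nsmul_eq_mul]
    have h4 := quadraticChar_card_sqrts hF a
    have h5 : {x : F | x ^ 2 = a}.toFinset = univ.filter (fun t : F => t ^ 2 = a) := by
      ext x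
      simp
    rw [h5] at h4
    have h6 : ((univ.filter (fun t : F => t ^ 2 = a)).card : ℂ) =
        ((quadraticChar F a : ℤ) : ℂ) + 1 := by
      have h7 : (((univ.filter (fun t : F => t ^ 2 = a)).card : ℤ) : ℂ) =
          ((quadraticChar F a + 1 : ℤ) : ℂ) := by rw [h4]
      push_cast at h7
      exact h7
    rw [h6]
    ring
  rw [h1]
  simp_rw [h2]
  rw [sum_add_distrib, sum_psi_mul' hψ s, if_neg hs, add_zero]

theorem G1_eq (hF : ringChar F ≠ 2) {ψ : AddChar F ℂ} (hψ : ψ.IsPrimitive) {s : F}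
    (hs : s ≠ 0) : G1 ψ s = ((quadraticChar F s : ℤ) : ℂ) * G1 ψ 1 := by
  rw [G1_eq_sum hF hψ hs, G1_eq_sum hF hψ one_ne_zero, mul_sum]
  have h1 : ∑ a : F, ((quadraticChar F a : ℤ) : ℂ) * ψ (s * a) =
      ∑ a : F, ((quadraticChar F (s⁻¹ * a) : ℤ) : ℂ) * ψ (s * (s⁻¹ * a)) :=
    (Equiv.sum_comp (Equiv.mulLeft₀ s⁻¹ (inv_ne_zero hs))
      (fun a => ((quadraticChar F a : ℤ) : ℂ) * ψ (s * a))).symm
  rw [h1]
  apply sum_congr rfl
  intro a _
  have h2 : quadraticChar F s⁻¹ = quadraticChar F s := by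
    have h3 : quadraticChar F (s⁻¹ * (s * s)) = quadraticChar F s := by
      congr 1
      field_simp
    rw [map_mul, map_mul, ← sq, quadraticChar_sq_one hs, mul_one] at h3
    exact h3
  rw [map_mul, h2, ← mul_assoc, mul_inv_cancel₀ hs]
  push_cast
  ring

theorem norm_G1_sq (hF : ringChar F ≠ 2) {ψ : AddChar F ℂ} (hψ : ψ.IsPrimitive) {s : F}
    (hs : s ≠ 0) : ‖G1 ψ s‖ ^ 2 = (Fintype.card F : ℝ) := by
  have h1 : ((‖G1 ψ s‖ ^ 2 : ℝ) : ℂ) = (Fintype.card F : ℂ) := by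
    rw [Complex.ofReal_pow, ← Complex.mul_conj']
    unfold G1
    rw [map_sum, sum_mul_sum]
    have h2 : ∀ t t' : F, ψ (s * t ^ 2) * (starRingEnd ℂ) (ψ (s * t' ^ 2)) =
        ψ (s * (t ^ 2 - t' ^ 2)) := by
      intro t t'
      rw [conj_psi, ← AddChar.map_add_eq_mul]
      congr 1
      ring
    simp_rw [h2]
    rw [sum_comm]
    have h3 : ∀ t' : F, ∑ t : F, ψ (s * (t ^ 2 - t' ^ 2)) =
        ∑ h : F, ψ (s * h ^ 2) * ψ (t' * (2 * s * h)) := by
      intro t'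
      rw [← Equiv.sum_comp (Equiv.addRight t')]
      apply sum_congr rfl
      intro h _
      rw [← AddChar.map_add_eq_mul]
      congr 1
      simp only [Equiv.coe_addRight]
      ring
    simp_rw [h3]
    rw [sum_comm]
    simp_rw [← mul_sum, sum_psi_mul hψ]
    rw [sum_eq_single 0]
    · simp
    · intro h _ hh
      rw [if_neg, mul_zero]
      exact mul_ne_zero (mul_ne_zero (two_ne hF) hs) hh
    · intro h
      exact absurd (mem_univ _) h
  exact_mod_cast h1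

theorem G1_complete (hF : ringChar F ≠ 2) (ψ : AddChar F ℂ) {s : F} (hs : s ≠ 0) (v : F) :
    ∑ t : F, ψ (s * t ^ 2 + v * t) = ψ (-((4 * s)⁻¹ * v ^ 2)) * G1 ψ s := by
  unfold G1
  rw [mul_sum, ← Equiv.sum_comp (Equiv.addRight (-((2 * s)⁻¹ * v)))]
  apply sum_congr rfl
  intro t _
  rw [← AddChar.map_add_eq_mul]
  congr 1
  simp only [Equiv.coe_addRight]
  have h2 := two_ne hF
  have h4 := four_ne hF
  field_simp
  ring

/-- the diagonal quadratic form with coefficients `a` -/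
def QD (a x : ι → F) : F := ∑ i, a i * x i ^ 2

theorem sum_psi_dot {ψ : AddChar F ℂ} (hψ : ψ.IsPrimitive) (v : ι → F) :
    ∑ x : ι → F, ψ (∑ i, v i * x i) =
      if v = 0 then (Fintype.card F : ℂ) ^ (Fintype.card ι) else 0 := by
  simp_rw [psi_sum]
  have h1 : ∑ x : ι → F, ∏ i, ψ (v i * x i) = ∏ i, ∑ t : F, ψ (v i * t) := by
    rw [Finset.prod_univ_sum, Fintype.piFinset_univ]
  rw [h1]
  simp_rw [sum_psi_mul' hψ]
  by_cases hv : v = 0
  · rw [if_pos hv]
    simp [hv]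
  · rw [if_neg hv]
    obtain ⟨i, hi⟩ := Function.ne_iff.1 hv
    exact prod_eq_zero (mem_univ i) (if_neg hi)

theorem gaussDiag (hF : ringChar F ≠ 2) {ψ : AddChar F ℂ} (hψ : ψ.IsPrimitive) (a : ι → F)
    (ha : ∀ i, a i ≠ 0) (hev : Even (Fintype.card ι)) :
    ∃ γ : ℂ, ‖γ‖ ^ 2 = (Fintype.card F : ℝ) ^ (Fintype.card ι) ∧
      ∀ s : F, s ≠ 0 → ∀ v : ι → F, ∑ x : ι → F, ψ (s * QD a x + ∑ i, v i * x i) =
        γ * ψ (-((4 * s)⁻¹ * ∑ i, (a i)⁻¹ * v i ^ 2)) := by
  classical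
  refine ⟨∏ i, G1 ψ (a i), ?_, ?_⟩
  · rw [norm_prod, ← prod_pow]
    simp_rw [fun i => norm_G1_sq hF hψ (ha i)]
    rw [prod_const, card_univ]
  · intro s hs v
    have h1 : ∀ x : ι → F, ψ (s * QD a x + ∑ i, v i * x i) =
        ∏ i, ψ ((s * a i) * x i ^ 2 + v i * x i) := by
      intro x
      rw [← psi_sum]
      congr 1
      rw [QD, mul_sum, ← sum_add_distrib]
      exact sum_congr rfl (fun i _ => by ring)
    simp_rw [h1]
    have h2 : ∑ x : ι → F, ∏ i, ψ ((s * a i) * x i ^ 2 + v i * x i) =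
        ∏ i, ∑ t : F, ψ ((s * a i) * t ^ 2 + v i * t) := by
      rw [Finset.prod_univ_sum, Fintype.piFinset_univ]
    rw [h2]
    have h3 : ∀ i, ∑ t : F, ψ ((s * a i) * t ^ 2 + v i * t) =
        ψ (-((4 * s)⁻¹ * ((a i)⁻¹ * v i ^ 2))) * (((quadraticChar F s : ℤ) : ℂ) * G1 ψ (a i)) := by
      intro i
      rw [G1_complete hF ψ (mul_ne_zero hs (ha i))]
      congr 1
      · congr 1
        rw [← mul_assoc, ← mul_assoc, ← mul_inv, mul_assoc]
      · rw [G1_eq hF hψ (mul_ne_zero hs (ha i)), G1_eq hF hψ (ha i), map_mul]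
        push_cast
        ring
    simp_rw [h3]
    rw [prod_mul_distrib, prod_mul_distrib, prod_const, card_univ, ← psi_sum]
    have h4 : ((quadraticChar F s : ℤ) : ℂ) ^ (Fintype.card ι) = 1 := by
      obtain ⟨k, hk⟩ := hev
      rw [hk, ← two_mul, pow_mul]
      have h5 : ((quadraticChar F s : ℤ) : ℂ) ^ 2 = 1 := by
        have := quadraticChar_sq_one hs
        exact_mod_cast congrArg (fun z : ℤ => (z : ℂ)) this
      rw [h5, one_pow]
    rw [h4, one_mul, mul_comm, sum_neg_distrib, mul_sum]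

end Run7.h191
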