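import Mathlib
import Pool.Agent.Run7.h191.Gauss

/-! Parseval identities and the additive energy of a conic. -/

set_option autoImplicit false
set_option linter.unusedSectionVars false

namespace Run7.h191.Sph

open Finset

theorem orth_parseval {X Y : Type*} [Fintype X] [Fintype Y] [DecidableEq X] (k : X → Y → ℂ)
    (C : ℝ) (h : ∀ x x', ∑ y, k x y * (starRingEnd ℂ) (k x' y) = if x = x' then (C : ℂ) else 0)
    (a : X → ℂ) : ∑ y, ‖∑ x, a x * k x y‖ ^ 2 = C * ∑ x, ‖a x‖ ^ 2 := by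
  have h1 : ((∑ y, ‖∑ x, a x * k x y‖ ^ 2 : ℝ) : ℂ) = ((C * ∑ x, ‖a x‖ ^ 2 : ℝ) : ℂ) := by
    push_cast
    simp_rw [← Complex.mul_conj', map_sum, map_mul, sum_mul_sum]
    rw [sum_comm, mul_sum]
    apply sum_congr rfl
    intro x _
    rw [sum_comm]
    have h2 : ∀ x', ∑ y, a x * k x y * ((starRingEnd ℂ) (a x') * (starRingEnd ℂ) (k x' y)) =
        a x * (starRingEnd ℂ) (a x') * (if x = x' then (C : ℂ) else 0) := by
      intro x'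
      rw [← h x x', mul_sum]
      exact sum_congr rfl (fun y _ => by ring)
    simp_rw [h2]
    rw [sum_eq_single x]
    · rw [if_pos rfl]
      ring
    · intro x' _ hx'
      rw [if_neg (Ne.symm hx'), mul_zero]
    · intro hx
      exact absurd (mem_univ _) hx
  exact_mod_cast h1

variable {F : Type*} [Field F] [Fintype F] [DecidableEq F]
variable {ι : Type*} [Fintype ι] [DecidableEq ι]

theorem card_pos_real : (0 : ℝ) < Fintype.card F := by exact_mod_cast Fintype.card_pos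

theorem one_le_card_real : (1 : ℝ) ≤ Fintype.card F := by exact_mod_cast Fintype.card_pos

theorem parseval_one {ψ : AddChar F ℂ} (hψ : ψ.IsPrimitive) {X : Type*} [Fintype X]
    (φ : X → F) (hφ : Function.Injective φ) (a : X → ℂ) :
    ∑ u : F, ‖∑ x, a x * ψ (φ x * u)‖ ^ 2 = (Fintype.card F : ℝ) * ∑ x, ‖a x‖ ^ 2 := by
  classical
  apply orth_parseval (fun x u => ψ (φ x * u))
  intro x x'
  have h1 : ∀ u : F, ψ (φ x * u) * (starRingEnd ℂ) (ψ (φ x' * u)) = ψ ((φ x - φ x') * u) := by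
    intro u
    rw [conj_psi, ← AddChar.map_add_eq_mul]
    congr 1
    ring
  simp_rw [h1]
  rw [sum_psi_mul' hψ]
  by_cases hx : x = x'
  · simp [hx]
  · rw [if_neg hx, if_neg]
    exact fun h => hx (hφ (sub_eq_zero.1 h))

theorem parseval_vec {ψ : AddChar F ℂ} (hψ : ψ.IsPrimitive) {X : Type*} [Fintype X]
    (φ : X → (ι → F)) (hφ : Function.Injective φ) (a : X → ℂ) :
    ∑ w : ι → F, ‖∑ x, a x * ψ (∑ i, φ x i * w i)‖ ^ 2 =
      (Fintype.card F : ℝ) ^ (Fintype.card ι) * ∑ x, ‖a x‖ ^ 2 := by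
  classical
  apply orth_parseval (fun x (w : ι → F) => ψ (∑ i, φ x i * w i))
  intro x x'
  have h1 : ∀ w : ι → F, ψ (∑ i, φ x i * w i) * (starRingEnd ℂ) (ψ (∑ i, φ x' i * w i)) =
      ψ (∑ i, (φ x - φ x') i * w i) := by
    intro w
    rw [conj_psi, ← AddChar.map_add_eq_mul, ← sum_neg_distrib, ← sum_add_distrib]
    congr 1
    apply sum_congr rfl
    intro i _
    rw [Pi.sub_apply]
    ring
  simp_rw [h1]
  rw [sum_psi_dot hψ]
  by_cases hx : x = x'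
  · simp [hx]
  · rw [if_neg hx, if_neg]
    exact fun h => hx (hφ (sub_eq_zero.1 h))

theorem card_sq_eq_le_two (D : F) : (univ.filter (fun z : F => z ^ 2 = D)).card ≤ 2 := by
  by_cases h : ∃ z₀ : F, z₀ ^ 2 = D
  · obtain ⟨z₀, hz₀⟩ := h
    have h1 : univ.filter (fun z : F => z ^ 2 = D) ⊆ {z₀, -z₀} := by
      intro z hz
      have hz := (mem_filter.1 hz).2
      rw [← hz₀] at hz
      rcases sq_eq_sq_iff_eq_or_eq_neg.1 hz with h2 | h2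
      · simp [h2]
      · simp [h2]
    exact (card_le_card h1).trans card_le_two
  · push Not at h
    rw [filter_false_of_mem (fun z _ => h z)]
    simp

/-- two points on a nondegenerate central conic with prescribed nonzero sum -/
theorem conic_pairs_le (hF : ringChar F ≠ 2) {α β k : F} (hα : α ≠ 0) (hβ : β ≠ 0) (hk : k ≠ 0)
    (η : Fin 2 → F) (hη : η ≠ 0) :
    (univ.filter (fun ξ : Fin 2 → F => α * ξ 0 ^ 2 + β * ξ 1 ^ 2 = k ∧
      α * (η 0 - ξ 0) ^ 2 + β * (η 1 - ξ 1) ^ 2 = k)).card ≤ 2 := by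
  have h2 := two_ne hF
  set D : F := (α * β)⁻¹ * ((α * η 0 ^ 2 + β * η 1 ^ 2) * k -
    ((α * η 0 ^ 2 + β * η 1 ^ 2) / 2) ^ 2) with hD
  refine le_trans ?_ (card_sq_eq_le_two D)
  have hlin : ∀ ξ : Fin 2 → F, (α * ξ 0 ^ 2 + β * ξ 1 ^ 2 = k ∧
      α * (η 0 - ξ 0) ^ 2 + β * (η 1 - ξ 1) ^ 2 = k) →
      α * η 0 * ξ 0 + β * η 1 * ξ 1 = (α * η 0 ^ 2 + β * η 1 ^ 2) / 2 := by
    intro ξ ⟨h3, h4⟩
    field_simp
    linear_combination h3 - h4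
  have hN : ∀ ξ : Fin 2 → F, (α * ξ 0 ^ 2 + β * ξ 1 ^ 2 = k ∧
      α * (η 0 - ξ 0) ^ 2 + β * (η 1 - ξ 1) ^ 2 = k) → α * η 0 ^ 2 + β * η 1 ^ 2 ≠ 0 := by
    intro ξ hξ h0
    have h5 := hlin ξ hξ
    rw [h0, zero_div] at h5
    have h6 : α * β * (η 0 * ξ 1 - η 1 * ξ 0) ^ 2 = 0 := by
      have : α * β * (η 0 * ξ 1 - η 1 * ξ 0) ^ 2 =
        (α * η 0 ^ 2 + β * η 1 ^ 2) * (α * ξ 0 ^ 2 + β * ξ 1 ^ 2) -
        (α * η 0 * ξ 0 + β * η 1 * ξ 1) ^ 2 := by ring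
      rw [this, h0, h5]
      ring
    have h7 : η 0 * ξ 1 - η 1 * ξ 0 = 0 := by
      have h8 := (mul_eq_zero.1 h6).resolve_left (mul_ne_zero hα hβ)
      exact pow_eq_zero_iff (two_ne_zero) |>.1 h8
    have h9 : η 0 ≠ 0 ∨ η 1 ≠ 0 := by
      by_contra hcon
      push Not at hcon
      apply hη
      ext i
      fin_cases i
      · exact hcon.1
      · exact hcon.2
    apply hk
    rw [← hξ.1]
    rcases h9 with h9 | h9
    · have h10 : η 0 ^ 2 * (α * ξ 0 ^ 2 + β * ξ 1 ^ 2) = 0 := by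
        have : ξ 1 * η 0 = η 1 * ξ 0 := by linear_combination h7
        have h11 : η 0 ^ 2 * (α * ξ 0 ^ 2 + β * ξ 1 ^ 2) =
          (α * η 0 ^ 2) * ξ 0 ^ 2 + β * (ξ 1 * η 0) ^ 2 := by ring
        rw [h11, this]
        linear_combination ξ 0 ^ 2 * h0
      exact (mul_eq_zero.1 h10).resolve_left (pow_ne_zero _ h9)
    · have h10 : η 1 ^ 2 * (α * ξ 0 ^ 2 + β * ξ 1 ^ 2) = 0 := by
        have : η 1 * ξ 0 = ξ 1 * η 0 := by linear_combination -h7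
        have h11 : η 1 ^ 2 * (α * ξ 0 ^ 2 + β * ξ 1 ^ 2) =
          α * (η 1 * ξ 0) ^ 2 + (β * η 1 ^ 2) * ξ 1 ^ 2 := by ring
        rw [h11, this]
        linear_combination ξ 1 ^ 2 * h0
      exact (mul_eq_zero.1 h10).resolve_left (pow_ne_zero _ h9)
  apply card_le_card_of_injOn (fun ξ => η 0 * ξ 1 - η 1 * ξ 0)
  · intro ξ hξ
    have hξ := (mem_filter.1 hξ).2
    have h5 := hlin ξ hξ
    simp only [coe_filter, mem_univ, true_and, Set.mem_ofPred_eq]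
    rw [hD, ← h5, ← hξ.1]
    field_simp
    ring
  · intro ξ hξ ξ' hξ' heq
    have hξ := (mem_filter.1 hξ).2
    have hξ' := (mem_filter.1 hξ').2
    have h5 := (hlin ξ hξ).trans (hlin ξ' hξ').symm
    have h6 := hN ξ hξ
    simp only at heq
    have e0 : ξ 0 = ξ' 0 := by
      have : (α * η 0 ^ 2 + β * η 1 ^ 2) * (ξ 0 - ξ' 0) = 0 := by
        linear_combination η 0 * h5 - β * η 1 * heq
      exact sub_eq_zero.1 ((mul_eq_zero.1 this).resolve_left h6)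
    have e1 : ξ 1 = ξ' 1 := by
      have : (α * η 0 ^ 2 + β * η 1 ^ 2) * (ξ 1 - ξ' 1) = 0 := by
        linear_combination η 1 * h5 + α * η 0 * heq
      exact sub_eq_zero.1 ((mul_eq_zero.1 this).resolve_left h6)
    ext i
    fin_cases i
    · exact e0
    · exact e1

theorem conic_energy (hF : ringChar F ≠ 2) {ψ : AddChar F ℂ} (hψ : ψ.IsPrimitive)
    {α β k : F} (hα : α ≠ 0) (hβ : β ≠ 0) (hk : k ≠ 0) (A : (Fin 2 → F) → ℂ)
    (hA : ∀ ξ, α * ξ 0 ^ 2 + β * ξ 1 ^ 2 ≠ k → A ξ = 0) :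
    ∑ x : Fin 2 → F, ‖∑ ξ : Fin 2 → F, A ξ * ψ (∑ i, ξ i * x i)‖ ^ 4 ≤
      3 * (Fintype.card F : ℝ) ^ 2 * (∑ ξ, ‖A ξ‖ ^ 2) ^ 2 := by
  have hq := card_pos_real (F := F)
  set B : (Fin 2 → F) → ℂ := fun η => ∑ ξ, A ξ * A (η - ξ) with hB
  have h1 : ∀ x : Fin 2 → F, (∑ ξ : Fin 2 → F, A ξ * ψ (∑ i, ξ i * x i)) ^ 2 =
      ∑ η, B η * ψ (∑ i, η i * x i) := by
    intro x
    rw [sq, sum_mul_sum]
    have h2 : ∀ ξ : Fin 2 → F, ∑ ξ' : Fin 2 → F, A ξ * ψ (∑ i, ξ i * x i) *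
        (A ξ' * ψ (∑ i, ξ' i * x i)) = ∑ η : Fin 2 → F, A ξ * A (η - ξ) *
        ψ (∑ i, η i * x i) := by
      intro ξ
      rw [← Equiv.sum_comp (Equiv.subRight ξ)]
      apply sum_congr rfl
      intro η _
      simp only [Equiv.subRight_apply]
      have h3 : ψ (∑ i, η i * x i) = ψ (∑ i, ξ i * x i) * ψ (∑ i, (η - ξ) i * x i) := by
        rw [← AddChar.map_add_eq_mul, ← sum_add_distrib]
        congr 1
        apply sum_congr rfl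
        intro i _
        rw [Pi.sub_apply]
        ring
      rw [h3]
      ring
    simp_rw [h2]
    rw [sum_comm]
    simp_rw [hB, sum_mul]
  have h4 : ∀ x : Fin 2 → F, ‖∑ ξ : Fin 2 → F, A ξ * ψ (∑ i, ξ i * x i)‖ ^ 4 =
      ‖∑ η, B η * ψ (∑ i, η i * x i)‖ ^ 2 := by
    intro x
    rw [← h1, norm_pow]
    ring
  simp_rw [h4]
  have h5 := parseval_vec hψ (fun η : Fin 2 → F => η) Function.injective_id B
  rw [h5, Fintype.card_fin]
  have hSn : 0 ≤ ∑ ξ, ‖A ξ‖ ^ 2 := sum_nonneg (fun _ _ => by positivity)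
  have h6 : ∀ η, η ≠ 0 → ‖B η‖ ^ 2 ≤ 2 * ∑ ξ, ‖A ξ‖ ^ 2 * ‖A (η - ξ)‖ ^ 2 := by
    intro η hη
    set N := univ.filter (fun ξ : Fin 2 → F => α * ξ 0 ^ 2 + β * ξ 1 ^ 2 = k ∧
      α * (η 0 - ξ 0) ^ 2 + β * (η 1 - ξ 1) ^ 2 = k) with hN
    have hNc := conic_pairs_le hF hα hβ hk η hη
    have h7 : B η = ∑ ξ ∈ N, A ξ * A (η - ξ) := by
      rw [hB]
      symm
      apply sum_subset (subset_univ _)
      intro ξ _ hξ
      by_cases h8 : α * ξ 0 ^ 2 + β * ξ 1 ^ 2 = k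
      · by_cases h9 : α * (η 0 - ξ 0) ^ 2 + β * (η 1 - ξ 1) ^ 2 = k
        · exact absurd (mem_filter.2 ⟨mem_univ _, h8, h9⟩) hξ
        · rw [hA (η - ξ) (by simpa using h9), mul_zero]
      · rw [hA ξ h8, zero_mul]
    rw [h7]
    have h10 : ‖∑ ξ ∈ N, A ξ * A (η - ξ)‖ ≤ ∑ ξ ∈ N, ‖A ξ‖ * ‖A (η - ξ)‖ := by
      refine (norm_sum_le _ _).trans (sum_le_sum (fun ξ _ => ?_))
      rw [norm_mul]
    have h11 := sq_sum_le_card_mul_sum_sq (s := N) (f := fun ξ => ‖A ξ‖ * ‖A (η - ξ)‖)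
    calc ‖∑ ξ ∈ N, A ξ * A (η - ξ)‖ ^ 2 ≤ (∑ ξ ∈ N, ‖A ξ‖ * ‖A (η - ξ)‖) ^ 2 :=
          pow_le_pow_left₀ (norm_nonneg _) h10 2
      _ ≤ (N.card : ℝ) * ∑ ξ ∈ N, (‖A ξ‖ * ‖A (η - ξ)‖) ^ 2 := h11
      _ ≤ 2 * ∑ ξ, ‖A ξ‖ ^ 2 * ‖A (η - ξ)‖ ^ 2 := by
          apply mul_le_mul
          · exact_mod_cast hNc
          · simp_rw [mul_pow]
            exact sum_le_sum_of_subset_of_nonneg (subset_univ _)
              (fun _ _ _ => by positivity)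
          · exact sum_nonneg (fun _ _ => by positivity)
          · norm_num
  have h12 : ‖B 0‖ ^ 2 ≤ (∑ ξ, ‖A ξ‖ ^ 2) ^ 2 := by
    apply pow_le_pow_left₀ (norm_nonneg _)
    rw [hB]
    refine (norm_sum_le _ _).trans ?_
    have h13 : ∀ ξ : Fin 2 → F, ‖A ξ * A (0 - ξ)‖ ≤ (‖A ξ‖ ^ 2 + ‖A (-ξ)‖ ^ 2) / 2 := by
      intro ξ
      rw [norm_mul, zero_sub]
      nlinarith [sq_nonneg (‖A ξ‖ - ‖A (-ξ)‖)]
    refine (sum_le_sum (fun ξ _ => h13 ξ)).trans ?_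
    rw [← sum_div, sum_add_distrib]
    have h14 : ∑ ξ : Fin 2 → F, ‖A (-ξ)‖ ^ 2 = ∑ ξ, ‖A ξ‖ ^ 2 :=
      Equiv.sum_comp (Equiv.neg (Fin 2 → F)) (fun ξ => ‖A ξ‖ ^ 2)
    rw [h14]
    linarith
  have h15 : ∑ η : Fin 2 → F, ∑ ξ : Fin 2 → F, ‖A ξ‖ ^ 2 * ‖A (η - ξ)‖ ^ 2 =
      (∑ ξ, ‖A ξ‖ ^ 2) ^ 2 := by
    rw [sum_comm, sq, sum_mul]
    apply sum_congr rfl
    intro ξ _
    rw [← mul_sum]
    congr 1
    exact Equiv.sum_comp (Equiv.subRight ξ) (fun η => ‖A η‖ ^ 2)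
  have h16 : ∑ η, ‖B η‖ ^ 2 ≤ 3 * (∑ ξ, ‖A ξ‖ ^ 2) ^ 2 := by
    rw [← add_sum_erase univ _ (mem_univ (0 : Fin 2 → F))]
    have h17 : ∑ η ∈ univ.erase (0 : Fin 2 → F), ‖B η‖ ^ 2 ≤
        2 * ∑ η : Fin 2 → F, ∑ ξ : Fin 2 → F, ‖A ξ‖ ^ 2 * ‖A (η - ξ)‖ ^ 2 := by
      rw [mul_sum]
      refine (sum_le_sum (fun η hη => h6 η (ne_of_mem_erase hη))).trans ?_
      exact sum_le_sum_of_subset_of_nonneg (subset_univ _) (fun η _ _ =>
        mul_nonneg (by norm_num) (sum_nonneg (fun _ _ => by positivity)))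
    rw [h15] at h17
    linarith
  calc _ ≤ (Fintype.card F : ℝ) ^ 2 * (3 * (∑ ξ, ‖A ξ‖ ^ 2) ^ 2) :=
        mul_le_mul_of_nonneg_left h16 (by positivity)
    _ = _ := by ring

end Run7.h191.Sph
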