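import Mathlib
import Pool.Agent.Run7.h191.Conic

/-! Diagonal forms, their Gauss sums and the counts needed for the averaging argument. -/

set_option autoImplicit false
set_option linter.unusedSectionVars false

namespace Run7.h191.Sph

open Finset

variable {F : Type*} [Field F] [Fintype F] [DecidableEq F]
variable {ι : Type*} [Fintype ι] [DecidableEq ι]

/-- the bilinear form attached to the diagonal form with coefficients `a` -/
def BD (a x y : ι → F) : F := ∑ i, a i * x i * y i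

theorem BD_self (a x : ι → F) : BD a x x = QD a x := by
  unfold BD QD
  exact sum_congr rfl (fun i _ => by ring)

theorem BD_comm (a x y : ι → F) : BD a x y = BD a y x := by
  unfold BD
  exact sum_congr rfl (fun i _ => by ring)

theorem BD_add_left (a x y z : ι → F) : BD a (x + y) z = BD a x z + BD a y z := by
  unfold BD
  rw [← sum_add_distrib]
  exact sum_congr rfl (fun i _ => by rw [Pi.add_apply]; ring)

theorem BD_sub_left (a x y z : ι → F) : BD a (x - y) z = BD a x z - BD a y z := by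
  unfold BD
  rw [← sum_sub_distrib]
  exact sum_congr rfl (fun i _ => by rw [Pi.sub_apply]; ring)

theorem BD_smul_left (a x y : ι → F) (c : F) : BD a (c • x) y = c * BD a x y := by
  unfold BD
  rw [mul_sum]
  exact sum_congr rfl (fun i _ => by rw [Pi.smul_apply, smul_eq_mul]; ring)

theorem BD_add_right (a x y z : ι → F) : BD a x (y + z) = BD a x y + BD a x z := by
  rw [BD_comm, BD_add_left, BD_comm a y, BD_comm a z]

theorem BD_sub_right (a x y z : ι → F) : BD a x (y - z) = BD a x y - BD a x z := by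
  rw [BD_comm, BD_sub_left, BD_comm a y, BD_comm a z]

theorem BD_smul_right (a x y : ι → F) (c : F) : BD a x (c • y) = c * BD a x y := by
  rw [BD_comm, BD_smul_left, BD_comm]

theorem BD_zero_left (a y : ι → F) : BD a 0 y = 0 := by
  unfold BD
  simp

theorem BD_zero_right (a y : ι → F) : BD a y 0 = 0 := by
  unfold BD
  simp

theorem BD_nondeg {a : ι → F} (ha : ∀ i, a i ≠ 0) {x : ι → F} (h : ∀ y, BD a x y = 0) :
    x = 0 := by
  ext i
  have h1 := h (Pi.single i 1)
  unfold BD at h1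
  rw [sum_eq_single i] at h1
  · rw [Pi.single_eq_same, mul_one] at h1
    exact (mul_eq_zero.1 h1).resolve_left (ha i)
  · intro j _ hj
    rw [Pi.single_eq_of_ne hj, mul_zero]
  · intro hi
    exact absurd (mem_univ _) hi

theorem QD_smul (a x : ι → F) (c : F) : QD a (c • x) = c ^ 2 * QD a x := by
  rw [← BD_self, ← BD_self, BD_smul_left, BD_smul_right]
  ring

theorem QD_sub (a x y : ι → F) : QD a (x - y) = QD a x - 2 * BD a x y + QD a y := by
  rw [← BD_self, ← BD_self, ← BD_self, BD_sub_left, BD_sub_right, BD_sub_right, BD_comm a y x]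
  ring

theorem QD_zero (a : ι → F) : QD a 0 = 0 := by
  unfold QD
  simp

theorem sum_psi_BD {ψ : AddChar F ℂ} (hψ : ψ.IsPrimitive) {a : ι → F} (ha : ∀ i, a i ≠ 0)
    (y : ι → F) : ∑ x : ι → F, ψ (BD a y x) =
      if y = 0 then (Fintype.card F : ℂ) ^ (Fintype.card ι) else 0 := by
  have h1 := sum_psi_dot hψ (fun i => a i * y i)
  have h2 : (fun i => a i * y i) = 0 ↔ y = 0 := by
    constructor
    · intro h
      ext i
      exact (mul_eq_zero.1 (congrFun h i)).resolve_left (ha i)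
    · intro h
      ext i
      simp [h]
  simp_rw [h2] at h1
  exact h1

/-- the Gauss sum constant of a diagonal form in an even number of variables -/
def IsG (a : ι → F) (ψ : AddChar F ℂ) (γ : ℂ) : Prop :=
  ‖γ‖ ^ 2 = (Fintype.card F : ℝ) ^ (Fintype.card ι) ∧
    ∀ s : F, s ≠ 0 → ∀ y : ι → F, ∑ x : ι → F, ψ (s * QD a x + BD a y x) =
      γ * ψ (-((4 * s)⁻¹ * QD a y))

theorem exists_isG (hF : ringChar F ≠ 2) {ψ : AddChar F ℂ} (hψ : ψ.IsPrimitive) {a : ι → F}
    (ha : ∀ i, a i ≠ 0) (hev : Even (Fintype.card ι)) : ∃ γ : ℂ, IsG a ψ γ := by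
  obtain ⟨γ, h1, h2⟩ := gaussDiag hF hψ a ha hev
  refine ⟨γ, h1, ?_⟩
  intro s hs y
  have h3 := h2 s hs (fun i => a i * y i)
  have h5 : ∑ i, (a i)⁻¹ * (a i * y i) ^ 2 = QD a y := by
    unfold QD
    apply sum_congr rfl
    intro i _
    have := ha i
    field_simp
  rw [h5] at h3
  exact h3

theorem sum_units_inv_psi {ψ : AddChar F ℂ} (hψ : ψ.IsPrimitive) (hF : ringChar F ≠ 2) (A : F) :
    ∑ r ∈ univ.erase (0 : F), ψ (-((4 * r)⁻¹ * A)) =
      (if A = 0 then (Fintype.card F : ℂ) else 0) - 1 := by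
  have h4 := four_ne hF
  have h1 : ∑ r ∈ univ.erase (0 : F), ψ (-((4 * r)⁻¹ * A)) =
      ∑ r ∈ univ.erase (0 : F), ψ (r * A) := by
    refine sum_bij' (fun r _ => -(4 * r)⁻¹) (fun r _ => -(4 * r)⁻¹) ?_ ?_ ?_ ?_ ?_
    · intro r hr
      rw [mem_erase] at hr ⊢
      exact ⟨neg_ne_zero.2 (inv_ne_zero (mul_ne_zero h4 hr.1)), mem_univ _⟩
    · intro r hr
      rw [mem_erase] at hr ⊢
      exact ⟨neg_ne_zero.2 (inv_ne_zero (mul_ne_zero h4 hr.1)), mem_univ _⟩
    · intro r hr
      have hr0 := (mem_erase.1 hr).1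
      field_simp
    · intro r hr
      have hr0 := (mem_erase.1 hr).1
      field_simp
    · intro r hr
      congr 1
      ring
  rw [h1, sum_erase_eq_sub (mem_univ _), sum_psi_mul hψ]
  simp

/-- number of null vectors orthogonal to `y`, as a set -/
def nullPerp (a y : ι → F) : Finset (ι → F) :=
  univ.filter (fun z : ι → F => QD a z = 0 ∧ BD a y z = 0)

theorem mem_nullPerp {a y z : ι → F} : z ∈ nullPerp a y ↔ QD a z = 0 ∧ BD a y z = 0 := by
  simp [nullPerp]

/-- exact count of null vectors orthogonal to `y` -/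
theorem count_nullPerp (hF : ringChar F ≠ 2) {ψ : AddChar F ℂ} (hψ : ψ.IsPrimitive) {a : ι → F}
    (ha : ∀ i, a i ≠ 0) {γ : ℂ} (hγ : IsG a ψ γ) (y : ι → F) :
    (Fintype.card F : ℂ) ^ 2 * ((nullPerp a y).card : ℂ) =
      (Fintype.card F : ℂ) ^ (Fintype.card ι) *
        ((univ.filter (fun t : F => t • y = 0)).card : ℂ) +
      γ * ((Fintype.card F : ℂ) * ((univ.filter (fun t : F => QD a (t • y) = 0)).card : ℂ) -
        (Fintype.card F : ℂ)) := by
  have h1 : (Fintype.card F : ℂ) ^ 2 * ((nullPerp a y).card : ℂ) =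
      ∑ z : ι → F, ∑ t : F, ∑ r : F, ψ (r * QD a z + BD a (t • y) z) := by
    have h2 : ∀ z : ι → F, ∑ t : F, ∑ r : F, ψ (r * QD a z + BD a (t • y) z) =
        if QD a z = 0 ∧ BD a y z = 0 then (Fintype.card F : ℂ) * (Fintype.card F : ℂ) else 0 := by
      intro z
      simp_rw [BD_smul_left, AddChar.map_add_eq_mul, ← sum_mul, sum_psi_mul hψ, ← mul_sum,
        sum_psi_mul hψ]
      by_cases a1 : QD a z = 0
      · by_cases b1 : BD a y z = 0
        · simp [a1, b1]
        · simp [a1, b1]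
      · simp [a1]
    simp_rw [h2]
    rw [← sum_filter, sum_const, nsmul_eq_mul, nullPerp]
    ring
  rw [h1, sum_comm]
  have h3 : ∀ t : F, ∑ z : ι → F, ∑ r : F, ψ (r * QD a z + BD a (t • y) z) =
      (if t • y = 0 then (Fintype.card F : ℂ) ^ (Fintype.card ι) else 0) +
        γ * ((if QD a (t • y) = 0 then (Fintype.card F : ℂ) else 0) - 1) := by
    intro t
    rw [sum_comm, ← add_sum_erase univ _ (mem_univ (0 : F))]
    congr 1
    · simp_rw [zero_mul, zero_add]
      exact sum_psi_BD hψ ha (t • y)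
    · rw [← sum_units_inv_psi hψ hF, mul_sum]
      apply sum_congr rfl
      intro r hr
      exact hγ.2 r (mem_erase.1 hr).1 (t • y)
  simp_rw [h3]
  rw [sum_add_distrib, ← sum_filter, sum_const, nsmul_eq_mul, ← mul_sum, sum_sub_distrib,
    ← sum_filter, sum_const, nsmul_eq_mul, sum_const, card_univ, nsmul_eq_mul, mul_one]
  ring

theorem filter_smul_zero {y : ι → F} (hy : y ≠ 0) :
    univ.filter (fun t : F => t • y = 0) = {0} := by
  ext t
  simp [hy]

/-- orthogonal to a non-null vector -/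
theorem card_nullPerp_of_ne (hF : ringChar F ≠ 2) {ψ : AddChar F ℂ} (hψ : ψ.IsPrimitive)
    {a : ι → F} (ha : ∀ i, a i ≠ 0) (hev : Even (Fintype.card ι)) {y : ι → F}
    (hy : QD a y ≠ 0) :
    (Fintype.card F : ℝ) ^ 2 * ((nullPerp a y).card : ℝ) =
      (Fintype.card F : ℝ) ^ (Fintype.card ι) := by
  obtain ⟨γ, hγ⟩ := exists_isG hF hψ ha hev
  have h1 := count_nullPerp hF hψ ha hγ y
  have hy0 : y ≠ 0 := by
    intro h
    apply hy
    rw [h, QD_zero]
  have h3 : univ.filter (fun t : F => QD a (t • y) = 0) = {0} := by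
    ext t
    simp only [mem_filter, mem_univ, true_and, mem_singleton]
    rw [QD_smul]
    constructor
    · intro h
      have h4 := (mul_eq_zero.1 h).resolve_right hy
      exact pow_eq_zero_iff (two_ne_zero) |>.1 h4
    · intro h
      rw [h]
      ring
  rw [filter_smul_zero hy0, h3, card_singleton] at h1
  have h4 : (Fintype.card F : ℂ) ^ 2 * ((nullPerp a y).card : ℂ) =
      (Fintype.card F : ℂ) ^ (Fintype.card ι) := by
    rw [h1]
    push_cast
    ring
  exact_mod_cast h4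

/-- an upper bound for the number of null vectors orthogonal to a nonzero vector -/
theorem card_nullPerp_le (hF : ringChar F ≠ 2) {ψ : AddChar F ℂ} (hψ : ψ.IsPrimitive)
    {a : ι → F} (ha : ∀ i, a i ≠ 0) {γ : ℂ} (hγ : IsG a ψ γ) {y : ι → F}
    (hy : y ≠ 0) :
    (Fintype.card F : ℝ) ^ 2 * ((nullPerp a y).card : ℝ) ≤
      (Fintype.card F : ℝ) ^ (Fintype.card ι) + (Fintype.card F : ℝ) ^ 2 * ‖γ‖ := by
  have h1 := count_nullPerp hF hψ ha hγ y
  have hq := one_le_card_real (F := F)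
  rw [filter_smul_zero hy, card_singleton, Nat.cast_one, mul_one] at h1
  have h2 : (Fintype.card F : ℝ) ^ 2 * ((nullPerp a y).card : ℝ) =
      ‖(Fintype.card F : ℂ) ^ 2 * ((nullPerp a y).card : ℂ)‖ := by
    rw [norm_mul, norm_pow, Complex.norm_natCast, Complex.norm_natCast]
  rw [h2, h1]
  refine (norm_add_le _ _).trans ?_
  rw [norm_pow, Complex.norm_natCast, norm_mul]
  set N := (univ.filter (fun t : F => QD a (t • y) = 0)).card with hN
  have hN1 : 1 ≤ N := by
    rw [hN, Nat.one_le_iff_ne_zero, card_ne_zero]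
    exact ⟨0, by simp [QD_zero]⟩
  have hNq : N ≤ Fintype.card F := by
    rw [hN]
    exact (card_le_univ _)
  have h3 : ‖(Fintype.card F : ℂ) * (N : ℂ) - (Fintype.card F : ℂ)‖ ≤
      (Fintype.card F : ℝ) ^ 2 := by
    have h4 : (Fintype.card F : ℂ) * (N : ℂ) - (Fintype.card F : ℂ) =
        (((Fintype.card F : ℝ) * (N : ℝ) - (Fintype.card F : ℝ) : ℝ) : ℂ) := by
      push_cast
      ring
    rw [h4, Complex.norm_real, Real.norm_eq_abs, abs_of_nonneg]
    · have : (N : ℝ) ≤ (Fintype.card F : ℝ) := by exact_mod_cast hNq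
      nlinarith
    · have : (1 : ℝ) ≤ (N : ℝ) := by exact_mod_cast hN1
      nlinarith
  nlinarith [norm_nonneg γ]

/-- the number of null vectors -/
theorem card_null_le (hF : ringChar F ≠ 2) {ψ : AddChar F ℂ} (hψ : ψ.IsPrimitive)
    {a : ι → F} (ha : ∀ i, a i ≠ 0) {γ : ℂ} (hγ : IsG a ψ γ) :
    (Fintype.card F : ℝ) * ((univ.filter (fun z : ι → F => QD a z = 0)).card : ℝ) ≤
      (Fintype.card F : ℝ) ^ (Fintype.card ι) + (Fintype.card F : ℝ) * ‖γ‖ := by
  have hq := one_le_card_real (F := F)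
  have h1 := count_nullPerp hF hψ ha hγ 0
  have e1 : nullPerp a 0 = univ.filter (fun z : ι → F => QD a z = 0) := by
    ext z
    simp [nullPerp, BD_zero_left]
  have e2 : univ.filter (fun t : F => t • (0 : ι → F) = 0) = univ := by
    ext t
    simp
  have e3 : univ.filter (fun t : F => QD a (t • (0 : ι → F)) = 0) = univ := by
    ext t
    simp [QD_zero]
  rw [e1, e2, e3, card_univ] at h1
  set M := (univ.filter (fun z : ι → F => QD a z = 0)).card with hM
  have hqC : (Fintype.card F : ℂ) ≠ 0 := by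
    exact_mod_cast Fintype.card_ne_zero
  have h2 : (Fintype.card F : ℂ) * (M : ℂ) = (Fintype.card F : ℂ) ^ (Fintype.card ι) +
      γ * ((Fintype.card F : ℂ) - 1) := by
    apply mul_left_cancel₀ hqC
    linear_combination h1
  have h3 : (Fintype.card F : ℝ) * (M : ℝ) = ‖(Fintype.card F : ℂ) * (M : ℂ)‖ := by
    rw [norm_mul, Complex.norm_natCast, Complex.norm_natCast]
  rw [h3, h2]
  refine (norm_add_le _ _).trans ?_
  rw [norm_pow, Complex.norm_natCast, norm_mul]
  have h4 : ‖(Fintype.card F : ℂ) - 1‖ ≤ (Fintype.card F : ℝ) := by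
    have h5 : (Fintype.card F : ℂ) - 1 = (((Fintype.card F : ℝ) - 1 : ℝ) : ℂ) := by
      push_cast
      ring
    rw [h5, Complex.norm_real, Real.norm_eq_abs, abs_of_nonneg]
    · linarith
    · linarith
  nlinarith [norm_nonneg γ]

/-- the size of a sphere -/
theorem card_sphere {ψ : AddChar F ℂ} (hψ : ψ.IsPrimitive)
    {a : ι → F} {γ : ℂ} (hγ : IsG a ψ γ) {c : F} (hc : c ≠ 0) :
    (Fintype.card F : ℝ) ^ (Fintype.card ι) ≤
      (Fintype.card F : ℝ) * ((univ.filter (fun x : ι → F => QD a x = c)).card : ℝ) + ‖γ‖ := by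
  have h1 : (Fintype.card F : ℂ) * ((univ.filter (fun x : ι → F => QD a x = c)).card : ℂ) =
      ∑ x : ι → F, ∑ s : F, ψ (s * (QD a x - c)) := by
    simp_rw [sum_psi_mul hψ, sub_eq_zero]
    rw [← sum_filter, sum_const, nsmul_eq_mul]
    ring
  have h0 : (Fintype.card F : ℂ) * ((univ.filter (fun x : ι → F => QD a x = c)).card : ℂ) =
      (Fintype.card F : ℂ) ^ (Fintype.card ι) - γ := by
    rw [h1, sum_comm, ← add_sum_erase univ _ (mem_univ (0 : F))]
    have h2 : ∑ x : ι → F, ψ (0 * (QD a x - c)) = (Fintype.card F : ℂ) ^ (Fintype.card ι) := by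
      simp
    rw [h2, sub_eq_add_neg]
    congr 1
    have h4 : ∀ s ∈ univ.erase (0 : F), ∑ x : ι → F, ψ (s * (QD a x - c)) =
        γ * ψ (s * (-c)) := by
      intro s hs
      have h5 := hγ.2 s (mem_erase.1 hs).1 0
      rw [QD_zero, mul_zero, neg_zero, AddChar.map_zero_eq_one, mul_one] at h5
      rw [← h5, sum_mul]
      apply sum_congr rfl
      intro x _
      rw [← AddChar.map_add_eq_mul]
      congr 1
      rw [BD_zero_left]
      ring
    rw [sum_congr rfl h4, ← mul_sum, sum_erase_eq_sub (mem_univ _), sum_psi_mul hψ,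
      if_neg (neg_ne_zero.2 hc)]
    simp
  have h6 : (Fintype.card F : ℂ) ^ (Fintype.card ι) =
      (Fintype.card F : ℂ) * ((univ.filter (fun x : ι → F => QD a x = c)).card : ℂ) + γ := by
    rw [h0]
    ring
  have h7 : (Fintype.card F : ℝ) ^ (Fintype.card ι) =
      ‖(Fintype.card F : ℂ) ^ (Fintype.card ι)‖ := by
    rw [norm_pow, Complex.norm_natCast]
  rw [h7, h6]
  refine (norm_add_le _ _).trans ?_
  rw [norm_mul, Complex.norm_natCast, Complex.norm_natCast]

/-- Plancherel -/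
theorem plancherel {ψ : AddChar F ℂ} (hψ : ψ.IsPrimitive) {a : ι → F} (ha : ∀ i, a i ≠ 0)
    (g : (ι → F) → ℂ) :
    ∑ x : ι → F, ‖∑ m : ι → F, g m * ψ (BD a m x)‖ ^ 2 =
      (Fintype.card F : ℝ) ^ (Fintype.card ι) * ∑ m, ‖g m‖ ^ 2 := by
  have h1 := parseval_vec hψ (fun (m : ι → F) (i : ι) => a i * m i) (by
    intro m m' h
    ext i
    exact mul_left_cancel₀ (ha i) (congrFun h i)) g
  exact h1

/-- weighted count of pairs whose difference is null -/
theorem null_pairs (hF : ringChar F ≠ 2) {ψ : AddChar F ℂ} (hψ : ψ.IsPrimitive)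
    {a : ι → F} (ha : ∀ i, a i ≠ 0) {γ : ℂ} (hγ : IsG a ψ γ) (f : (ι → F) → ℝ) :
    (Fintype.card F : ℝ) * ∑ b : ι → F, ∑ b' : ι → F,
      (if QD a (b - b') = 0 then f b * f b' else 0) ≤
      (∑ b, f b) ^ 2 + (Fintype.card F : ℝ) * ‖γ‖ * ∑ b, f b ^ 2 := by
  have hq := one_le_card_real (F := F)
  have hq0 := card_pos_real (F := F)
  have key : ∀ s : F, s ≠ 0 →
      ‖∑ b : ι → F, ∑ b' : ι → F, ((f b * f b' : ℝ) : ℂ) * ψ (s * QD a (b - b'))‖ ≤
        ‖γ‖ * ∑ b, f b ^ 2 := by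
    intro s hs
    have h2s : (2 : F) * s ≠ 0 := mul_ne_zero (two_ne hF) hs
    have h1 : ∑ b : ι → F, ∑ b' : ι → F, ((f b * f b' : ℝ) : ℂ) * ψ (s * QD a (b - b')) =
        ∑ b : ι → F, ((f b : ℂ) * ψ (s * QD a b)) *
          ∑ b' : ι → F, (((f b' : ℂ) * ψ (s * QD a b')) * ψ (BD a b' (-(2 * s) • b))) := by
      apply sum_congr rfl
      intro b _
      rw [mul_sum]
      apply sum_congr rfl
      intro b' _
      rw [QD_sub, BD_smul_right, BD_comm a b' b]
      have : s * (QD a b - 2 * BD a b b' + QD a b') =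
        s * QD a b + (s * QD a b' + -(2 * s) * BD a b b') := by ring
      rw [this, AddChar.map_add_eq_mul, AddChar.map_add_eq_mul]
      push_cast
      ring
    rw [h1]
    set A : (ι → F) → ℂ := fun b' => (f b' : ℂ) * ψ (s * QD a b') with hA
    set T : (ι → F) → ℂ := fun x => ∑ b' : ι → F, A b' * ψ (BD a b' x) with hT
    have hAn : ∀ b, ‖A b‖ ^ 2 = f b ^ 2 := by
      intro b
      rw [hA]
      simp only
      rw [norm_mul, norm_psi, mul_one, Complex.norm_real, Real.norm_eq_abs, sq_abs]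
    have h2 : ‖∑ b : ι → F, A b * T (-(2 * s) • b)‖ ≤ ∑ b, ‖A b‖ * ‖T (-(2 * s) • b)‖ := by
      refine (norm_sum_le _ _).trans (sum_le_sum (fun b _ => ?_))
      rw [norm_mul]
    have h3 : (∑ b, ‖A b‖ * ‖T (-(2 * s) • b)‖) ^ 2 ≤
        (∑ b, ‖A b‖ ^ 2) * ∑ b, ‖T (-(2 * s) • b)‖ ^ 2 := sum_mul_sq_le_sq_mul_sq _ _ _
    have h4 : ∑ b, ‖T (-(2 * s) • b)‖ ^ 2 = ∑ x, ‖T x‖ ^ 2 := by
      have hne : (-(2 * s)) ≠ 0 := neg_ne_zero.2 h2s
      exact Equiv.sum_comp (MulAction.toPerm (Units.mk0 (-(2 * s)) hne)) (fun x => ‖T x‖ ^ 2)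
    have h5 : ∑ x, ‖T x‖ ^ 2 = ‖γ‖ ^ 2 * ∑ b, f b ^ 2 := by
      rw [hγ.1]
      have := plancherel hψ ha A
      simp_rw [hAn] at this
      exact this
    rw [h4, h5] at h3
    simp_rw [hAn] at h3
    have h6 : 0 ≤ ∑ b, f b ^ 2 := sum_nonneg (fun _ _ => by positivity)
    have h7 : (∑ b, ‖A b‖ * ‖T (-(2 * s) • b)‖) ≤ ‖γ‖ * ∑ b, f b ^ 2 := by
      apply le_of_sq_le_sq _ (mul_nonneg (norm_nonneg _) h6)
      refine h3.trans (le_of_eq ?_)
      ring
    exact h2.trans h7
  have h1 : (((Fintype.card F : ℝ) * ∑ b : ι → F, ∑ b' : ι → F,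
      (if QD a (b - b') = 0 then f b * f b' else 0) : ℝ) : ℂ) =
      ∑ s : F, ∑ b : ι → F, ∑ b' : ι → F, ((f b * f b' : ℝ) : ℂ) * ψ (s * QD a (b - b')) := by
    have e1 : ∑ s : F, ∑ b : ι → F, ∑ b' : ι → F, ((f b * f b' : ℝ) : ℂ) *
        ψ (s * QD a (b - b')) = ∑ b : ι → F, ∑ b' : ι → F, ∑ s : F, ((f b * f b' : ℝ) : ℂ) *
        ψ (s * QD a (b - b')) := by
      rw [sum_comm]
      apply sum_congr rfl
      intro b _
      rw [sum_comm]
    rw [e1]
    push_cast
    rw [mul_sum]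
    apply sum_congr rfl
    intro b _
    rw [mul_sum]
    apply sum_congr rfl
    intro b' _
    rw [← mul_sum, sum_psi_mul hψ]
    split_ifs
    · push_cast
      ring
    · simp
  rw [← add_sum_erase univ _ (mem_univ (0 : F))] at h1
  have h2 : ∑ b : ι → F, ∑ b' : ι → F, ((f b * f b' : ℝ) : ℂ) * ψ (0 * QD a (b - b')) =
      (((∑ b, f b) ^ 2 : ℝ) : ℂ) := by
    simp only [zero_mul, AddChar.map_zero_eq_one, mul_one]
    rw [sq, sum_mul_sum]
    push_cast
    rfl
  rw [h2] at h1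
  have h3 : ‖∑ s ∈ univ.erase (0 : F), ∑ b : ι → F, ∑ b' : ι → F,
      ((f b * f b' : ℝ) : ℂ) * ψ (s * QD a (b - b'))‖ ≤
      (Fintype.card F : ℝ) * (‖γ‖ * ∑ b, f b ^ 2) := by
    refine (norm_sum_le _ _).trans ?_
    refine (sum_le_sum (fun s hs => key s (mem_erase.1 hs).1)).trans ?_
    rw [sum_const, nsmul_eq_mul]
    apply mul_le_mul_of_nonneg_right
    · have : (univ.erase (0 : F)).card ≤ Fintype.card F := card_le_univ _
      exact_mod_cast this
    · exact mul_nonneg (norm_nonneg _) (sum_nonneg (fun _ _ => by positivity))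
  set R := ∑ s ∈ univ.erase (0 : F), ∑ b : ι → F, ∑ b' : ι → F,
      ((f b * f b' : ℝ) : ℂ) * ψ (s * QD a (b - b')) with hR
  have h4 := congrArg Complex.re h1
  rw [Complex.ofReal_re, Complex.add_re, Complex.ofReal_re] at h4
  have h5 : R.re ≤ ‖R‖ := Complex.re_le_norm R
  rw [h4]
  linarith

end Run7.h191.Sph
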