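import Mathlib
import Pool.Agent.Run7.h191.Diag

/-! Splitting off a hyperbolic plane through a given null vector. -/

set_option autoImplicit false
set_option linter.unusedSectionVars false

namespace Run7.h191.Sph

open Finset

variable {F : Type*} [Field F] [Fintype F] [DecidableEq F]

section

variable {ι : Type*} [Fintype ι] [DecidableEq ι]

/-- the bilinear form as a Mathlib bilinear form -/
def bilD (a : ι → F) : LinearMap.BilinForm F (ι → F) :=
  LinearMap.mk₂ F (BD a) (fun x y z => BD_add_left a x y z) (fun c x y => by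
    rw [BD_smul_left, smul_eq_mul]) (fun x y z => BD_add_right a x y z) (fun c x y => by
    rw [BD_smul_right, smul_eq_mul])

theorem bilD_apply (a x y : ι → F) : bilD a x y = BD a x y := rfl

/-- a partner of a null vector -/
theorem exists_partner (hF : ringChar F ≠ 2) {a : ι → F} (ha : ∀ i, a i ≠ 0) {n : ι → F}
    (hn : n ≠ 0) (hQ : QD a n = 0) : ∃ n' : ι → F, BD a n n' = 1 ∧ QD a n' = 0 := by
  have h1 : ∃ m, BD a n m ≠ 0 := by
    by_contra h
    push Not at h
    exact hn (BD_nondeg ha h)
  obtain ⟨m, hm⟩ := h1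
  obtain ⟨m₁, h2⟩ : ∃ m₁, BD a n m₁ = 1 :=
    ⟨(BD a n m)⁻¹ • m, by rw [BD_smul_right, inv_mul_cancel₀ hm]⟩
  have h22 := two_ne hF
  have h0 : BD a n n = 0 := by rw [BD_self, hQ]
  refine ⟨m₁ - (QD a m₁ / 2) • n, ?_, ?_⟩
  · rw [BD_sub_right, BD_smul_right, h0, h2]
    ring
  · rw [QD_sub, QD_smul, hQ, BD_smul_right, BD_comm a m₁ n, h2]
    field_simp
    ring

end

theorem exists_hyp (hF : ringChar F ≠ 2) {r : ℕ} {a : Fin (r + 2) → F} (ha : ∀ i, a i ≠ 0)
    {n : Fin (r + 2) → F} (hn : n ≠ 0) (hQ : QD a n = 0) :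
    ∃ (a' : Fin r → F) (L : ((Fin r → F) × F × F) ≃ (Fin (r + 2) → F)),
      (∀ i, a' i ≠ 0) ∧
      (∀ y s t y' s' t', BD a (L (y, s, t)) (L (y', s', t')) = BD a' y y' + s * t' + t * s') ∧
      L (0, 1, 0) = n ∧ (∀ y s t, L (y, s, t) = L (y, 0, t) + s • n) := by
  classical
  obtain ⟨n', h1, hQ'⟩ := exists_partner hF ha hn hQ
  have h1' : BD a n' n = 1 := by rw [BD_comm, h1]
  have h0 : BD a n n = 0 := by rw [BD_self, hQ]
  have h0' : BD a n' n' = 0 := by rw [BD_self, hQ']
  set φ : (Fin (r + 2) → F) →ₗ[F] F × F :=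
    LinearMap.prod (LinearMap.flip (bilD a) n') (LinearMap.flip (bilD a) n) with hφ
  have hφa : ∀ x, φ x = (BD a x n', BD a x n) := fun x => rfl
  have hsurj : Function.Surjective φ := by
    rintro ⟨s, t⟩
    refine ⟨s • n + t • n', ?_⟩
    rw [hφa, BD_add_left, BD_add_left, BD_smul_left, BD_smul_left, BD_smul_left, BD_smul_left,
      h0, h0', h1, h1']
    simp
  set W : Submodule F (Fin (r + 2) → F) := LinearMap.ker φ with hW
  have hmem : ∀ x, x ∈ W ↔ BD a x n' = 0 ∧ BD a x n = 0 := by
    intro x
    rw [hW, LinearMap.mem_ker, hφa]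
    simp
  have hrank : Module.finrank F W = r := by
    have h2 := LinearMap.finrank_range_add_finrank_ker φ
    rw [LinearMap.range_eq_top.2 hsurj, finrank_top, Module.finrank_prod, Module.finrank_self,
      Module.finrank_fin_fun] at h2
    rw [hW]
    omega
  have hsymm : (bilD a).IsSymm := ⟨fun x y => by
    rw [bilD_apply, bilD_apply]
    exact BD_comm a x y⟩
  have : Invertible (2 : F) := invertibleOfNonzero (two_ne hF)
  obtain ⟨v₀, hv₀⟩ := LinearMap.BilinForm.exists_orthogonal_basis
    (LinearMap.BilinForm.isSymm_iff.1 (hsymm.restrict W))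
  set v : Module.Basis (Fin r) F W := v₀.reindex (finCongr hrank) with hv
  have hvo : ∀ i j : Fin r, i ≠ j → BD a (v i : Fin (r + 2) → F) (v j : Fin (r + 2) → F) = 0 := by
    intro i j hij
    have h3 := (LinearMap.isOrthoᵢ_def.1 hv₀) ((finCongr hrank).symm i) ((finCongr hrank).symm j)
      (fun h => hij ((finCongr hrank).symm.injective h))
    rw [hv, Module.Basis.reindex_apply, Module.Basis.reindex_apply]
    exact h3
  have hvn : ∀ i, BD a (v i : Fin (r + 2) → F) n = 0 := fun i => ((hmem _).1 (v i).2).2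
  have hvn' : ∀ i, BD a (v i : Fin (r + 2) → F) n' = 0 := fun i => ((hmem _).1 (v i).2).1
  set a' : Fin r → F := fun i => BD a (v i : Fin (r + 2) → F) (v i : Fin (r + 2) → F) with ha'
  have ha'0 : ∀ i, a' i ≠ 0 := by
    intro i hi
    have h4 : ∀ w : W, BD a (v i : Fin (r + 2) → F) (w : Fin (r + 2) → F) = 0 := by
      intro w
      have h5 := v.sum_repr w
      have h6 : (w : Fin (r + 2) → F) = ∑ j, v.repr w j • (v j : Fin (r + 2) → F) := by
        have h7 := congrArg (fun z : W => (z : Fin (r + 2) → F)) h5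
        simp only [AddSubmonoidClass.coe_finsetSum, Submodule.coe_smul] at h7
        exact h7.symm
      rw [h6, ← bilD_apply, map_sum]
      apply sum_eq_zero
      intro j _
      rw [map_smul, bilD_apply]
      by_cases hij : i = j
      · rw [← hij]
        rw [show BD a (v i : Fin (r + 2) → F) (v i : Fin (r + 2) → F) = 0 from hi, smul_zero]
      · rw [hvo i j hij, smul_zero]
    have h7 : (v i : Fin (r + 2) → F) = 0 := by
      apply BD_nondeg ha
      intro x
      have h8 : x - BD a x n' • n - BD a x n • n' ∈ W := by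
        rw [hmem]
        constructor
        · rw [BD_sub_left, BD_sub_left, BD_smul_left, BD_smul_left, h1, h0']
          ring
        · rw [BD_sub_left, BD_sub_left, BD_smul_left, BD_smul_left, h0, h1']
          ring
      have h9 := h4 ⟨_, h8⟩
      simp only at h9
      rw [BD_sub_right, BD_sub_right, BD_smul_right, BD_smul_right, hvn, hvn'] at h9
      linear_combination h9
    exact v.ne_zero i (Subtype.ext h7)
  set f : ((Fin r → F) × F × F) → (Fin (r + 2) → F) := fun p =>
    (∑ i, p.1 i • (v i : Fin (r + 2) → F)) + p.2.1 • n + p.2.2 • n' with hf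
  have hvs : ∀ (y : Fin r → F) (x : Fin (r + 2) → F),
      BD a (∑ i, y i • (v i : Fin (r + 2) → F)) x = ∑ i, y i * BD a (v i : Fin (r + 2) → F) x := by
    intro y x
    rw [BD_comm, ← bilD_apply, map_sum]
    apply sum_congr rfl
    intro i _
    rw [map_smul, bilD_apply, BD_comm, smul_eq_mul]
  have hfB : ∀ y s t y' s' t', BD a (f (y, s, t)) (f (y', s', t')) =
      BD a' y y' + s * t' + t * s' := by
    intro y s t y' s' t'
    have e1 : ∀ (y : Fin r → F), BD a (∑ i, y i • (v i : Fin (r + 2) → F)) n = 0 := by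
      intro y
      rw [hvs]
      exact sum_eq_zero (fun i _ => by rw [hvn, mul_zero])
    have e2 : ∀ (y : Fin r → F), BD a (∑ i, y i • (v i : Fin (r + 2) → F)) n' = 0 := by
      intro y
      rw [hvs]
      exact sum_eq_zero (fun i _ => by rw [hvn', mul_zero])
    have e3 : ∀ (y y' : Fin r → F), BD a (∑ i, y i • (v i : Fin (r + 2) → F))
        (∑ i, y' i • (v i : Fin (r + 2) → F)) = BD a' y y' := by
      intro y y'
      rw [hvs]
      unfold BD
      apply sum_congr rfl
      intro i _
      rw [show (∑ i_1, a i_1 * (v i : Fin (r + 2) → F) i_1 *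
          (∑ i, y' i • (v i : Fin (r + 2) → F)) i_1) =
        BD a (v i : Fin (r + 2) → F) (∑ i, y' i • (v i : Fin (r + 2) → F)) from rfl, BD_comm, hvs]
      rw [sum_eq_single i]
      · rw [ha']
        ring
      · intro j _ hj
        rw [hvo j i hj, mul_zero]
      · intro h
        exact absurd (mem_univ _) h
    simp only [hf]
    simp only [BD_add_left, BD_add_right, BD_smul_left, BD_smul_right, e1, e2, e3]
    rw [BD_comm a n (∑ i, y' i • (v i : Fin (r + 2) → F)), e1,
      BD_comm a n' (∑ i, y' i • (v i : Fin (r + 2) → F)), e2, h0, h0', h1, h1']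
    ring
  have hinj : Function.Injective f := by
    rintro ⟨y, s, t⟩ ⟨y', s', t'⟩ h
    have k1 : ∀ z u w, BD a' y z + s * w + t * u = BD a' y' z + s' * w + t' * u := by
      intro z u w
      rw [← hfB, ← hfB, h]
    have k2 : t = t' := by
      have := k1 0 1 0
      simpa [BD_zero_right] using this
    have k3 : s = s' := by
      have := k1 0 0 1
      simpa [BD_zero_right] using this
    have k4 : y = y' := by
      have : y - y' = 0 := by
        apply BD_nondeg ha'0
        intro z
        rw [BD_sub_left]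
        have := k1 z 0 0
        simp only [mul_zero, add_zero] at this
        rw [this, sub_self]
      exact sub_eq_zero.1 this
    rw [k2, k3, k4]
  have hcard : Fintype.card ((Fin r → F) × F × F) = Fintype.card (Fin (r + 2) → F) := by
    rw [Fintype.card_prod, Fintype.card_prod, Fintype.card_fun, Fintype.card_fun,
      Fintype.card_fin, Fintype.card_fin]
    ring
  have hbij : Function.Bijective f := (Fintype.bijective_iff_injective_and_card f).2 ⟨hinj, hcard⟩
  refine ⟨a', Equiv.ofBijective f hbij, ha'0, hfB, ?_, ?_⟩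
  · simp only [Equiv.ofBijective_apply, hf]
    simp
  · intro y s t
    simp only [Equiv.ofBijective_apply, hf]
    rw [zero_smul]
    abel

end Run7.h191.Sph
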