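import Mathlib
import Pool.Agent.Run7.h191.Hyp

/-! The part of the sphere orthogonal to a null vector. -/

set_option autoImplicit false
set_option linter.unusedSectionVars false

namespace Run7.h191.Sph

open Finset

variable {F : Type*} [Field F] [Fintype F] [DecidableEq F]
variable {ι : Type*} [Fintype ι] [DecidableEq ι]

/-- the Fourier transform attached to the form -/
noncomputable def FT (ψ : AddChar F ℂ) (a : ι → F) (g : (ι → F) → ℂ) (x : ι → F) : ℂ :=
  ∑ m : ι → F, g m * ψ (BD a m x)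

/-- the quadratic mass of the Fourier transform on the sphere of radius `j` -/
noncomputable def NN (ψ : AddChar F ℂ) (a : ι → F) (j : F) (g : (ι → F) → ℂ) : ℝ :=
  ∑ x ∈ univ.filter (fun x : ι → F => QD a x = j), ‖FT ψ a g x‖ ^ 2

theorem NN_nonneg (ψ : AddChar F ℂ) (a : ι → F) (j : F) (g : (ι → F) → ℂ) :
    0 ≤ NN ψ a j g := sum_nonneg (fun _ _ => by positivity)

/-- the square of the `L²` norm -/
noncomputable def UU (g : (ι → F) → ℂ) : ℝ := ∑ m, ‖g m‖ ^ 2

/-- the `L¹` norm -/
noncomputable def WW (g : (ι → F) → ℂ) : ℝ := ∑ m, ‖g m‖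

theorem UU_nonneg (g : (ι → F) → ℂ) : 0 ≤ UU g := sum_nonneg (fun _ _ => by positivity)

theorem WW_nonneg (g : (ι → F) → ℂ) : 0 ≤ WW g := sum_nonneg (fun _ _ => by positivity)

theorem sum_rot {A B C : Type*} [Fintype A] [Fintype B] [Fintype C] (X : A → B → C → ℝ) :
    ∑ a, ∑ b, ∑ c, X a b c = ∑ c, ∑ a, ∑ b, X a b c := by
  calc ∑ a, ∑ b, ∑ c, X a b c = ∑ a, ∑ c, ∑ b, X a b c :=
        sum_congr rfl (fun _ _ => sum_comm)
    _ = _ := sum_comm

theorem slice (hF : ringChar F ≠ 2) {ψ : AddChar F ℂ} (hψ : ψ.IsPrimitive) {r : ℕ}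
    {a : Fin (r + 2) → F} (ha : ∀ i, a i ≠ 0) {n : Fin (r + 2) → F} (hn : n ≠ 0)
    (hQ : QD a n = 0) (j : F) (g : (Fin (r + 2) → F) → ℂ) :
    ∃ (a' : Fin r → F) (G : F → (Fin r → F) → ℂ), (∀ i, a' i ≠ 0) ∧
      ∑ x ∈ univ.filter (fun x : Fin (r + 2) → F => QD a x = j ∧ BD a n x = 0),
        ‖FT ψ a g x‖ ^ 2 = (Fintype.card F : ℝ) * ∑ t : F, NN ψ a' j (G t) ∧
      ∑ t, UU (G t) ≤ ∑ b, ∑ s : F, ‖g b‖ * ‖g (b + s • n)‖ ∧
      ∑ t, WW (G t) ^ 2 ≤ ∑ b, ∑ b', (if BD a n (b - b') = 0 then ‖g b‖ * ‖g b'‖ else 0) := by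
  classical
  obtain ⟨a', L, ha', hL, hL0, hLn⟩ := exists_hyp hF ha hn hQ
  refine ⟨a', fun t y => ∑ s : F, g (L (y, s, t)), ha', ?_, ?_, ?_⟩
  · -- the slice identity
    have h1 : ∀ z u w, BD a n (L (z, u, w)) = w := by
      intro z u w
      rw [← hL0, hL, BD_zero_left]
      ring
    have h2 : ∀ z u, QD a (L (z, u, 0)) = QD a' z := by
      intro z u
      rw [← BD_self, hL, BD_self]
      ring
    have h3 : ∀ z u, FT ψ a g (L (z, u, 0)) =
        ∑ t : F, FT ψ a' (fun y => ∑ s : F, g (L (y, s, t))) z * ψ (t * u) := by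
      intro z u
      unfold FT
      rw [← Equiv.sum_comp L, Fintype.sum_prod_type]
      simp_rw [Fintype.sum_prod_type, hL, mul_zero, add_zero]
      simp_rw [sum_mul]
      rw [sum_comm]
      rw [sum_comm]
      have h4 : ∀ y : Fin r → F, ∑ s : F, ∑ t : F, g (L (y, s, t)) * ψ (BD a' y z + t * u) =
          ∑ t : F, ∑ s : F, g (L (y, s, t)) * ψ (BD a' y z) * ψ (t * u) := by
        intro y
        rw [sum_comm]
        apply sum_congr rfl
        intro t _
        apply sum_congr rfl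
        intro s _
        rw [AddChar.map_add_eq_mul]
        ring
      simp_rw [h4]
      rw [sum_comm]
    rw [sum_filter, ← Equiv.sum_comp L, Fintype.sum_prod_type]
    simp_rw [Fintype.sum_prod_type, h1]
    have h5 : ∀ (z : Fin r → F) (u : F), ∑ w : F, (if QD a (L (z, u, w)) = j ∧ w = 0 then
        ‖FT ψ a g (L (z, u, w))‖ ^ 2 else 0) =
        if QD a' z = j then ‖FT ψ a g (L (z, u, 0))‖ ^ 2 else 0 := by
      intro z u
      rw [sum_eq_single 0]
      · simp [h2]
      · intro w _ hw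
        rw [if_neg]
        rintro ⟨-, h⟩
        exact hw h
      · intro h
        exact absurd (mem_univ _) h
    simp_rw [h5]
    have h6 : ∀ z : Fin r → F, ∑ u : F, (if QD a' z = j then ‖FT ψ a g (L (z, u, 0))‖ ^ 2
        else 0) = if QD a' z = j then (Fintype.card F : ℝ) *
          ∑ t : F, ‖FT ψ a' (fun y => ∑ s : F, g (L (y, s, t))) z‖ ^ 2 else 0 := by
      intro z
      split_ifs with hz
      · simp_rw [h3]
        exact parseval_one hψ (fun t : F => t) Function.injective_id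
          (fun t => FT ψ a' (fun y => ∑ s : F, g (L (y, s, t))) z)
      · simp
    simp_rw [h6]
    rw [← sum_filter, ← mul_sum]
    congr 1
    unfold NN
    rw [sum_comm]
  · -- the `L²` bound
    have h1 : ∀ (t : F) (y : Fin r → F), ‖∑ s : F, g (L (y, s, t))‖ ^ 2 ≤
        ∑ s : F, ‖g (L (y, s, t))‖ * ∑ s' : F, ‖g (L (y, s, t) + s' • n)‖ := by
      intro t y
      have h2 : ‖∑ s : F, g (L (y, s, t))‖ ≤ ∑ s : F, ‖g (L (y, s, t))‖ := norm_sum_le _ _
      refine (pow_le_pow_left₀ (norm_nonneg _) h2 2).trans (le_of_eq ?_)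
      rw [sq, sum_mul]
      apply sum_congr rfl
      intro s _
      congr 1
      rw [← Equiv.sum_comp (Equiv.addRight s)]
      apply sum_congr rfl
      intro s' _
      congr 2
      rw [hLn y s t, Equiv.coe_addRight, hLn y (s' + s) t, add_smul]
      abel
    have h2 : ∑ b, ∑ s : F, ‖g b‖ * ‖g (b + s • n)‖ =
        ∑ t : F, ∑ y : Fin r → F, ∑ s : F, ‖g (L (y, s, t))‖ *
          ∑ s' : F, ‖g (L (y, s, t) + s' • n)‖ := by
      simp_rw [← mul_sum]
      rw [← Equiv.sum_comp L, Fintype.sum_prod_type]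
      simp_rw [Fintype.sum_prod_type]
      exact sum_rot (fun y s t => ‖g (L (y, s, t))‖ * ∑ s' : F, ‖g (L (y, s, t) + s' • n)‖)
    rw [h2]
    unfold UU
    exact sum_le_sum (fun t _ => sum_le_sum (fun y _ => h1 t y))
  · -- the `L¹` bound
    have h1 : ∀ z u w, BD a n (L (z, u, w)) = w := by
      intro z u w
      rw [← hL0, hL, BD_zero_left]
      ring
    have h2 : ∀ t : F, WW (fun y : Fin r → F => ∑ s : F, g (L (y, s, t))) ≤
        ∑ b, (if BD a n b = t then ‖g b‖ else 0) := by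
      intro t
      rw [← Equiv.sum_comp L, Fintype.sum_prod_type]
      simp_rw [Fintype.sum_prod_type, h1]
      unfold WW
      apply sum_le_sum
      intro y _
      refine (norm_sum_le _ _).trans (le_of_eq ?_)
      apply sum_congr rfl
      intro s _
      rw [sum_ite_eq' univ t (fun t => ‖g (L (y, s, t))‖), if_pos (mem_univ _)]
    have h3 : ∑ t : F, (∑ b, (if BD a n b = t then ‖g b‖ else 0)) ^ 2 =
        ∑ b, ∑ b', (if BD a n (b - b') = 0 then ‖g b‖ * ‖g b'‖ else 0) := by
      simp_rw [sq, sum_mul_sum]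
      rw [sum_comm]
      apply sum_congr rfl
      intro b _
      rw [sum_comm]
      apply sum_congr rfl
      intro b' _
      rw [sum_eq_single (BD a n b)]
      · rw [if_pos rfl]
        by_cases h : BD a n b = BD a n b'
        · rw [if_pos h.symm, if_pos (by rw [BD_sub_right, h, sub_self])]
        · rw [if_neg (Ne.symm h), if_neg (by rw [BD_sub_right, sub_eq_zero]; exact h), mul_zero]
      · intro t _ ht
        rw [if_neg (Ne.symm ht), zero_mul]
      · intro h
        exact absurd (mem_univ _) h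
    rw [← h3]
    apply sum_le_sum
    intro t _
    exact pow_le_pow_left₀ (WW_nonneg _) (h2 t) 2

end Run7.h191.Sph
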