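import Mathlib
import Pool.Agent.Run7.h191.Slice

/-! Averaging over null vectors: from dimension `r` to dimension `r + 2`. -/

set_option autoImplicit false
set_option linter.unusedSectionVars false

namespace Run7.h191.Sph

open Finset

variable {F : Type*} [Field F] [Fintype F] [DecidableEq F]

section

variable {ι : Type*} [Fintype ι] [DecidableEq ι]

/-- the nonzero null vectors -/
def Nz (a : ι → F) : Finset (ι → F) := univ.filter (fun n : ι → F => n ≠ 0 ∧ QD a n = 0)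

theorem mem_Nz {a n : ι → F} : n ∈ Nz a ↔ n ≠ 0 ∧ QD a n = 0 := by simp [Nz]

/-- Cauchy-Schwarz for a family of geometric means -/
theorem cs_family {T : Type*} (S : Finset T) (c : ℝ) (hc : 0 ≤ c) (N α β : T → ℝ)
    (hN : ∀ i ∈ S, 0 ≤ N i) (hα : ∀ i ∈ S, 0 ≤ α i) (hβ : ∀ i ∈ S, 0 ≤ β i)
    (h : ∀ i ∈ S, N i ^ 2 ≤ c * α i * β i) :
    (∑ i ∈ S, N i) ^ 2 ≤ c * (∑ i ∈ S, α i) * ∑ i ∈ S, β i := by
  have h1 : ∑ i ∈ S, N i ≤ ∑ i ∈ S, Real.sqrt (c * α i) * Real.sqrt (β i) := by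
    apply sum_le_sum
    intro i hi
    rw [← Real.sqrt_mul (mul_nonneg hc (hα i hi))]
    exact Real.le_sqrt_of_sq_le (h i hi)
  have h2 := sum_mul_sq_le_sq_mul_sq S (fun i => Real.sqrt (c * α i)) (fun i => Real.sqrt (β i))
  have h3 : ∑ i ∈ S, Real.sqrt (c * α i) ^ 2 = c * ∑ i ∈ S, α i := by
    rw [mul_sum]
    exact sum_congr rfl (fun i hi => Real.sq_sqrt (mul_nonneg hc (hα i hi)))
  have h4 : ∑ i ∈ S, Real.sqrt (β i) ^ 2 = ∑ i ∈ S, β i :=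
    sum_congr rfl (fun i hi => Real.sq_sqrt (hβ i hi))
  rw [h3, h4] at h2
  exact (pow_le_pow_left₀ (sum_nonneg hN) h1 2).trans h2

/-- averaging over the null vectors orthogonal to a point of the sphere -/
theorem average (hF : ringChar F ≠ 2) {ψ : AddChar F ℂ} (hψ : ψ.IsPrimitive) {a : ι → F}
    (ha : ∀ i, a i ≠ 0) (hev : Even (Fintype.card ι)) {j : F} (hj : j ≠ 0) {Y : ℝ}
    (hY : (Fintype.card F : ℝ) ^ (Fintype.card ι) = (Fintype.card F : ℝ) ^ 2 * Y)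
    (f : (ι → F) → ℝ) :
    (Y - 1) * ∑ x ∈ univ.filter (fun x : ι → F => QD a x = j), f x =
      ∑ n ∈ Nz a, ∑ x ∈ univ.filter (fun x : ι → F => QD a x = j ∧ BD a n x = 0), f x := by
  have hq := card_pos_real (F := F)
  have h1 : ∀ n, ∑ x ∈ univ.filter (fun x : ι → F => QD a x = j ∧ BD a n x = 0), f x =
      ∑ x ∈ univ.filter (fun x : ι → F => QD a x = j), (if BD a n x = 0 then f x else 0) := by
    intro n
    rw [← sum_filter, filter_filter]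
  simp_rw [h1]
  rw [sum_comm, mul_sum]
  apply sum_congr rfl
  intro x hx
  have hx' : QD a x = j := (mem_filter.1 hx).2
  rw [← sum_filter, sum_const, nsmul_eq_mul]
  congr 1
  have h2 : (Nz a).filter (fun n => BD a n x = 0) = (nullPerp a x).erase 0 := by
    ext n
    simp only [mem_filter, mem_Nz, mem_erase, mem_nullPerp]
    rw [BD_comm a x n]
    tauto
  have h0 : (0 : ι → F) ∈ nullPerp a x := by
    rw [mem_nullPerp]
    exact ⟨QD_zero a, BD_zero_right a x⟩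
  rw [h2, card_erase_of_mem h0]
  have h3 := card_nullPerp_of_ne hF hψ ha hev (y := x) (by rw [hx']; exact hj)
  rw [hY] at h3
  have h4 : ((nullPerp a x).card : ℝ) = Y := mul_left_cancel₀ (by positivity) h3
  have h5 : 1 ≤ (nullPerp a x).card := by
    rw [Nat.one_le_iff_ne_zero, card_ne_zero]
    exact ⟨0, h0⟩
  rw [Nat.cast_sub h5, h4, Nat.cast_one]

theorem sum_filter_le_pairs {a : ι → F} (f : (ι → F) → ℝ) (hf : ∀ b, 0 ≤ f b) {s : F}
    (hs : s ≠ 0) :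
    ∑ n ∈ Nz a, ∑ b, f b * f (b + s • n) ≤
      ∑ b, ∑ b', (if QD a (b - b') = 0 then f b * f b' else 0) := by
  rw [sum_comm]
  apply sum_le_sum
  intro b _
  have h1 : ∑ n ∈ Nz a, f b * f (b + s • n) ≤
      ∑ n : ι → F, (if QD a n = 0 then f b * f (b + s • n) else 0) := by
    rw [← sum_filter]
    apply sum_le_sum_of_subset_of_nonneg
    · intro n hn
      exact mem_filter.2 ⟨mem_univ _, (mem_Nz.1 hn).2⟩
    · intro n _ _
      exact mul_nonneg (hf _) (hf _)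
  refine h1.trans (le_of_eq ?_)
  have h2 := Equiv.sum_comp ((MulAction.toPerm (Units.mk0 s hs)).trans (Equiv.addLeft b))
    (fun b' : ι → F => (if QD a (b - b') = 0 then f b * f b' else 0))
  rw [← h2]
  apply sum_congr rfl
  intro n _
  have h3 : ((MulAction.toPerm (Units.mk0 s hs)).trans (Equiv.addLeft b)) n = b + s • n := rfl
  rw [h3]
  have h4 : QD a (b - (b + s • n)) = s ^ 2 * QD a n := by
    rw [show b - (b + s • n) = (-s) • n by rw [neg_smul]; abel, QD_smul]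
    ring
  by_cases h5 : QD a n = 0
  · rw [if_pos h5, if_pos (by rw [h4, h5, mul_zero])]
  · rw [if_neg h5, if_neg (by rw [h4]; exact mul_ne_zero (pow_ne_zero 2 hs) h5)]

end

/-- the numerical data in dimension `2 k + 4` -/
theorem numerics {k : ℕ} {a : Fin (2 * k + 2 + 2) → F} {ψ : AddChar F ℂ} {γ : ℂ}
    (hγ : IsG a ψ γ) : ‖γ‖ = (Fintype.card F : ℝ) ^ k * (Fintype.card F : ℝ) ^ 2 := by
  have hq := card_pos_real (F := F)
  have h1 := hγ.1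
  rw [Fintype.card_fin] at h1
  have h2 : (Fintype.card F : ℝ) ^ (2 * k + 2 + 2) =
      ((Fintype.card F : ℝ) ^ k * (Fintype.card F : ℝ) ^ 2) ^ 2 := by ring
  rw [h2] at h1
  exact (pow_left_inj₀ (norm_nonneg _) (by positivity) two_ne_zero).1 h1

theorem card_Nz_le (hF : ringChar F ≠ 2) {ψ : AddChar F ℂ} (hψ : ψ.IsPrimitive) {k : ℕ}
    {a : Fin (2 * k + 2 + 2) → F} (ha : ∀ i, a i ≠ 0) :
    ((Nz a).card : ℝ) ≤ 2 * ((Fintype.card F : ℝ) ^ k) ^ 2 * (Fintype.card F : ℝ) ^ 3 := by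
  have hq := card_pos_real (F := F)
  have hq1 := one_le_card_real (F := F)
  obtain ⟨γ, hγ⟩ := exists_isG hF hψ ha (by
    rw [Fintype.card_fin]
    exact ⟨k + 2, by ring⟩)
  have h1 := card_null_le hF hψ ha hγ
  rw [numerics hγ, Fintype.card_fin] at h1
  have h2 : ((Nz a).card : ℝ) ≤
      ((univ.filter (fun z : Fin (2 * k + 2 + 2) → F => QD a z = 0)).card : ℝ) := by
    have : (Nz a).card ≤
        (univ.filter (fun z : Fin (2 * k + 2 + 2) → F => QD a z = 0)).card := by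
      apply card_le_card
      intro n hn
      exact mem_filter.2 ⟨mem_univ _, (mem_Nz.1 hn).2⟩
    exact_mod_cast this
  refine h2.trans ?_
  set q : ℝ := (Fintype.card F : ℝ) with hqd
  set X : ℝ := q ^ k with hX
  have hX1 : 1 ≤ X := one_le_pow₀ hq1
  have h3 : q ^ (2 * k + 2 + 2) = q * (X ^ 2 * q ^ 3) := by
    rw [hX]
    ring
  rw [h3] at h1
  have h4 : q * ((univ.filter (fun z : Fin (2 * k + 2 + 2) → F => QD a z = 0)).card : ℝ) ≤
      q * (X ^ 2 * q ^ 3 + X * q ^ 2) := by linarith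
  have h5 := le_of_mul_le_mul_left h4 hq
  have h6 : X * q ^ 2 ≤ X ^ 2 * q ^ 3 := by
    have : X * q ^ 2 * 1 ≤ X * q ^ 2 * (X * q) := by
      apply mul_le_mul_of_nonneg_left _ (by positivity)
      nlinarith
    linarith
  linarith

theorem card_nullPerp_le' (hF : ringChar F ≠ 2) {ψ : AddChar F ℂ} (hψ : ψ.IsPrimitive) {k : ℕ}
    {a : Fin (2 * k + 2 + 2) → F} (ha : ∀ i, a i ≠ 0) {v : Fin (2 * k + 2 + 2) → F}
    (hv : v ≠ 0) :
    ((nullPerp a v).card : ℝ) ≤ 2 * ((Fintype.card F : ℝ) ^ k) ^ 2 * (Fintype.card F : ℝ) ^ 2 := by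
  have hq := card_pos_real (F := F)
  have hq1 := one_le_card_real (F := F)
  obtain ⟨γ, hγ⟩ := exists_isG hF hψ ha (by
    rw [Fintype.card_fin]
    exact ⟨k + 2, by ring⟩)
  have h1 := card_nullPerp_le hF hψ ha hγ hv
  rw [numerics hγ, Fintype.card_fin] at h1
  set q : ℝ := (Fintype.card F : ℝ) with hqd
  set X : ℝ := q ^ k with hX
  have hX1 : 1 ≤ X := one_le_pow₀ hq1
  have h3 : q ^ (2 * k + 2 + 2) = q ^ 2 * (X ^ 2 * q ^ 2) := by
    rw [hX]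
    ring
  rw [h3] at h1
  have h4 : q ^ 2 * ((nullPerp a v).card : ℝ) ≤ q ^ 2 * (X ^ 2 * q ^ 2 + X * q ^ 2) := by
    linarith
  have h5 := le_of_mul_le_mul_left h4 (by positivity)
  have h6 : X * q ^ 2 ≤ X ^ 2 * q ^ 2 := by
    apply mul_le_mul_of_nonneg_right _ (by positivity)
    nlinarith
  linarith

/-- the total `L²` mass of the slices -/
theorem sumA2 (hF : ringChar F ≠ 2) {ψ : AddChar F ℂ} (hψ : ψ.IsPrimitive) {k : ℕ}
    {a : Fin (2 * k + 2 + 2) → F} (ha : ∀ i, a i ≠ 0) (g : (Fin (2 * k + 2 + 2) → F) → ℂ) :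
    ∑ n ∈ Nz a, ∑ b, ∑ s : F, ‖g b‖ * ‖g (b + s • n)‖ ≤
      3 * ((Fintype.card F : ℝ) ^ k) ^ 2 * (Fintype.card F : ℝ) ^ 3 * UU g + WW g ^ 2 := by
  have hq := card_pos_real (F := F)
  have hq1 := one_le_card_real (F := F)
  obtain ⟨γ, hγ⟩ := exists_isG hF hψ ha (by
    rw [Fintype.card_fin]
    exact ⟨k + 2, by ring⟩)
  have hZ := card_Nz_le hF hψ ha
  have hU := UU_nonneg g
  have h1 : ∑ n ∈ Nz a, ∑ b, ∑ s : F, ‖g b‖ * ‖g (b + s • n)‖ =
      ∑ s : F, ∑ n ∈ Nz a, ∑ b, ‖g b‖ * ‖g (b + s • n)‖ := by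
    calc _ = ∑ n ∈ Nz a, ∑ s : F, ∑ b, ‖g b‖ * ‖g (b + s • n)‖ :=
          sum_congr rfl (fun _ _ => sum_comm)
      _ = _ := sum_comm
  rw [h1, ← add_sum_erase univ _ (mem_univ (0 : F))]
  have h2 : ∑ n ∈ Nz a, ∑ b, ‖g b‖ * ‖g (b + (0 : F) • n)‖ = ((Nz a).card : ℝ) * UU g := by
    simp only [zero_smul, add_zero]
    rw [sum_const, nsmul_eq_mul]
    congr 1
    unfold UU
    exact sum_congr rfl (fun b _ => by ring)
  have h3 := null_pairs hF hψ ha hγ (fun b => ‖g b‖)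
  set NP := ∑ b : Fin (2 * k + 2 + 2) → F, ∑ b' : Fin (2 * k + 2 + 2) → F,
      (if QD a (b - b') = 0 then ‖g b‖ * ‖g b'‖ else 0) with hNP
  have hNP0 : 0 ≤ NP := by
    apply sum_nonneg
    intro b _
    apply sum_nonneg
    intro b' _
    split_ifs
    · positivity
    · exact le_rfl
  have h4 : ∑ s ∈ univ.erase (0 : F), ∑ n ∈ Nz a, ∑ b, ‖g b‖ * ‖g (b + s • n)‖ ≤
      (Fintype.card F : ℝ) * NP := by
    refine (sum_le_sum (fun s hs => sum_filter_le_pairs (fun b => ‖g b‖)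
      (fun _ => norm_nonneg _) (mem_erase.1 hs).1)).trans ?_
    rw [sum_const, nsmul_eq_mul]
    apply mul_le_mul_of_nonneg_right _ hNP0
    have : (univ.erase (0 : F)).card ≤ Fintype.card F := card_le_univ _
    exact_mod_cast this
  rw [numerics hγ] at h3
  rw [h2]
  have h5 : (Fintype.card F : ℝ) * NP ≤ WW g ^ 2 + (Fintype.card F : ℝ) *
      ((Fintype.card F : ℝ) ^ k * (Fintype.card F : ℝ) ^ 2) * UU g := h3
  set q : ℝ := (Fintype.card F : ℝ) with hqd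
  set X : ℝ := q ^ k with hX
  have hX1 : 1 ≤ X := one_le_pow₀ hq1
  have h6 : ((Nz a).card : ℝ) * UU g ≤ 2 * X ^ 2 * q ^ 3 * UU g :=
    mul_le_mul_of_nonneg_right hZ hU
  have h7 : q * (X * q ^ 2) * UU g ≤ X ^ 2 * q ^ 3 * UU g := by
    apply mul_le_mul_of_nonneg_right _ hU
    have : X * q ^ 3 ≤ X ^ 2 * q ^ 3 := by
      apply mul_le_mul_of_nonneg_right _ (by positivity)
      nlinarith
    linarith
  linarith

/-- the total `L¹` mass of the slices -/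
theorem sumA1 (hF : ringChar F ≠ 2) {ψ : AddChar F ℂ} (hψ : ψ.IsPrimitive) {k : ℕ}
    {a : Fin (2 * k + 2 + 2) → F} (ha : ∀ i, a i ≠ 0) (g : (Fin (2 * k + 2 + 2) → F) → ℂ) :
    ∑ n ∈ Nz a, ∑ b, ∑ b', (if BD a n (b - b') = 0 then ‖g b‖ * ‖g b'‖ else 0) ≤
      2 * ((Fintype.card F : ℝ) ^ k) ^ 2 * (Fintype.card F : ℝ) ^ 3 * UU g +
      2 * ((Fintype.card F : ℝ) ^ k) ^ 2 * (Fintype.card F : ℝ) ^ 2 * WW g ^ 2 := by
  have hq := card_pos_real (F := F)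
  have hZ := card_Nz_le hF hψ ha
  have h1 : ∑ n ∈ Nz a, ∑ b, ∑ b', (if BD a n (b - b') = 0 then ‖g b‖ * ‖g b'‖ else 0) =
      ∑ b, ∑ b', ‖g b‖ * ‖g b'‖ * (((Nz a).filter (fun n => BD a n (b - b') = 0)).card : ℝ) := by
    rw [sum_comm]
    apply sum_congr rfl
    intro b _
    rw [sum_comm]
    apply sum_congr rfl
    intro b' _
    rw [← sum_filter, sum_const, nsmul_eq_mul]
    ring
  rw [h1]
  have h2 : ∀ b b', ‖g b‖ * ‖g b'‖ *
      (((Nz a).filter (fun n => BD a n (b - b') = 0)).card : ℝ) ≤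
      (if b = b' then 2 * ((Fintype.card F : ℝ) ^ k) ^ 2 * (Fintype.card F : ℝ) ^ 3 *
        (‖g b‖ ^ 2) else 0) +
      2 * ((Fintype.card F : ℝ) ^ k) ^ 2 * (Fintype.card F : ℝ) ^ 2 * (‖g b‖ * ‖g b'‖) := by
    intro b b'
    by_cases h : b = b'
    · rw [if_pos h, ← h]
      have h3 : (((Nz a).filter (fun n => BD a n (b - b) = 0)).card : ℝ) ≤
          2 * ((Fintype.card F : ℝ) ^ k) ^ 2 * (Fintype.card F : ℝ) ^ 3 := by
        refine le_trans ?_ hZ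
        have := card_filter_le (Nz a) (fun n => BD a n (b - b) = 0)
        exact_mod_cast this
      have h4 : ‖g b‖ * ‖g b‖ * (((Nz a).filter (fun n => BD a n (b - b) = 0)).card : ℝ) ≤
          ‖g b‖ * ‖g b‖ * (2 * ((Fintype.card F : ℝ) ^ k) ^ 2 * (Fintype.card F : ℝ) ^ 3) :=
        mul_le_mul_of_nonneg_left h3 (by positivity)
      have h5 : 0 ≤ 2 * ((Fintype.card F : ℝ) ^ k) ^ 2 * (Fintype.card F : ℝ) ^ 2 *
        (‖g b‖ * ‖g b‖) := by positivity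
      linarith
    · rw [if_neg h, zero_add]
      have h3 : (((Nz a).filter (fun n => BD a n (b - b') = 0)).card : ℝ) ≤
          2 * ((Fintype.card F : ℝ) ^ k) ^ 2 * (Fintype.card F : ℝ) ^ 2 := by
        refine le_trans ?_ (card_nullPerp_le' hF hψ ha (sub_ne_zero.2 h))
        have : ((Nz a).filter (fun n => BD a n (b - b') = 0)).card ≤
            (nullPerp a (b - b')).card := by
          apply card_le_card
          intro n hn
          rw [mem_filter, mem_Nz] at hn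
          rw [mem_nullPerp, BD_comm]
          exact ⟨hn.1.2, hn.2⟩
        exact_mod_cast this
      have h4 := mul_le_mul_of_nonneg_left h3
        (mul_nonneg (norm_nonneg (g b)) (norm_nonneg (g b')))
      linarith
  refine (sum_le_sum (fun b _ => sum_le_sum (fun b' _ => h2 b b'))).trans (le_of_eq ?_)
  simp_rw [sum_add_distrib]
  congr 1
  · unfold UU
    rw [mul_sum]
    apply sum_congr rfl
    intro b _
    rw [sum_ite_eq, if_pos (mem_univ _)]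
  · unfold WW
    rw [sq (∑ m, ‖g m‖), sum_mul_sum, mul_sum]
    apply sum_congr rfl
    intro b _
    rw [mul_sum]

theorem num_e1 {X q U W2 A1 A2 : ℝ} (hX1 : 1 ≤ X) (hq1 : 1 ≤ q) (hU : 0 ≤ U) (hW20 : 0 ≤ W2)
    (hA2' : A2 ≤ 3 * X ^ 2 * q ^ 3 * U + W2)
    (hA1' : A1 ≤ 2 * X ^ 2 * q ^ 3 * U + 2 * X ^ 2 * q ^ 2 * W2) :
    X * A2 + A1 ≤ 5 * (X ^ 2 * q ^ 2) * (X * q * U + W2) := by
  have f1 : X * A2 ≤ X * (3 * X ^ 2 * q ^ 3 * U + W2) :=
    mul_le_mul_of_nonneg_left hA2' (by positivity)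
  have f2 : 2 * X ^ 2 * q ^ 3 * U ≤ 2 * X ^ 3 * q ^ 3 * U := by
    apply mul_le_mul_of_nonneg_right _ hU
    apply mul_le_mul_of_nonneg_right _ (by positivity)
    have : X ^ 2 ≤ X ^ 3 := pow_le_pow_right₀ hX1 (by norm_num)
    linarith
  have f3 : X * W2 ≤ X ^ 2 * q ^ 2 * W2 := by
    apply mul_le_mul_of_nonneg_right _ hW20
    have g1 : X ^ 1 ≤ X ^ 2 := pow_le_pow_right₀ hX1 (by norm_num)
    have g2 : 1 ≤ q ^ 2 := one_le_pow₀ hq1
    have g3 := mul_le_mul g1 g2 (by positivity) (by positivity)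
    linarith
  have f4 : 0 ≤ X ^ 2 * q ^ 2 * W2 := by positivity
  have f5 : X * (3 * X ^ 2 * q ^ 3 * U + W2) = 3 * X ^ 3 * q ^ 3 * U + X * W2 := by ring
  have f6 : 5 * (X ^ 2 * q ^ 2) * (X * q * U + W2) = 5 * X ^ 3 * q ^ 3 * U +
    5 * (X ^ 2 * q ^ 2 * W2) := by ring
  rw [f6]
  rw [f5] at f1
  linarith

theorem num_e2 {X q U W2 A1 A2 : ℝ} (hX1 : 1 ≤ X) (hq1 : 1 ≤ q) (hU : 0 ≤ U) (hW20 : 0 ≤ W2)
    (hA2' : A2 ≤ 3 * X ^ 2 * q ^ 3 * U + W2)
    (hA1' : A1 ≤ 2 * X ^ 2 * q ^ 3 * U + 2 * X ^ 2 * q ^ 2 * W2) :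
    X * q ^ 2 * A2 + A1 ≤ 5 * (X ^ 2 * q ^ 2) * (X * q * q ^ 2 * U + W2) := by
  have f1 : X * q ^ 2 * A2 ≤ X * q ^ 2 * (3 * X ^ 2 * q ^ 3 * U + W2) :=
    mul_le_mul_of_nonneg_left hA2' (by positivity)
  have f2 : 2 * X ^ 2 * q ^ 3 * U ≤ 2 * X ^ 3 * q ^ 5 * U := by
    apply mul_le_mul_of_nonneg_right _ hU
    have g1 : X ^ 2 ≤ X ^ 3 := pow_le_pow_right₀ hX1 (by norm_num)
    have g2 : q ^ 3 ≤ q ^ 5 := pow_le_pow_right₀ hq1 (by norm_num)
    have g3 := mul_le_mul g1 g2 (by positivity) (by positivity)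
    linarith
  have f3 : X * q ^ 2 * W2 ≤ X ^ 2 * q ^ 2 * W2 := by
    apply mul_le_mul_of_nonneg_right _ hW20
    apply mul_le_mul_of_nonneg_right _ (by positivity)
    have g1 : X ^ 1 ≤ X ^ 2 := pow_le_pow_right₀ hX1 (by norm_num)
    linarith
  have f4 : 0 ≤ X ^ 2 * q ^ 2 * W2 := by positivity
  have f5 : X * q ^ 2 * (3 * X ^ 2 * q ^ 3 * U + W2) =
    3 * X ^ 3 * q ^ 5 * U + X * q ^ 2 * W2 := by ring
  have f6 : 5 * (X ^ 2 * q ^ 2) * (X * q * q ^ 2 * U + W2) = 5 * X ^ 3 * q ^ 5 * U +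
    5 * (X ^ 2 * q ^ 2 * W2) := by ring
  rw [f6]
  rw [f5] at f1
  linarith

theorem num_e6 {C X q U W2 A1 A2 N S : ℝ} (hC : 0 ≤ C) (hX1 : 1 ≤ X) (hq2 : 2 ≤ q)
    (hU : 0 ≤ U) (hW20 : 0 ≤ W2) (hA20 : 0 ≤ A2) (hA10 : 0 ≤ A1) (hN0 : 0 ≤ N)
    (hSq : ((X ^ 2 * q ^ 2 - 1) * N) ^ 2 = q ^ 2 * S ^ 2)
    (hcs : S ^ 2 ≤ (C * X ^ 2) * (X * A2 + A1) * (X * q ^ 2 * A2 + A1))
    (e1 : X * A2 + A1 ≤ 5 * (X ^ 2 * q ^ 2) * (X * q * U + W2))
    (e2 : X * q ^ 2 * A2 + A1 ≤ 5 * (X ^ 2 * q ^ 2) * (X * q * q ^ 2 * U + W2)) :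
    N ^ 2 ≤ (100 * C * (X * q) ^ 2) * (X * q * U + W2) * (X * q * q ^ 2 * U + W2) := by
  have hX0 : 0 < X := by linarith
  have hq0 : 0 < q := by linarith
  have e3 : (X ^ 2 * q ^ 2 / 2 * N) ^ 2 ≤ ((X ^ 2 * q ^ 2 - 1) * N) ^ 2 := by
    apply pow_le_pow_left₀ (by positivity)
    apply mul_le_mul_of_nonneg_right _ hN0
    have g1 : 1 ≤ X ^ 2 := one_le_pow₀ hX1
    have g2 : 2 ≤ q ^ 2 := by nlinarith
    have g3 := mul_le_mul g1 g2 (by norm_num) (by positivity)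
    linarith
  have e4 : S ^ 2 ≤ (C * X ^ 2) * (5 * (X ^ 2 * q ^ 2) * (X * q * U + W2)) *
      (5 * (X ^ 2 * q ^ 2) * (X * q * q ^ 2 * U + W2)) := by
    refine hcs.trans ?_
    apply mul_le_mul
    · exact mul_le_mul_of_nonneg_left e1 (by positivity)
    · exact e2
    · positivity
    · positivity
  have e5 : (X ^ 2 * q ^ 2) ^ 2 * N ^ 2 ≤ (X ^ 2 * q ^ 2) ^ 2 *
      ((100 * C * (X * q) ^ 2) * (X * q * U + W2) * (X * q * q ^ 2 * U + W2)) := by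
    have g1 : (X ^ 2 * q ^ 2) ^ 2 * N ^ 2 = 4 * (X ^ 2 * q ^ 2 / 2 * N) ^ 2 := by ring
    rw [g1]
    calc 4 * (X ^ 2 * q ^ 2 / 2 * N) ^ 2 ≤ 4 * (q ^ 2 * S ^ 2) := by
          rw [← hSq]
          linarith
      _ ≤ 4 * (q ^ 2 * ((C * X ^ 2) * (5 * (X ^ 2 * q ^ 2) * (X * q * U + W2)) *
          (5 * (X ^ 2 * q ^ 2) * (X * q * q ^ 2 * U + W2)))) := by
          apply mul_le_mul_of_nonneg_left _ (by norm_num)
          exact mul_le_mul_of_nonneg_left e4 (by positivity)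
      _ = _ := by ring
  exact le_of_mul_le_mul_left e5 (by positivity)

/-- the inductive hypothesis -/
def HH (F : Type*) [Field F] [Fintype F] [DecidableEq F] (r k : ℕ) (C : ℝ) : Prop :=
  ∀ (ψ : AddChar F ℂ), ψ.IsPrimitive → ∀ a : Fin r → F, (∀ i, a i ≠ 0) → ∀ j : F, j ≠ 0 →
    ∀ g : (Fin r → F) → ℂ, NN ψ a j g ^ 2 ≤ (C * ((Fintype.card F : ℝ) ^ k) ^ 2) *
      ((Fintype.card F : ℝ) ^ k * UU g + WW g ^ 2) *
      ((Fintype.card F : ℝ) ^ k * (Fintype.card F : ℝ) ^ 2 * UU g + WW g ^ 2)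

theorem step (hF : ringChar F ≠ 2) {k : ℕ} {C : ℝ} (hC : 0 ≤ C) (H : HH F (2 * k + 2) k C) :
    HH F (2 * k + 2 + 2) (k + 1) (100 * C) := by
  intro ψ hψ a ha j hj g
  have hq := card_pos_real (F := F)
  have hq1 := one_le_card_real (F := F)
  have hq2 : (2 : ℝ) ≤ Fintype.card F := by
    have : 2 ≤ Fintype.card F := Fintype.one_lt_card
    exact_mod_cast this
  have hsl : ∀ n ∈ Nz a, _ := fun n hn =>
    slice hF hψ ha (mem_Nz.1 hn).1 (mem_Nz.1 hn).2 j g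
  choose! a' G ha' hs hs2 hs1 using hsl
  have hU := UU_nonneg g
  have hW := WW_nonneg g
  set q : ℝ := (Fintype.card F : ℝ) with hqd
  set X : ℝ := q ^ k with hX
  have hX1 : 1 ≤ X := one_le_pow₀ hq1
  have hav := average hF hψ ha (by
    rw [Fintype.card_fin]
    exact ⟨k + 2, by ring⟩) hj (Y := X ^ 2 * q ^ 2) (by
    rw [Fintype.card_fin, hX]
    ring) (fun x => ‖FT ψ a g x‖ ^ 2)
  change (X ^ 2 * q ^ 2 - 1) * NN ψ a j g = _ at hav
  rw [sum_congr rfl hs, ← mul_sum] at hav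
  -- the total over all slices
  have hcs := cs_family (Nz a ×ˢ (univ : Finset F)) (C * X ^ 2) (by positivity)
    (fun p => NN ψ (a' p.1) j (G p.1 p.2))
    (fun p => X * UU (G p.1 p.2) + WW (G p.1 p.2) ^ 2)
    (fun p => X * q ^ 2 * UU (G p.1 p.2) + WW (G p.1 p.2) ^ 2)
    (fun p _ => NN_nonneg _ _ _ _)
    (fun p _ => by
      have := UU_nonneg (G p.1 p.2)
      positivity)
    (fun p _ => by
      have := UU_nonneg (G p.1 p.2)
      positivity)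
    (fun p hp => H ψ hψ (a' p.1) (ha' p.1 (mem_product.1 hp).1) j hj (G p.1 p.2))
  rw [sum_product, sum_product, sum_product] at hcs
  simp only [sum_add_distrib, ← mul_sum] at hcs
  set N := NN ψ a j g with hN
  set S := ∑ n ∈ Nz a, ∑ t : F, NN ψ (a' n) j (G n t) with hS
  set A2 := ∑ n ∈ Nz a, ∑ t : F, UU (G n t) with hA2
  set A1 := ∑ n ∈ Nz a, ∑ t : F, WW (G n t) ^ 2 with hA1
  have hA2' : A2 ≤ 3 * X ^ 2 * q ^ 3 * UU g + WW g ^ 2 :=
    (sum_le_sum hs2).trans (sumA2 hF hψ ha g)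
  have hA1' : A1 ≤ 2 * X ^ 2 * q ^ 3 * UU g + 2 * X ^ 2 * q ^ 2 * WW g ^ 2 :=
    (sum_le_sum hs1).trans (sumA1 hF hψ ha g)
  have hA20 : 0 ≤ A2 := sum_nonneg (fun n _ => sum_nonneg (fun t _ => UU_nonneg _))
  have hA10 : 0 ≤ A1 := sum_nonneg (fun n _ => sum_nonneg (fun t _ => by positivity))
  set U := UU g with hUd
  set W2 := WW g ^ 2 with hW2d
  have hW20 : 0 ≤ W2 := by positivity
  have e1 := num_e1 hX1 hq1 hU hW20 hA2' hA1'
  have e2 := num_e2 hX1 hq1 hU hW20 hA2' hA1'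
  have hSq : ((X ^ 2 * q ^ 2 - 1) * N) ^ 2 = q ^ 2 * S ^ 2 := by
    rw [hav]
    ring
  have hN0 : 0 ≤ N := NN_nonneg _ _ _ _
  have e6 := num_e6 hC hX1 hq2 hU hW20 hA20 hA10 hN0 hSq hcs e1 e2
  rw [pow_succ q k, ← hX]
  exact e6

end Run7.h191.Sph
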