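import Mathlib
import Pool.Agent.Run7.h191.Step

/-! The two dimensional estimate, and the induction. -/

set_option autoImplicit false
set_option linter.unusedSectionVars false

namespace Run7.h191.Sph

open Finset

variable {F : Type*} [Field F] [Fintype F] [DecidableEq F]

theorem base (hF : ringChar F ≠ 2) : HH F 2 0 3 := by
  intro ψ hψ a ha j hj g
  have hq := card_pos_real (F := F)
  set T := NN ψ a j g with hT
  have hT0 : 0 ≤ T := NN_nonneg _ _ _ _
  set A' : (Fin 2 → F) → ℂ := fun ξ => if QD a ξ = j then FT ψ a g ξ else 0 with hA'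
  set A : (Fin 2 → F) → ℂ := fun m => ∑ ξ, A' ξ * ψ (-BD a m ξ) with hA
  have h1 : (T : ℂ) = ∑ m, (starRingEnd ℂ) (g m) * A m := by
    have h2 : (T : ℂ) = ∑ ξ, A' ξ * (starRingEnd ℂ) (FT ψ a g ξ) := by
      rw [hT, NN, sum_filter]
      push_cast
      apply sum_congr rfl
      intro ξ _
      simp only [hA']
      split_ifs
      · push_cast
        rw [Complex.mul_conj']
      · simp
    rw [h2]
    simp only [FT, map_sum, map_mul, mul_sum, hA]
    rw [sum_comm]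
    apply sum_congr rfl
    intro m _
    apply sum_congr rfl
    intro ξ _
    rw [conj_psi]
    ring
  have h2 : T ≤ ∑ m, ‖g m‖ * ‖A m‖ := by
    have h3 : ‖(T : ℂ)‖ = T := by
      rw [Complex.norm_real, Real.norm_eq_abs, abs_of_nonneg hT0]
    rw [← h3, h1]
    refine (norm_sum_le _ _).trans (le_of_eq ?_)
    apply sum_congr rfl
    intro m _
    rw [norm_mul, RCLike.norm_conj]
  set R := ∑ m, ‖g m‖ * ‖A m‖ ^ 2 with hR
  have hR0 : 0 ≤ R := sum_nonneg (fun _ _ => by positivity)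
  have h3 : (∑ m, ‖g m‖ * ‖A m‖) ^ 2 ≤ WW g * R := by
    have h4 := sum_mul_sq_le_sq_mul_sq univ (fun m => Real.sqrt ‖g m‖)
      (fun m => Real.sqrt ‖g m‖ * ‖A m‖)
    have h5 : ∀ m, Real.sqrt ‖g m‖ * (Real.sqrt ‖g m‖ * ‖A m‖) = ‖g m‖ * ‖A m‖ := by
      intro m
      rw [← mul_assoc, Real.mul_self_sqrt (norm_nonneg _)]
    have h6 : ∀ m, Real.sqrt ‖g m‖ ^ 2 = ‖g m‖ := fun m => Real.sq_sqrt (norm_nonneg _)
    have h7 : ∀ m, (Real.sqrt ‖g m‖ * ‖A m‖) ^ 2 = ‖g m‖ * ‖A m‖ ^ 2 := by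
      intro m
      rw [mul_pow, h6]
    simp_rw [h5, h6, h7] at h4
    exact h4
  have h4 : R ^ 2 ≤ UU g * ∑ m, ‖A m‖ ^ 4 := by
    have h5 := sum_mul_sq_le_sq_mul_sq univ (fun m => ‖g m‖) (fun m => ‖A m‖ ^ 2)
    have h6 : ∀ m, (‖A m‖ ^ 2) ^ 2 = ‖A m‖ ^ 4 := by
      intro m
      ring
    simp_rw [h6] at h5
    exact h5
  have h5 : ∑ m, ‖A m‖ ^ 4 ≤ 3 * (Fintype.card F : ℝ) ^ 2 * T ^ 2 := by
    have h6 := conic_energy hF hψ (ha 0) (ha 1) hj A' (by
      intro ξ hξ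
      simp only [hA']
      rw [if_neg]
      unfold QD
      rw [Fin.sum_univ_two]
      exact hξ)
    have h7 : ∑ ξ, ‖A' ξ‖ ^ 2 = T := by
      rw [hT, NN, sum_filter]
      apply sum_congr rfl
      intro ξ _
      simp only [hA']
      split_ifs
      · rfl
      · simp
    rw [h7] at h6
    refine le_trans (le_of_eq ?_) h6
    have h8 := Equiv.sum_comp (Equiv.piCongrRight
      (fun i : Fin 2 => Equiv.mulLeft₀ (-a i) (neg_ne_zero.2 (ha i))))
      (fun x : Fin 2 → F => ‖∑ ξ, A' ξ * ψ (∑ i, ξ i * x i)‖ ^ 4)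
    rw [← h8]
    apply sum_congr rfl
    intro m _
    simp only [hA]
    congr 2
    apply sum_congr rfl
    intro ξ _
    congr 2
    unfold BD
    rw [← sum_neg_distrib]
    apply sum_congr rfl
    intro i _
    have h9 : (Equiv.piCongrRight
      (fun i : Fin 2 => Equiv.mulLeft₀ (-a i) (neg_ne_zero.2 (ha i)))) m i = -a i * m i := rfl
    rw [h9]
    ring
  have hU := UU_nonneg g
  have hW := WW_nonneg g
  have h6 : T ^ 2 ≤ WW g * R := (pow_le_pow_left₀ hT0 h2 2).trans h3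
  have h7 : R ^ 2 ≤ UU g * (3 * (Fintype.card F : ℝ) ^ 2 * T ^ 2) :=
    h4.trans (mul_le_mul_of_nonneg_left h5 hU)
  have h8 : (T ^ 2) ^ 2 ≤ WW g ^ 2 * (UU g * (3 * (Fintype.card F : ℝ) ^ 2 * T ^ 2)) := by
    calc (T ^ 2) ^ 2 ≤ (WW g * R) ^ 2 := pow_le_pow_left₀ (by positivity) h6 2
      _ = WW g ^ 2 * R ^ 2 := by ring
      _ ≤ _ := mul_le_mul_of_nonneg_left h7 (by positivity)
  have h9 : T ^ 2 ≤ 3 * (Fintype.card F : ℝ) ^ 2 * UU g * WW g ^ 2 := by
    by_cases hT1 : T = 0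
    · rw [hT1]
      have : 0 ≤ 3 * (Fintype.card F : ℝ) ^ 2 * UU g * WW g ^ 2 := by positivity
      simpa using this
    · have hT2 : 0 < T ^ 2 := by positivity
      apply le_of_mul_le_mul_right _ hT2
      calc T ^ 2 * T ^ 2 = (T ^ 2) ^ 2 := by ring
        _ ≤ _ := h8
        _ = _ := by ring
  refine h9.trans ?_
  rw [pow_zero, one_mul]
  have h10 : 0 ≤ UU g * (Fintype.card F : ℝ) ^ 2 * UU g := by positivity
  have h11 : 0 ≤ UU g * WW g ^ 2 := by positivity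
  have h12 : 0 ≤ WW g ^ 2 * WW g ^ 2 := by positivity
  have h13 : 3 * 1 ^ 2 * (UU g + WW g ^ 2) * (1 * (Fintype.card F : ℝ) ^ 2 * UU g + WW g ^ 2) =
    3 * (Fintype.card F : ℝ) ^ 2 * UU g * WW g ^ 2 +
      3 * (UU g * (Fintype.card F : ℝ) ^ 2 * UU g) + 3 * (UU g * WW g ^ 2) +
      3 * (WW g ^ 2 * WW g ^ 2) := by ring
  rw [h13]
  linarith

theorem all_dims (hF : ringChar F ≠ 2) (k : ℕ) : HH F (2 * k + 2) k (3 * 100 ^ k) := by
  induction k with
  | zero =>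
    have := base (F := F) hF
    simpa using this
  | succ k ih =>
    have h1 := step hF (by positivity) ih
    have h2 : (100 : ℝ) * (3 * 100 ^ k) = 3 * 100 ^ (k + 1) := by ring
    rw [h2] at h1
    exact h1

end Run7.h191.Sph
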