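import Mathlib
import Pool.Agent.Run7.h191.Base

/-! The strong type estimate at the endpoint. -/

set_option autoImplicit false
set_option linter.unusedSectionVars false

namespace Run7.h191.Sph

open Finset

variable {F : Type*} [Field F] [Fintype F] [DecidableEq F]

section

variable {ι : Type*} [Fintype ι] [DecidableEq ι]

theorem FT_add (ψ : AddChar F ℂ) (a : ι → F) (f g : (ι → F) → ℂ) (x : ι → F) :
    FT ψ a (f + g) x = FT ψ a f x + FT ψ a g x := by
  unfold FT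
  rw [← sum_add_distrib]
  exact sum_congr rfl (fun m _ => by rw [Pi.add_apply]; ring)

/-- the restriction of the Fourier transform to the sphere, as a vector -/
noncomputable def vecE (ψ : AddChar F ℂ) (a : ι → F) (j : F) (g : (ι → F) → ℂ) :
    EuclideanSpace ℂ (ι → F) :=
  WithLp.toLp 2 (fun x => if QD a x = j then FT ψ a g x else 0)

theorem vecE_norm (ψ : AddChar F ℂ) (a : ι → F) (j : F) (g : (ι → F) → ℂ) :
    ‖vecE ψ a j g‖ ^ 2 = NN ψ a j g := by
  rw [EuclideanSpace.norm_sq_eq]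
  unfold NN vecE
  rw [sum_filter]
  apply sum_congr rfl
  intro x _
  simp only
  split_ifs <;> simp

theorem vecE_add (ψ : AddChar F ℂ) (a : ι → F) (j : F) (f g : (ι → F) → ℂ) :
    vecE ψ a j (f + g) = vecE ψ a j f + vecE ψ a j g := by
  unfold vecE
  rw [← WithLp.toLp_add]
  congr 1
  ext x
  simp only [Pi.add_apply]
  split_ifs
  · exact FT_add ψ a f g x
  · simp

theorem NN_le (ψ : AddChar F ℂ) (hψ : ψ.IsPrimitive) {a : ι → F} (ha : ∀ i, a i ≠ 0) (j : F)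
    (g : (ι → F) → ℂ) :
    NN ψ a j g ≤ (Fintype.card F : ℝ) ^ (Fintype.card ι) * UU g := by
  rw [show UU g = ∑ m, ‖g m‖ ^ 2 from rfl, ← plancherel hψ ha g]
  exact sum_le_sum_of_subset_of_nonneg (filter_subset _ _) (fun _ _ _ => by positivity)

end

/-- the pieces of the function according to the size -/
noncomputable def cut {ι : Type*} (r : (ι → F) → ℝ) (g : (ι → F) → ℂ) (l : ℝ) (m : ι → F) : ℂ :=
  if r m ≤ l then g m else 0

theorem num_piece {K : ℕ} (hK : 1 ≤ K) {C q h w U W2 : ℝ} (hC : 0 ≤ C) (hq : 1 ≤ q) (hh : 0 < h)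
    (hw0 : 0 < w) (hw1 : w ≤ 1) (hqh : q * h ^ 2 * w ^ 4 = 1) (hU0 : 0 ≤ U) (hW20 : 0 ≤ W2)
    (hU : U ≤ 16 * h ^ 2) (hW : W2 ≤ (q * w ^ 4) ^ (K + 1)) :
    (C * (q ^ K) ^ 2) * (q ^ K * U + W2) * (q ^ K * q ^ 2 * U + W2) ≤
      17 * C * (q ^ (2 * K + 1)) ^ 2 * (2 * h + w) ^ 4 := by
  have hq0 : 0 < q := by linarith
  set Z : ℝ := w ^ (4 * K + 4) with hZ
  have hZ0 : 0 ≤ Z := by positivity
  have hZ1 : Z ≤ 1 := pow_le_one₀ hw0.le hw1
  have e0 : (q * w ^ 4) ^ (K + 1) = q ^ (K + 1) * Z := by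
    rw [mul_pow, hZ, ← pow_mul]
    congr 2
  rw [e0] at hW
  have e1 : q ^ K * U + W2 ≤ q ^ (K + 1) * (16 * h ^ 2 / q + Z) := by
    have : q ^ K * U ≤ q ^ K * (16 * h ^ 2) := mul_le_mul_of_nonneg_left hU (by positivity)
    have h1 : q ^ (K + 1) * (16 * h ^ 2 / q + Z) = q ^ K * (16 * h ^ 2) + q ^ (K + 1) * Z := by
      rw [pow_succ]
      field_simp
    rw [h1]
    linarith
  have e2 : q ^ K * q ^ 2 * U + W2 ≤ q ^ (K + 1) * (16 * (q * h ^ 2) + Z) := by
    have : q ^ K * q ^ 2 * U ≤ q ^ K * q ^ 2 * (16 * h ^ 2) :=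
      mul_le_mul_of_nonneg_left hU (by positivity)
    have h1 : q ^ (K + 1) * (16 * (q * h ^ 2) + Z) =
        q ^ K * q ^ 2 * (16 * h ^ 2) + q ^ (K + 1) * Z := by
      rw [pow_succ]
      ring
    rw [h1]
    linarith
  have hw4 : w ^ 4 ≤ 1 := pow_le_one₀ hw0.le hw1
  have e3 : 1 ≤ q * h ^ 2 := by
    by_contra hcon
    push Not at hcon
    have : q * h ^ 2 * w ^ 4 < 1 := by
      calc q * h ^ 2 * w ^ 4 ≤ q * h ^ 2 * 1 :=
            mul_le_mul_of_nonneg_left hw4 (by positivity)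
        _ < 1 := by linarith
    linarith
  have e4 : 16 * (q * h ^ 2) + Z ≤ 17 * (q * h ^ 2) := by linarith
  have e5 : (16 * h ^ 2 / q + Z) * (17 * (q * h ^ 2)) ≤ 17 * (2 * h + w) ^ 4 := by
    have h1 : (16 * h ^ 2 / q + Z) * (17 * (q * h ^ 2)) =
        17 * (16 * h ^ 4 + Z * (q * h ^ 2)) := by
      field_simp
    have h2 : Z = w ^ (4 * K) * w ^ 4 := by
      rw [hZ, ← pow_add]
    have h3 : Z * (q * h ^ 2) = w ^ (4 * K) := by
      rw [h2]
      linear_combination w ^ (4 * K) * hqh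
    have h4 : w ^ (4 * K) ≤ w ^ 4 := pow_le_pow_of_le_one hw0.le hw1 (by omega)
    rw [h1, h3]
    have h5 : (2 * h + w) ^ 4 = 16 * h ^ 4 + w ^ 4 +
      (32 * h ^ 3 * w + 24 * h ^ 2 * w ^ 2 + 8 * h * w ^ 3) := by ring
    have h6 : 0 ≤ 32 * h ^ 3 * w + 24 * h ^ 2 * w ^ 2 + 8 * h * w ^ 3 := by positivity
    rw [h5]
    linarith
  calc (C * (q ^ K) ^ 2) * (q ^ K * U + W2) * (q ^ K * q ^ 2 * U + W2) ≤
      (C * (q ^ K) ^ 2) * (q ^ (K + 1) * (16 * h ^ 2 / q + Z)) *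
        (q ^ (K + 1) * (16 * (q * h ^ 2) + Z)) := by
        apply mul_le_mul
        · exact mul_le_mul_of_nonneg_left e1 (by positivity)
        · exact e2
        · positivity
        · positivity
    _ = C * (q ^ (2 * K + 1)) ^ 2 * ((16 * h ^ 2 / q + Z) * (16 * (q * h ^ 2) + Z)) := by ring
    _ ≤ C * (q ^ (2 * K + 1)) ^ 2 * ((16 * h ^ 2 / q + Z) * (17 * (q * h ^ 2))) := by
        apply mul_le_mul_of_nonneg_left _ (by positivity)
        exact mul_le_mul_of_nonneg_left e4 (by positivity)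
    _ ≤ C * (q ^ (2 * K + 1)) ^ 2 * (17 * (2 * h + w) ^ 4) :=
        mul_le_mul_of_nonneg_left e5 (by positivity)
    _ = _ := by ring

/-- the norm of a piece -/
theorem piece_bound {K : ℕ} (hK : 1 ≤ K) {C c : ℝ} (hC : 0 ≤ C) (hc0 : 0 ≤ c)
    (hc : 17 * C ≤ c ^ 4) (H : HH F (2 * K + 2) K C) {ψ : AddChar F ℂ} (hψ : ψ.IsPrimitive)
    {a : Fin (2 * K + 2) → F} (ha : ∀ i, a i ≠ 0) {j : F} (hj : j ≠ 0)
    (g : (Fin (2 * K + 2) → F) → ℂ) (r : (Fin (2 * K + 2) → F) → ℝ) (hr0 : ∀ m, 0 ≤ r m)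
    (hg : ∀ m, ‖g m‖ ≤ r m ^ (K + 3)) (hS : ∑ m, r m ^ (2 * K + 4) ≤ 1) {h w : ℝ} (hh : 0 < h)
    (hw0 : 0 < w) (hw1 : w ≤ 1) (hqh : (Fintype.card F : ℝ) * h ^ 2 * w ^ 4 = 1)
    (hsupp : ∀ m, g m ≠ 0 → h < r m ∧ r m ≤ 4 * h) :
    ‖vecE ψ a j g‖ ≤ c * Real.sqrt ((Fintype.card F : ℝ) ^ (2 * K + 1)) * (2 * h + w) := by
  have hq := card_pos_real (F := F)
  have hq1 := one_le_card_real (F := F)
  have hU0 := UU_nonneg g
  have hW0 := WW_nonneg g
  have hU : UU g ≤ 16 * h ^ 2 := by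
    have h1 : ∀ m, ‖g m‖ ^ 2 ≤ 16 * h ^ 2 * r m ^ (2 * K + 4) := by
      intro m
      have hrm := hr0 m
      by_cases hm : g m = 0
      · rw [hm, norm_zero, zero_pow two_ne_zero]
        positivity
      · obtain ⟨h2, h3⟩ := hsupp m hm
        calc ‖g m‖ ^ 2 ≤ (r m ^ (K + 3)) ^ 2 := pow_le_pow_left₀ (norm_nonneg _) (hg m) 2
          _ = r m ^ 2 * r m ^ (2 * K + 4) := by ring
          _ ≤ (4 * h) ^ 2 * r m ^ (2 * K + 4) :=
              mul_le_mul_of_nonneg_right (pow_le_pow_left₀ hrm h3 2) (by positivity)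
          _ = _ := by ring
    calc UU g ≤ ∑ m, 16 * h ^ 2 * r m ^ (2 * K + 4) := sum_le_sum (fun m _ => h1 m)
      _ = 16 * h ^ 2 * ∑ m, r m ^ (2 * K + 4) := by rw [mul_sum]
      _ ≤ 16 * h ^ 2 * 1 := mul_le_mul_of_nonneg_left hS (by positivity)
      _ = _ := by ring
  have hW : WW g ^ 2 ≤ ((Fintype.card F : ℝ) * w ^ 4) ^ (K + 1) := by
    have h1 : ∀ m, h ^ (K + 1) * ‖g m‖ ≤ r m ^ (2 * K + 4) := by
      intro m
      have hrm := hr0 m
      by_cases hm : g m = 0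
      · rw [hm, norm_zero, mul_zero]
        positivity
      · obtain ⟨h2, h3⟩ := hsupp m hm
        calc h ^ (K + 1) * ‖g m‖ ≤ r m ^ (K + 1) * r m ^ (K + 3) := by
              apply mul_le_mul
              · exact pow_le_pow_left₀ hh.le h2.le _
              · exact hg m
              · exact norm_nonneg _
              · positivity
          _ = r m ^ (2 * K + 4) := by ring
    have h2 : h ^ (K + 1) * WW g ≤ 1 := by
      calc h ^ (K + 1) * WW g = ∑ m, h ^ (K + 1) * ‖g m‖ := by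
            unfold WW
            rw [mul_sum]
        _ ≤ ∑ m, r m ^ (2 * K + 4) := sum_le_sum (fun m _ => h1 m)
        _ ≤ 1 := hS
    have h3 : (h ^ (K + 1) * WW g) ^ 2 ≤ 1 := pow_le_one₀ (by positivity) h2
    have h4 : (h ^ (K + 1)) ^ 2 * ((Fintype.card F : ℝ) * w ^ 4) ^ (K + 1) = 1 := by
      have : (h ^ (K + 1)) ^ 2 * ((Fintype.card F : ℝ) * w ^ 4) ^ (K + 1) =
        ((Fintype.card F : ℝ) * h ^ 2 * w ^ 4) ^ (K + 1) := by
        rw [← pow_mul, mul_comm (K + 1) 2, pow_mul, ← mul_pow]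
        congr 1
        ring
      rw [this, hqh, one_pow]
    have h5 : 0 < (h ^ (K + 1)) ^ 2 := by positivity
    apply le_of_mul_le_mul_left _ h5
    rw [h4, ← mul_pow]
    exact h3
  have h1 := H ψ hψ a ha j hj g
  have h2 := num_piece hK hC hq1 hh hw0 hw1 hqh hU0 (by positivity : 0 ≤ WW g ^ 2) hU hW
  have h3 := h1.trans h2
  rw [← vecE_norm] at h3
  have h4 : ‖vecE ψ a j g‖ ^ 4 ≤
      (c * Real.sqrt ((Fintype.card F : ℝ) ^ (2 * K + 1)) * (2 * h + w)) ^ 4 := by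
    have h5 : (c * Real.sqrt ((Fintype.card F : ℝ) ^ (2 * K + 1)) * (2 * h + w)) ^ 4 =
        c ^ 4 * ((Real.sqrt ((Fintype.card F : ℝ) ^ (2 * K + 1))) ^ 2) ^ 2 *
          (2 * h + w) ^ 4 := by ring
    rw [h5, Real.sq_sqrt (by positivity)]
    calc ‖vecE ψ a j g‖ ^ 4 = (‖vecE ψ a j g‖ ^ 2) ^ 2 := by ring
      _ ≤ 17 * C * ((Fintype.card F : ℝ) ^ (2 * K + 1)) ^ 2 * (2 * h + w) ^ 4 := h3
      _ ≤ _ := by
          apply mul_le_mul_of_nonneg_right _ (by positivity)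
          exact mul_le_mul_of_nonneg_right hc (by positivity)
  exact (pow_le_pow_iff_left₀ (norm_nonneg _) (by positivity) (by norm_num)).1 h4

theorem four_half (t : ℕ) : (4 : ℝ) ^ t * ((1 / 2) ^ t) ^ 2 = 1 := by
  rw [← pow_mul, mul_comm t 2, pow_mul, ← mul_pow]
  norm_num

/-- the strong type estimate for a normalised function -/
theorem strong {K : ℕ} (hK : 1 ≤ K) {C c : ℝ} (hC : 0 ≤ C) (hc0 : 0 ≤ c)
    (hc : 17 * C ≤ c ^ 4) (H : HH F (2 * K + 2) K C) {ψ : AddChar F ℂ} (hψ : ψ.IsPrimitive)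
    {a : Fin (2 * K + 2) → F} (ha : ∀ i, a i ≠ 0) {j : F} (hj : j ≠ 0)
    (g : (Fin (2 * K + 2) → F) → ℂ) (r : (Fin (2 * K + 2) → F) → ℝ) (hr0 : ∀ m, 0 ≤ r m)
    (hr1 : ∀ m, r m ≤ 1)
    (hg : ∀ m, ‖g m‖ = r m ^ (K + 3)) (hS : ∑ m, r m ^ (2 * K + 4) ≤ 1) :
    ‖vecE ψ a j g‖ ≤ (1 + 6 * c) * Real.sqrt ((Fintype.card F : ℝ) ^ (2 * K + 1)) := by
  have hq := card_pos_real (F := F)
  have hq1 := one_le_card_real (F := F)
  set q : ℝ := (Fintype.card F : ℝ) with hqd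
  set B : ℝ := Real.sqrt (q ^ (2 * K + 1)) with hB
  have hB0 : 0 ≤ B := Real.sqrt_nonneg _
  set μ : ℝ := (Real.sqrt q)⁻¹ with hμ
  have hμ0 : 0 < μ := inv_pos.2 (Real.sqrt_pos.2 hq)
  have hμ2 : q * μ ^ 2 = 1 := by
    rw [hμ, inv_pow, Real.sq_sqrt hq.le]
    field_simp
  have hμ1 : μ ≤ 1 := by
    rw [hμ]
    apply inv_le_one_of_one_le₀
    rw [Real.one_le_sqrt]
    exact hq1
  have key : ∀ t : ℕ, ‖vecE ψ a j (cut r g (4 ^ t * μ))‖ ≤
      B * (1 + c * (4 ^ t * μ + 2 - 2 * (1 / 2) ^ t)) := by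
    intro t
    induction t with
    | zero =>
      have h1 : ‖vecE ψ a j (cut r g (4 ^ 0 * μ))‖ ≤ B := by
        apply le_of_sq_le_sq _ hB0
        rw [vecE_norm, hB, Real.sq_sqrt (by positivity)]
        refine (NN_le ψ hψ ha j _).trans ?_
        rw [Fintype.card_fin]
        have h2 : UU (cut r g (4 ^ 0 * μ)) ≤ μ ^ 2 := by
          have h3 : ∀ m, ‖cut r g (4 ^ 0 * μ) m‖ ^ 2 ≤ μ ^ 2 * r m ^ (2 * K + 4) := by
            intro m
            have hrm := hr0 m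
            unfold cut
            split_ifs with h4
            · rw [hg]
              rw [pow_zero, one_mul] at h4
              calc (r m ^ (K + 3)) ^ 2 = r m ^ 2 * r m ^ (2 * K + 4) := by ring
                _ ≤ _ := mul_le_mul_of_nonneg_right (pow_le_pow_left₀ hrm h4 2)
                  (by positivity)
            · rw [norm_zero, zero_pow two_ne_zero]
              positivity
          calc UU (cut r g (4 ^ 0 * μ)) ≤ ∑ m, μ ^ 2 * r m ^ (2 * K + 4) :=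
                sum_le_sum (fun m _ => h3 m)
            _ = μ ^ 2 * ∑ m, r m ^ (2 * K + 4) := by rw [mul_sum]
            _ ≤ μ ^ 2 * 1 := mul_le_mul_of_nonneg_left hS (by positivity)
            _ = _ := mul_one _
        calc q ^ (2 * K + 2) * UU (cut r g (4 ^ 0 * μ)) ≤ q ^ (2 * K + 2) * μ ^ 2 :=
              mul_le_mul_of_nonneg_left h2 (by positivity)
          _ = q ^ (2 * K + 1) * (q * μ ^ 2) := by ring
          _ = _ := by rw [hμ2, mul_one]
      have h2 : 0 ≤ B * (c * μ) := by positivity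
      simp only [pow_zero, one_mul, mul_one] at h1 ⊢
      linarith
    | succ t ih =>
      set P : (Fin (2 * K + 2) → F) → ℂ := fun m =>
        if 4 ^ t * μ < r m ∧ r m ≤ 4 ^ (t + 1) * μ then g m else 0 with hP
      have hle : 4 ^ t * μ ≤ 4 ^ (t + 1) * μ := by
        rw [pow_succ]
        have : 0 < (4 : ℝ) ^ t * μ := by positivity
        linarith
      have h1 : cut r g (4 ^ (t + 1) * μ) = cut r g (4 ^ t * μ) + P := by
        ext m
        rw [Pi.add_apply, hP]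
        unfold cut
        by_cases a1 : r m ≤ 4 ^ t * μ
        · have a2 : r m ≤ 4 ^ (t + 1) * μ := a1.trans hle
          have a3 : ¬ (4 ^ t * μ < r m ∧ r m ≤ 4 ^ (t + 1) * μ) := fun h => absurd h.1 (not_lt.2 a1)
          simp only [if_pos a1, if_pos a2, if_neg a3, add_zero]
        · by_cases a2 : r m ≤ 4 ^ (t + 1) * μ
          · have a3 : (4 ^ t * μ < r m ∧ r m ≤ 4 ^ (t + 1) * μ) := ⟨not_le.1 a1, a2⟩
            simp only [if_neg a1, if_pos a2, if_pos a3, zero_add]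
          · have a3 : ¬ (4 ^ t * μ < r m ∧ r m ≤ 4 ^ (t + 1) * μ) := fun h => a2 h.2
            simp only [if_neg a1, if_neg a2, if_neg a3, add_zero]
      have h2 : ‖vecE ψ a j P‖ ≤ c * B * (2 * (4 ^ t * μ) + (1 / 2) ^ t) := by
        apply piece_bound hK hC hc0 hc H hψ ha hj P r hr0
        · intro m
          have hrm := hr0 m
          simp only [hP]
          split_ifs
          · exact (hg m).le
          · rw [norm_zero]
            positivity
        · exact hS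
        · positivity
        · positivity
        · exact pow_le_one₀ (by norm_num) (by norm_num)
        · rw [← hqd]
          have e1 : q * (4 ^ t * μ) ^ 2 * ((1 / 2) ^ t) ^ 4 =
              (q * μ ^ 2) * ((4 : ℝ) ^ t * ((1 / 2) ^ t) ^ 2) ^ 2 := by ring
          rw [e1, hμ2, four_half, one_mul, one_pow]
        · intro m hm
          simp only [hP] at hm
          have h3 : 4 ^ t * μ < r m ∧ r m ≤ 4 ^ (t + 1) * μ := by
            by_contra hcon
            exact hm (if_neg hcon)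
          refine ⟨h3.1, h3.2.trans (le_of_eq ?_)⟩
          ring
      rw [h1, vecE_add]
      refine (norm_add_le _ _).trans ?_
      have h3 : 0 ≤ B * c * (4 ^ t * μ) := by positivity
      have h4 : (4 : ℝ) ^ (t + 1) = 4 * 4 ^ t := by ring
      have h5 : (1 / 2 : ℝ) ^ (t + 1) = (1 / 2) * (1 / 2) ^ t := by ring
      rw [h4, h5]
      calc _ ≤ B * (1 + c * (4 ^ t * μ + 2 - 2 * (1 / 2) ^ t)) +
          c * B * (2 * (4 ^ t * μ) + (1 / 2) ^ t) := add_le_add ih h2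
        _ = B * (1 + c * (4 * 4 ^ t * μ + 2 - 2 * (1 / 2 * (1 / 2) ^ t))) -
          B * c * (4 ^ t * μ) := by ring
        _ ≤ _ := by linarith
  -- choose the number of pieces
  have hex : ∃ t : ℕ, 1 ≤ 4 ^ t * μ := by
    obtain ⟨t, ht⟩ := pow_unbounded_of_one_lt (μ⁻¹) (by norm_num : (1 : ℝ) < 4)
    refine ⟨t, ?_⟩
    have : μ⁻¹ * μ ≤ 4 ^ t * μ := mul_le_mul_of_nonneg_right ht.le hμ0.le
    rwa [inv_mul_cancel₀ hμ0.ne'] at this
  set t := Nat.find hex with ht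
  have ht1 : 1 ≤ 4 ^ t * μ := Nat.find_spec hex
  have ht2 : 4 ^ t * μ ≤ 4 := by
    rcases Nat.eq_zero_or_pos t with h0 | h0
    · rw [h0, pow_zero, one_mul]
      linarith
    · have h1 := Nat.find_min hex (Nat.sub_lt h0 one_pos)
      push Not at h1
      have h2 : (4 : ℝ) ^ t = 4 * 4 ^ (t - 1) := by
        rw [← pow_succ']
        congr 1
        omega
      rw [h2]
      linarith
  have h1 : cut r g (4 ^ t * μ) = g := by
    ext m
    unfold cut
    rw [if_pos ((hr1 m).trans ht1)]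
  have h2 := key t
  rw [h1] at h2
  refine h2.trans ?_
  have h3 : 0 ≤ (1 / 2 : ℝ) ^ t := by positivity
  have h4 : c * (4 ^ t * μ + 2 - 2 * (1 / 2) ^ t) ≤ c * 6 :=
    mul_le_mul_of_nonneg_left (by linarith) hc0
  calc B * (1 + c * (4 ^ t * μ + 2 - 2 * (1 / 2) ^ t)) ≤ B * (1 + c * 6) :=
        mul_le_mul_of_nonneg_left (by linarith) hB0
    _ = _ := by ring

end Run7.h191.Sph
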