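import Mathlib
import Pool.Agent.Run7.h191.Base

/-! The distance set of a large set in an even dimensional space over a finite field. -/

set_option autoImplicit false
set_option linter.unusedSectionVars false

namespace Run7.h191.Sph

open Finset

variable {F : Type*} [Field F] [Fintype F] [DecidableEq F]

section

variable {ι : Type*} [Fintype ι] [DecidableEq ι]

/-- indicator function of a finite set -/
noncomputable def ind (E : Finset (ι → F)) (x : ι → F) : ℂ := if x ∈ E then 1 else 0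

/-- the sum of `ψ(s Q(x - y))` over pairs of points of `E` -/
noncomputable def II (ψ : AddChar F ℂ) (a : ι → F) (E : Finset (ι → F)) (s : F) : ℂ :=
  ∑ x ∈ E, ∑ y ∈ E, ψ (s * QD a (x - y))

/-- number of pairs of points of `E` at distance `t` -/
def nu (a : ι → F) (E : Finset (ι → F)) (t : F) : ℕ :=
  ((E ×ˢ E).filter (fun p => QD a (p.1 - p.2) = t)).card

theorem UU_ind (E : Finset (ι → F)) : UU (ind E) = (E.card : ℝ) := by
  unfold UU ind
  have h : ∀ m : ι → F, ‖(if m ∈ E then (1 : ℂ) else 0)‖ ^ 2 = if m ∈ E then (1 : ℝ) else 0 := by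
    intro m
    split_ifs <;> simp
  simp_rw [h]
  simp

theorem WW_ind (E : Finset (ι → F)) : WW (ind E) = (E.card : ℝ) := by
  unfold WW ind
  have h : ∀ m : ι → F, ‖(if m ∈ E then (1 : ℂ) else 0)‖ = if m ∈ E then (1 : ℝ) else 0 := by
    intro m
    split_ifs <;> simp
  simp_rw [h]
  simp

theorem FT_ind (ψ : AddChar F ℂ) (a : ι → F) (E : Finset (ι → F)) (ξ : ι → F) :
    FT ψ a (ind E) ξ = ∑ x ∈ E, ψ (BD a x ξ) := by
  unfold FT ind
  simp only [ite_mul, one_mul, zero_mul]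
  rw [← sum_filter, filter_mem_eq_inter, univ_inter]

theorem norm_FT_ind_sq (ψ : AddChar F ℂ) (a : ι → F) (E : Finset (ι → F)) (ξ : ι → F) :
    ((‖FT ψ a (ind E) ξ‖ ^ 2 : ℝ) : ℂ) = ∑ x ∈ E, ∑ y ∈ E, ψ (BD a (x - y) ξ) := by
  rw [Complex.ofReal_pow, ← Complex.mul_conj', FT_ind, map_sum, sum_mul_sum]
  apply sum_congr rfl
  intro x _
  apply sum_congr rfl
  intro y _
  rw [conj_psi, ← AddChar.map_add_eq_mul, BD_sub_left]
  congr 1
  ring

/-- the Gauss sum identity for pairs -/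
theorem gauss_pairs {ψ : AddChar F ℂ} {a : ι → F} {γ : ℂ} (hγ : IsG a ψ γ)
    (E : Finset (ι → F)) {s : F} (hs : s ≠ 0) :
    ∑ r : F, ψ (s * r) * ((NN ψ a r (ind E) : ℝ) : ℂ) = γ * II ψ a E (-(4 * s)⁻¹) := by
  have h1 : ∑ r : F, ψ (s * r) * ((NN ψ a r (ind E) : ℝ) : ℂ) =
      ∑ ξ : ι → F, ψ (s * QD a ξ) * ((‖FT ψ a (ind E) ξ‖ ^ 2 : ℝ) : ℂ) := by
    rw [← sum_fiberwise univ (fun ξ : ι → F => QD a ξ)
      (fun ξ => ψ (s * QD a ξ) * ((‖FT ψ a (ind E) ξ‖ ^ 2 : ℝ) : ℂ))]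
    apply sum_congr rfl
    intro r _
    unfold NN
    rw [Complex.ofReal_sum, mul_sum]
    apply sum_congr rfl
    intro ξ hξ
    rw [(mem_filter.1 hξ).2]
  rw [h1]
  simp_rw [norm_FT_ind_sq, mul_sum]
  rw [sum_comm]
  unfold II
  rw [mul_sum]
  apply sum_congr rfl
  intro x _
  rw [sum_comm, mul_sum]
  apply sum_congr rfl
  intro y _
  simp_rw [← AddChar.map_add_eq_mul]
  rw [hγ.2 s hs (x - y)]
  congr 2
  ring

theorem nu_eq {ψ : AddChar F ℂ} (hψ : ψ.IsPrimitive) (a : ι → F) (E : Finset (ι → F)) (t : F) :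
    (Fintype.card F : ℂ) * (nu a E t : ℂ) = ∑ s : F, ψ (-(s * t)) * II ψ a E s := by
  have h1 : ∀ s : F, ψ (-(s * t)) * II ψ a E s =
      ∑ x ∈ E, ∑ y ∈ E, ψ (s * (QD a (x - y) - t)) := by
    intro s
    unfold II
    rw [mul_sum]
    apply sum_congr rfl
    intro x _
    rw [mul_sum]
    apply sum_congr rfl
    intro y _
    rw [← AddChar.map_add_eq_mul]
    congr 1
    ring
  simp_rw [h1]
  rw [sum_comm]
  have h2 : ∀ x ∈ E, ∑ s : F, ∑ y ∈ E, ψ (s * (QD a (x - y) - t)) =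
      ∑ y ∈ E, (if QD a (x - y) = t then (Fintype.card F : ℂ) else 0) := by
    intro x _
    rw [sum_comm]
    apply sum_congr rfl
    intro y _
    rw [sum_psi_mul hψ]
    simp only [sub_eq_zero]
  rw [sum_congr rfl h2, ← sum_product', ← sum_filter, sum_const, nsmul_eq_mul, mul_comm]
  rfl

theorem II_zero (ψ : AddChar F ℂ) (a : ι → F) (E : Finset (ι → F)) :
    II ψ a E 0 = (E.card : ℂ) ^ 2 := by
  unfold II
  simp only [zero_mul, AddChar.map_zero_eq_one, sum_const, nsmul_eq_mul, mul_one]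
  ring

theorem sum_NN {ψ : AddChar F ℂ} (hψ : ψ.IsPrimitive) {a : ι → F} (ha : ∀ i, a i ≠ 0)
    (g : (ι → F) → ℂ) : ∑ r : F, NN ψ a r g = (Fintype.card F : ℝ) ^ (Fintype.card ι) * UU g := by
  rw [show UU g = ∑ m, ‖g m‖ ^ 2 from rfl, ← plancherel hψ ha g]
  unfold NN
  exact sum_fiberwise univ (fun ξ : ι → F => QD a ξ) (fun ξ => ‖FT ψ a g ξ‖ ^ 2)

/-- the second moment of the number of pairs at a nonzero distance -/
theorem nu_sq_sum (hF : ringChar F ≠ 2) {ψ : AddChar F ℂ} (hψ : ψ.IsPrimitive) {a : ι → F}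
    (ha : ∀ i, a i ≠ 0) (hev : Even (Fintype.card ι)) (E : Finset (ι → F)) {B : ℝ}
    (hB : ∀ r : F, r ≠ 0 → NN ψ a r (ind E) ≤ B) :
    ∑ t ∈ univ.erase (0 : F), (nu a E t : ℝ) ^ 2 * (Fintype.card F : ℝ) ^ 2 ≤
      3 * ((Fintype.card F : ℝ) * (E.card : ℝ) ^ 4 +
        (Fintype.card F : ℝ) * (Fintype.card F : ℝ) ^ (Fintype.card ι) * (E.card : ℝ) ^ 2 +
        (Fintype.card F : ℝ) ^ 2 * (B * (E.card : ℝ))) := by
  have hq := card_pos_real (F := F)
  obtain ⟨γ, hγ⟩ := exists_isG hF hψ ha hev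
  set q : ℝ := (Fintype.card F : ℝ) with hqd
  set D : ℝ := q ^ (Fintype.card ι) with hD
  have hD0 : 0 < D := by positivity
  have hγ2 : ‖γ‖ ^ 2 = D := hγ.1
  have hγ0 : γ ≠ 0 := by
    intro h
    rw [h, norm_zero] at hγ2
    norm_num at hγ2
    linarith
  set n : ℝ := (E.card : ℝ) with hn
  have hn0 : 0 ≤ n := Nat.cast_nonneg _
  set N : F → ℝ := fun r => NN ψ a r (ind E) with hN
  have hN0 : ∀ r, 0 ≤ N r := fun r => NN_nonneg _ _ _ _
  have hsumN : ∑ r, N r = D * n := by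
    rw [hN, hD, hn, ← UU_ind E]
    exact sum_NN hψ ha (ind E)
  have hNr : ∀ r, N r ≤ D * n := by
    intro r
    rw [← hsumN]
    exact single_le_sum (fun r _ => hN0 r) (mem_univ r)
  -- the function `K`
  set K : F → ℂ := fun s => γ⁻¹ * ∑ r ∈ univ.erase (0 : F), ψ (-(4 * s)⁻¹ * r) * ((N r : ℝ) : ℂ)
    with hK
  have h4 := four_ne hF
  have hII : ∀ s : F, s ≠ 0 → II ψ a E s = γ⁻¹ * ((N 0 : ℝ) : ℂ) + K s := by
    intro s hs
    have hs' : -(4 * s)⁻¹ ≠ 0 := neg_ne_zero.2 (inv_ne_zero (mul_ne_zero h4 hs))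
    have h1 := gauss_pairs hγ E hs'
    have h2 : -(4 * -(4 * s)⁻¹)⁻¹ = s := by
      field_simp
    rw [h2, ← add_sum_erase univ _ (mem_univ (0 : F)), mul_zero, AddChar.map_zero_eq_one,
      one_mul] at h1
    rw [hK]
    simp only
    rw [← mul_add, h1, ← mul_assoc, inv_mul_cancel₀ hγ0, one_mul]
  set J : F → ℂ := fun t => ∑ s ∈ univ.erase (0 : F), K s * ψ (-(s * t)) with hJ
  have h5 : ∀ t ∈ univ.erase (0 : F), (Fintype.card F : ℂ) * (nu a E t : ℂ) =
      (n : ℂ) ^ 2 - γ⁻¹ * ((N 0 : ℝ) : ℂ) + J t := by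
    intro t ht
    have ht0 := (mem_erase.1 ht).1
    rw [nu_eq hψ, ← add_sum_erase univ _ (mem_univ (0 : F)), II_zero]
    have e1 : ∑ s ∈ univ.erase (0 : F), ψ (-(s * t)) * II ψ a E s =
        γ⁻¹ * ((N 0 : ℝ) : ℂ) * ∑ s ∈ univ.erase (0 : F), ψ (s * -t) + J t := by
      rw [hJ]
      simp only
      rw [mul_sum, ← sum_add_distrib]
      apply sum_congr rfl
      intro s hs
      rw [hII s (mem_erase.1 hs).1, mul_neg]
      ring
    rw [e1, sum_erase_eq_sub (mem_univ _), sum_psi_mul hψ, if_neg (neg_ne_zero.2 ht0)]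
    simp only [zero_mul, neg_zero, AddChar.map_zero_eq_one, hn]
    push_cast
    ring
  have h6 : ∑ t : F, ‖J t‖ ^ 2 ≤ q ^ 2 * (B * n) := by
    have e1 : ∑ t : F, ‖J t‖ ^ 2 = q * ∑ s ∈ univ.erase (0 : F), ‖K s‖ ^ 2 := by
      have e2 := parseval_one hψ (fun s : F => -s) neg_injective
        (fun s => if s = 0 then 0 else K s)
      have e3 : ∀ t : F, ∑ s : F, (if s = 0 then 0 else K s) * ψ (-s * t) = J t := by
        intro t
        rw [hJ, ← add_sum_erase univ _ (mem_univ (0 : F)), if_pos rfl, zero_mul, zero_add]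
        apply sum_congr rfl
        intro s hs
        rw [if_neg (mem_erase.1 hs).1, neg_mul]
      simp_rw [e3] at e2
      rw [e2, ← add_sum_erase univ _ (mem_univ (0 : F)), if_pos rfl, norm_zero]
      congr 1
      rw [zero_pow two_ne_zero, zero_add]
      apply sum_congr rfl
      intro s hs
      rw [if_neg (mem_erase.1 hs).1]
    have e4 : ∑ s ∈ univ.erase (0 : F), ‖K s‖ ^ 2 ≤
        D⁻¹ * (q * ∑ r ∈ univ.erase (0 : F), N r ^ 2) := by
      have e5 : ∀ s, ‖K s‖ ^ 2 = D⁻¹ * ‖∑ r ∈ univ.erase (0 : F),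
          ψ (-(4 * s)⁻¹ * r) * ((N r : ℝ) : ℂ)‖ ^ 2 := by
        intro s
        rw [hK]
        simp only
        rw [norm_mul, mul_pow, norm_inv, inv_pow, hγ2]
      simp_rw [e5]
      rw [← mul_sum]
      apply mul_le_mul_of_nonneg_left _ (by positivity)
      have e6 : ∑ s ∈ univ.erase (0 : F), ‖∑ r ∈ univ.erase (0 : F),
          ψ (-(4 * s)⁻¹ * r) * ((N r : ℝ) : ℂ)‖ ^ 2 =
          ∑ s ∈ univ.erase (0 : F), ‖∑ r ∈ univ.erase (0 : F),
          ψ (s * r) * ((N r : ℝ) : ℂ)‖ ^ 2 := by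
        refine sum_bij' (fun r _ => -(4 * r)⁻¹) (fun r _ => -(4 * r)⁻¹) ?_ ?_ ?_ ?_ ?_
        · intro r hr
          rw [mem_erase] at hr ⊢
          exact ⟨neg_ne_zero.2 (inv_ne_zero (mul_ne_zero h4 hr.1)), mem_univ _⟩
        · intro r hr
          rw [mem_erase] at hr ⊢
          exact ⟨neg_ne_zero.2 (inv_ne_zero (mul_ne_zero h4 hr.1)), mem_univ _⟩
        · intro r hr
          have hr0 := (mem_erase.1 hr).1
          field_simp
        · intro r hr
          have hr0 := (mem_erase.1 hr).1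
          field_simp
        · intro r hr
          rfl
      rw [e6]
      have e7 := parseval_one hψ (fun r : F => r) Function.injective_id
        (fun r => if r = 0 then 0 else ((N r : ℝ) : ℂ))
      have e8 : ∀ s : F, ∑ r : F, (if r = 0 then 0 else ((N r : ℝ) : ℂ)) * ψ (r * s) =
          ∑ r ∈ univ.erase (0 : F), ψ (s * r) * ((N r : ℝ) : ℂ) := by
        intro s
        rw [← add_sum_erase univ _ (mem_univ (0 : F)), if_pos rfl, zero_mul, zero_add]
        apply sum_congr rfl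
        intro r hr
        rw [if_neg (mem_erase.1 hr).1, mul_comm r s]
        ring
      simp_rw [e8] at e7
      have e9 : ∑ r : F, ‖(if r = 0 then 0 else ((N r : ℝ) : ℂ))‖ ^ 2 =
          ∑ r ∈ univ.erase (0 : F), N r ^ 2 := by
        rw [← add_sum_erase univ _ (mem_univ (0 : F)), if_pos rfl, norm_zero,
          zero_pow two_ne_zero, zero_add]
        apply sum_congr rfl
        intro r hr
        rw [if_neg (mem_erase.1 hr).1, Complex.norm_real, Real.norm_eq_abs, sq_abs]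
      rw [e9] at e7
      rw [← hqd] at e7
      rw [← e7]
      exact sum_le_sum_of_subset_of_nonneg (erase_subset _ _) (fun _ _ _ => by positivity)
    have e10 : ∑ r ∈ univ.erase (0 : F), N r ^ 2 ≤ B * (D * n) := by
      have e11 : ∀ r ∈ univ.erase (0 : F), N r ^ 2 ≤ B * N r := by
        intro r hr
        rw [sq]
        exact mul_le_mul_of_nonneg_right (hB r (mem_erase.1 hr).1) (hN0 r)
      refine (sum_le_sum e11).trans ?_
      rw [← mul_sum]
      have hB0 : 0 ≤ B := by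
        have : (1 : F) ≠ 0 := one_ne_zero
        exact (hN0 1).trans (hB 1 this)
      apply mul_le_mul_of_nonneg_left _ hB0
      rw [← hsumN]
      exact sum_le_sum_of_subset_of_nonneg (erase_subset _ _) (fun r _ _ => hN0 r)
    rw [e1]
    calc q * ∑ s ∈ univ.erase (0 : F), ‖K s‖ ^ 2 ≤
        q * (D⁻¹ * (q * (B * (D * n)))) := by
          apply mul_le_mul_of_nonneg_left _ hq.le
          refine e4.trans ?_
          apply mul_le_mul_of_nonneg_left _ (by positivity)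
          exact mul_le_mul_of_nonneg_left e10 hq.le
      _ = _ := by field_simp
  have h7 : ∀ t ∈ univ.erase (0 : F), (nu a E t : ℝ) ^ 2 * q ^ 2 ≤
      3 * (n ^ 4 + D * n ^ 2 + ‖J t‖ ^ 2) := by
    intro t ht
    have e1 : q * (nu a E t : ℝ) = ‖(Fintype.card F : ℂ) * (nu a E t : ℂ)‖ := by
      rw [norm_mul, Complex.norm_natCast, Complex.norm_natCast]
    have e2 : q * (nu a E t : ℝ) ≤ n ^ 2 + ‖γ‖⁻¹ * N 0 + ‖J t‖ := by
      rw [e1, h5 t ht]
      refine (norm_add_le _ _).trans ?_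
      apply add_le_add_left
      refine (norm_sub_le _ _).trans ?_
      rw [norm_pow, Complex.norm_real, Real.norm_eq_abs, abs_of_nonneg hn0, norm_mul, norm_inv,
        Complex.norm_real, Real.norm_eq_abs, abs_of_nonneg (hN0 0)]
    have e3 : (‖γ‖⁻¹ * N 0) ^ 2 ≤ D * n ^ 2 := by
      rw [mul_pow, inv_pow, hγ2]
      have : N 0 ^ 2 ≤ (D * n) ^ 2 := pow_le_pow_left₀ (hN0 0) (hNr 0) 2
      calc D⁻¹ * N 0 ^ 2 ≤ D⁻¹ * (D * n) ^ 2 := mul_le_mul_of_nonneg_left this (by positivity)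
        _ = _ := by field_simp
    have e4 : 0 ≤ q * (nu a E t : ℝ) := by positivity
    have e5 : (q * (nu a E t : ℝ)) ^ 2 ≤ (n ^ 2 + ‖γ‖⁻¹ * N 0 + ‖J t‖) ^ 2 :=
      pow_le_pow_left₀ e4 e2 2
    have e6 : (n ^ 2 + ‖γ‖⁻¹ * N 0 + ‖J t‖) ^ 2 ≤
        3 * ((n ^ 2) ^ 2 + (‖γ‖⁻¹ * N 0) ^ 2 + ‖J t‖ ^ 2) := by
      nlinarith [sq_nonneg (n ^ 2 - ‖γ‖⁻¹ * N 0), sq_nonneg (n ^ 2 - ‖J t‖),
        sq_nonneg (‖γ‖⁻¹ * N 0 - ‖J t‖)]
    calc (nu a E t : ℝ) ^ 2 * q ^ 2 = (q * (nu a E t : ℝ)) ^ 2 := by ring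
      _ ≤ _ := e5
      _ ≤ _ := e6
      _ ≤ _ := by
          have : (n ^ 2) ^ 2 = n ^ 4 := by ring
          rw [this]
          linarith
  refine (sum_le_sum h7).trans ?_
  rw [← mul_sum]
  apply mul_le_mul_of_nonneg_left _ (by norm_num)
  rw [sum_add_distrib, sum_add_distrib, sum_const, sum_const, nsmul_eq_mul, nsmul_eq_mul]
  have hc : ((univ.erase (0 : F)).card : ℝ) ≤ q := by
    have : (univ.erase (0 : F)).card ≤ Fintype.card F := card_le_univ _
    rw [hqd]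
    exact_mod_cast this
  have f1 : ((univ.erase (0 : F)).card : ℝ) * n ^ 4 ≤ q * n ^ 4 :=
    mul_le_mul_of_nonneg_right hc (by positivity)
  have f2 : ((univ.erase (0 : F)).card : ℝ) * (D * n ^ 2) ≤ q * (D * n ^ 2) :=
    mul_le_mul_of_nonneg_right hc (by positivity)
  have f3 : ∑ t ∈ univ.erase (0 : F), ‖J t‖ ^ 2 ≤ ∑ t : F, ‖J t‖ ^ 2 :=
    sum_le_sum_of_subset_of_nonneg (erase_subset _ _) (fun _ _ _ => by positivity)
  have f4 : q * (D * n ^ 2) = q * D * n ^ 2 := by ring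
  linarith

/-- the pairs at distance zero -/
theorem nu_zero_le (hF : ringChar F ≠ 2) {ψ : AddChar F ℂ} (hψ : ψ.IsPrimitive) {a : ι → F}
    (ha : ∀ i, a i ≠ 0) {γ : ℂ} (hγ : IsG a ψ γ) (E : Finset (ι → F)) :
    (Fintype.card F : ℝ) * (nu a E 0 : ℝ) ≤
      (E.card : ℝ) ^ 2 + (Fintype.card F : ℝ) * ‖γ‖ * (E.card : ℝ) := by
  have h1 := null_pairs hF hψ ha hγ (fun x => if x ∈ E then (1 : ℝ) else 0)
  have h2 : ∑ b : ι → F, (if b ∈ E then (1 : ℝ) else 0) = (E.card : ℝ) := by simp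
  have h3 : ∑ b : ι → F, (if b ∈ E then (1 : ℝ) else 0) ^ 2 = (E.card : ℝ) := by simp
  have h4 : ∑ b : ι → F, ∑ b' : ι → F, (if QD a (b - b') = 0 then
      (if b ∈ E then (1 : ℝ) else 0) * (if b' ∈ E then (1 : ℝ) else 0) else 0) =
      (nu a E 0 : ℝ) := by
    unfold nu
    rw [← sum_product', card_filter]
    push_cast
    symm
    apply sum_subset_zero_on_sdiff (subset_univ _)
    · intro p hp
      rw [mem_sdiff, mem_product, not_and_or] at hp
      rcases hp.2 with hp | hp <;> simp [hp]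
    · intro p hp
      rw [mem_product] at hp
      simp [hp.1, hp.2]
  rw [h2, h3, h4] at h1
  exact h1

end

end Run7.h191.Sph
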