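import Mathlib
import Pool.Agent.Run7.h191.Dist

/-! A threshold for the distance problem in even dimensional spaces over finite fields. -/

set_option autoImplicit false
set_option linter.unusedSectionVars false

namespace Run7.h191.Sph

open Finset

variable {F : Type*} [Field F] [Fintype F] [DecidableEq F]

/-- the distances -/
def DD {ι : Type*} [Fintype ι] (a : ι → F) (E : Finset (ι → F)) : Finset F :=
  (E ×ˢ E).image (fun p => QD a (p.1 - p.2))

theorem sum_nu {ι : Type*} [Fintype ι] [DecidableEq ι] (a : ι → F) (E : Finset (ι → F)) :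
    ∑ t : F, (nu a E t : ℝ) = (E.card : ℝ) ^ 2 := by
  have h := card_eq_sum_card_fiberwise (s := E ×ˢ E) (t := (univ : Finset F))
    (f := fun p => QD a (p.1 - p.2)) (fun _ _ => mem_coe.2 (mem_univ _))
  rw [card_product] at h
  unfold nu
  rw [← Nat.cast_sum, ← h]
  push_cast
  ring

theorem three_le (hF : ringChar F ≠ 2) : (3 : ℝ) ≤ Fintype.card F := by
  have h1 : 1 < Fintype.card F := Fintype.one_lt_card
  have h2 : Fintype.card F ≠ 2 := by
    intro h
    have h3 : (Fintype.card F : F) = 0 := Nat.cast_card_eq_zero F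
    rw [h] at h3
    exact two_ne hF (by exact_mod_cast h3)
  have h3 : 3 ≤ Fintype.card F := by omega
  exact_mod_cast h3

/-- final counting -/
theorem many_distances (hF : ringChar F ≠ 2) {k : ℕ} {C : ℝ} (hC : 0 ≤ C)
    (H : HH F (2 * k + 2) k C) {ψ : AddChar F ℂ} (hψ : ψ.IsPrimitive)
    {a : Fin (2 * k + 2) → F} (ha : ∀ i, a i ≠ 0) (E : Finset (Fin (2 * k + 2) → F))
    (hE1 : 3 * (Fintype.card F : ℝ) ^ (k + 1) ≤ (E.card : ℝ))
    (hE2 : (Fintype.card F : ℝ) ^ (3 * k + 4) ≤ (E.card : ℝ) ^ 3) :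
    (Fintype.card F : ℝ) ≤ 54 * (1 + Real.sqrt C) * ((DD a E).card : ℝ) := by
  have hq := card_pos_real (F := F)
  have hq1 := one_le_card_real (F := F)
  have hq3 := three_le (F := F) hF
  have hev : Even (Fintype.card (Fin (2 * k + 2))) := by
    rw [Fintype.card_fin]
    exact ⟨k + 1, by ring⟩
  obtain ⟨γ, hγ⟩ := exists_isG hF hψ ha hev
  set q : ℝ := (Fintype.card F : ℝ) with hqd
  set n : ℝ := (E.card : ℝ) with hn
  have hX : 0 < q ^ k := by positivity
  have hX1 : 1 ≤ q ^ k := one_le_pow₀ hq1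
  have hn1 : 3 * (q ^ k * q) ≤ n := by
    rw [← pow_succ]
    exact hE1
  have hn0 : 0 < n := by
    have : 0 < q ^ k * q := by positivity
    linarith
  have hnX : q ^ k ≤ n := by nlinarith
  have hE2' : (q ^ k) ^ 3 * q ^ 4 ≤ n ^ 3 := by
    calc (q ^ k) ^ 3 * q ^ 4 = q ^ (3 * k + 4) := by rw [← pow_mul, ← pow_add, mul_comm k 3]
      _ ≤ _ := hE2
  set R : ℝ := Real.sqrt C with hR
  have hR0 : 0 ≤ R := Real.sqrt_nonneg _
  have hR2 : R ^ 2 = C := Real.sq_sqrt hC
  -- bound of the sums over spheres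
  have hB : ∀ r : F, r ≠ 0 → NN ψ a r (ind E) ≤ 2 * R * n ^ 3 / q := by
    intro r hr
    have h1 := H ψ hψ a ha r hr (ind E)
    rw [UU_ind, WW_ind, ← hqd, ← hn] at h1
    have hN := NN_nonneg ψ a r (ind E)
    set X : ℝ := q ^ k with hXd
    apply le_of_sq_le_sq _ (by positivity)
    refine h1.trans ?_
    have e1 : X * n + n ^ 2 ≤ 2 * n ^ 2 := by nlinarith
    have e2 : X ^ 2 * (X * q ^ 2 * n + n ^ 2) * q ^ 2 ≤ 2 * n ^ 4 := by
      have e3 : X ^ 2 * (X * q ^ 2 * n) * q ^ 2 ≤ n ^ 4 := by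
        calc X ^ 2 * (X * q ^ 2 * n) * q ^ 2 = (X ^ 3 * q ^ 4) * n := by ring
          _ ≤ n ^ 3 * n := mul_le_mul_of_nonneg_right hE2' hn0.le
          _ = _ := by ring
      have e4 : X ^ 2 * n ^ 2 * q ^ 2 ≤ n ^ 4 := by
        have e5 : (X * q) ^ 2 ≤ n ^ 2 := by
          apply pow_le_pow_left₀ (by positivity)
          have : 0 < X * q := by positivity
          linarith
        calc X ^ 2 * n ^ 2 * q ^ 2 = (X * q) ^ 2 * n ^ 2 := by ring
          _ ≤ n ^ 2 * n ^ 2 := mul_le_mul_of_nonneg_right e5 (by positivity)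
          _ = _ := by ring
      linarith
    rw [div_pow, le_div_iff₀ (by positivity)]
    have e6 : (2 * R * n ^ 3) ^ 2 = C * (4 * n ^ 6) := by
      rw [← hR2]
      ring
    rw [e6]
    calc C * X ^ 2 * (X * n + n ^ 2) * (X * q ^ 2 * n + n ^ 2) * q ^ 2 =
        (C * (X * n + n ^ 2)) * (X ^ 2 * (X * q ^ 2 * n + n ^ 2) * q ^ 2) := by ring
      _ ≤ (C * (2 * n ^ 2)) * (2 * n ^ 4) := by
          apply mul_le_mul _ e2 (by positivity) (by positivity)
          exact mul_le_mul_of_nonneg_left e1 hC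
      _ = _ := by ring
  have h2 := nu_sq_sum hF hψ ha hev E hB
  rw [← hqd, ← hn, Fintype.card_fin] at h2
  have hD : q ^ (2 * k + 2) = (q ^ k * q) ^ 2 := by ring
  have hS : ∑ t ∈ univ.erase (0 : F), (nu a E t : ℝ) ^ 2 ≤ 6 * (1 + R) * n ^ 4 / q := by
    rw [le_div_iff₀ hq]
    apply le_of_mul_le_mul_right _ hq
    calc (∑ t ∈ univ.erase (0 : F), (nu a E t : ℝ) ^ 2) * q * q =
        ∑ t ∈ univ.erase (0 : F), (nu a E t : ℝ) ^ 2 * q ^ 2 := by
          rw [← sum_mul]
          ring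
      _ ≤ _ := h2
      _ ≤ 6 * (1 + R) * n ^ 4 * q := by
          have e1 : q * q ^ (2 * k + 2) * n ^ 2 ≤ q * n ^ 4 := by
            rw [hD]
            have e5 : (q ^ k * q) ^ 2 ≤ n ^ 2 := by
              apply pow_le_pow_left₀ (by positivity)
              have : 0 < q ^ k * q := by positivity
              linarith
            calc q * (q ^ k * q) ^ 2 * n ^ 2 ≤ q * n ^ 2 * n ^ 2 := by
                  apply mul_le_mul_of_nonneg_right _ (by positivity)
                  exact mul_le_mul_of_nonneg_left e5 hq.le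
              _ = _ := by ring
          have e2 : q ^ 2 * (2 * R * n ^ 3 / q * n) = 2 * R * n ^ 4 * q := by
            field_simp
          rw [e2]
          nlinarith [mul_nonneg hq.le (pow_nonneg hn0.le 4)]
  have h0 := nu_zero_le hF hψ ha hγ E
  rw [← hqd, ← hn] at h0
  have hγn : ‖γ‖ = q ^ k * q := by
    have h1 := hγ.1
    rw [Fintype.card_fin, ← hqd, hD] at h1
    exact (pow_left_inj₀ (norm_nonneg _) (by positivity) two_ne_zero).1 h1
  have h0' : (nu a E 0 : ℝ) ≤ 2 / 3 * n ^ 2 := by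
    apply le_of_mul_le_mul_left _ hq
    refine h0.trans ?_
    rw [hγn]
    have e1 : n ^ 2 ≤ q * (1 / 3 * n ^ 2) := by nlinarith [sq_nonneg n]
    have e2 : q * (q ^ k * q) * n ≤ q * (1 / 3 * n ^ 2) := by
      have e3 : (q ^ k * q) * n ≤ 1 / 3 * n ^ 2 := by nlinarith
      calc q * (q ^ k * q) * n = q * ((q ^ k * q) * n) := by ring
        _ ≤ _ := mul_le_mul_of_nonneg_left e3 hq.le
    have e4 : q * (2 / 3 * n ^ 2) = q * (1 / 3 * n ^ 2) + q * (1 / 3 * n ^ 2) := by ring
    rw [e4]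
    exact add_le_add e1 e2
  have hT : n ^ 2 / 3 ≤ ∑ t ∈ univ.erase (0 : F), (nu a E t : ℝ) := by
    have h1 := sum_nu a E
    rw [← add_sum_erase univ _ (mem_univ (0 : F)), ← hn] at h1
    linarith
  -- Cauchy-Schwarz
  have hcs : (∑ t ∈ univ.erase (0 : F), (nu a E t : ℝ)) ^ 2 ≤
      ((DD a E).card : ℝ) * ∑ t ∈ univ.erase (0 : F), (nu a E t : ℝ) ^ 2 := by
    have e1 : ∑ t ∈ univ.erase (0 : F), (nu a E t : ℝ) =
        ∑ t ∈ univ.erase (0 : F), (if t ∈ DD a E then (1 : ℝ) else 0) * (nu a E t : ℝ) := by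
      apply sum_congr rfl
      intro t _
      by_cases ht : t ∈ DD a E
      · rw [if_pos ht, one_mul]
      · rw [if_neg ht, zero_mul]
        unfold nu
        rw [Nat.cast_eq_zero, card_eq_zero, filter_eq_empty_iff]
        intro p hp hpt
        exact ht (mem_image.2 ⟨p, hp, hpt⟩)
    rw [e1]
    refine (sum_mul_sq_le_sq_mul_sq _ _ _).trans ?_
    apply mul_le_mul_of_nonneg_right _ (sum_nonneg (fun _ _ => by positivity))
    have e2 : ∀ t : F, (if t ∈ DD a E then (1 : ℝ) else 0) ^ 2 =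
        if t ∈ DD a E then (1 : ℝ) else 0 := by
      intro t
      split_ifs <;> simp
    simp_rw [e2]
    refine (sum_le_sum_of_subset_of_nonneg (erase_subset _ _) (fun t _ _ => ?_)).trans ?_
    · split_ifs <;> simp
    · simp
  have hfin : (n ^ 2 / 3) ^ 2 ≤ ((DD a E).card : ℝ) * (6 * (1 + R) * n ^ 4 / q) := by
    refine (pow_le_pow_left₀ (by positivity) hT 2).trans (hcs.trans ?_)
    exact mul_le_mul_of_nonneg_left hS (Nat.cast_nonneg _)
  have e1 : (n ^ 2 / 3) ^ 2 = n ^ 4 * (1 / 9) := by ring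
  have e2 : ((DD a E).card : ℝ) * (6 * (1 + R) * n ^ 4 / q) =
      n ^ 4 * (((DD a E).card : ℝ) * (6 * (1 + R)) / q) := by ring
  rw [e1, e2] at hfin
  have h9 : (1 / 9 : ℝ) ≤ ((DD a E).card : ℝ) * (6 * (1 + R)) / q :=
    le_of_mul_le_mul_left hfin (by positivity)
  rw [le_div_iff₀ hq] at h9
  linarith

end Run7.h191.Sph
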