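import Mathlib
import Pool.Agent.H654R5.EnergyT

/-! Unions of norm one multiples of the unit sphere of a subfield: algebra. -/

set_option autoImplicit false
set_option linter.unusedSectionVars false

namespace Run7.h191.Sal

open Finset Pool.H654R5

section alg

variable {F : Type} [Field F] [DecidableEq F]

/-- the forced value of the first inner product -/
def a0 (w1 w2 w3 w4 : F) : F :=
  if (w1 * w2) ^ 2 = (w3 * w4) ^ 2 then (w3 ^ 2 + w4 ^ 2) / (2 * (w1 * w2)) else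
    -(w1 ^ 2 + w2 ^ 2) / (2 * (w1 * w2))

/-- the possible fourth elements -/
def Pos4 (w1 w2 w3 w4 : F) : Prop :=
  w4 ^ 2 * w2 ^ 2 = w1 ^ 2 * w3 ^ 2 ∨ w4 ^ 2 * w1 ^ 2 = w2 ^ 2 * w3 ^ 2 ∨
    w4 ^ 2 * w3 ^ 2 = w1 ^ 2 * w2 ^ 2

theorem forced (h2 : (2 : F) ≠ 0) {w1 w2 w3 w4 a b : F} (h1' : w1 ≠ 0) (h2' : w2 ≠ 0)
    (h3' : w3 ≠ 0) (h4' : w4 ≠ 0)
    (E1 : w1 ^ 2 + w2 ^ 2 + 2 * (w1 * w2) * a = w3 ^ 2 + w4 ^ 2 + 2 * (w3 * w4) * b)
    (E2 : (w1 ^ 2 + w2 ^ 2) * (w3 * w4) * a = (w3 ^ 2 + w4 ^ 2) * (w1 * w2) * b)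
    (E3 : (w1 ^ 2 + w2 ^ 2 + 2 * (w1 * w2) * a) * (w3 * w4) ^ 2 =
      (w3 ^ 2 + w4 ^ 2 + 2 * (w3 * w4) * b) * (w1 * w2) ^ 2) :
    (w3 ^ 2 = w1 ^ 2 ∧ w4 ^ 2 = w2 ^ 2) ∨ (w3 ^ 2 = w2 ^ 2 ∧ w4 ^ 2 = w1 ^ 2) ∨
      (a = a0 w1 w2 w3 w4 ∧ b = a0 w3 w4 w1 w2 ∧ Pos4 w1 w2 w3 w4) := by
  set P := w1 * w2 with hP
  set P' := w3 * w4 with hP'
  set A := w1 ^ 2 + w2 ^ 2 with hA
  set A' := w3 ^ 2 + w4 ^ 2 with hA'
  have hP0 : P ≠ 0 := mul_ne_zero h1' h2'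
  have hP0' : P' ≠ 0 := mul_ne_zero h3' h4'
  have h2P : 2 * P ≠ 0 := mul_ne_zero h2 hP0
  have h2P' : 2 * P' ≠ 0 := mul_ne_zero h2 hP0'
  by_cases hc : P ^ 2 = P' ^ 2
  · -- the products agree up to sign
    have hpos : Pos4 w1 w2 w3 w4 := by
      right; right
      have : (w1 * w2) ^ 2 = (w3 * w4) ^ 2 := hc
      linear_combination -this
    have key : (A - A') * (2 * P * a - A') = 0 ∧ (A - A') * (2 * P' * b - A) = 0 := by
      rcases sq_eq_sq_iff_eq_or_eq_neg.1 hc with h | h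
      · have e1 : A * a = A' * b := by
          apply mul_right_cancel₀ hP0
          rw [← h] at E2
          linear_combination E2
        rw [← h] at E1
        constructor
        · linear_combination (-A') * E1 + 2 * P * e1
        · rw [← h]
          linear_combination (-A) * E1 + 2 * P * e1
      · have hPP : P' = -P := by rw [h, neg_neg]
        have e1 : A * a = -(A' * b) := by
          apply mul_right_cancel₀ hP0
          rw [hPP] at E2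
          linear_combination -E2
        rw [hPP] at E1
        constructor
        · linear_combination (-A') * E1 + 2 * P * e1
        · rw [hPP]
          linear_combination (-A) * E1 + 2 * P * e1
    by_cases hAA : A = A'
    · have e1 : (w3 ^ 2 - w1 ^ 2) * (w3 ^ 2 - w2 ^ 2) = 0 := by
        have e2 : w1 ^ 2 + w2 ^ 2 = w3 ^ 2 + w4 ^ 2 := hAA
        have e3 : (w1 * w2) ^ 2 = (w3 * w4) ^ 2 := hc
        linear_combination (-w3 ^ 2) * e2 + e3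
      have e2 : w1 ^ 2 + w2 ^ 2 = w3 ^ 2 + w4 ^ 2 := hAA
      rcases mul_eq_zero.1 e1 with h | h
      · left
        have h' := sub_eq_zero.1 h
        exact ⟨h', by linear_combination -h' - e2⟩
      · right; left
        have h' := sub_eq_zero.1 h
        exact ⟨h', by linear_combination -h' - e2⟩
    · right; right
      have hAA' : A - A' ≠ 0 := sub_ne_zero.2 hAA
      have k1 : 2 * P * a - A' = 0 := (mul_eq_zero.1 key.1).resolve_left hAA'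
      have k2 : 2 * P' * b - A = 0 := (mul_eq_zero.1 key.2).resolve_left hAA'
      refine ⟨?_, ?_, hpos⟩
      · unfold a0
        rw [if_pos hc, eq_div_iff h2P]
        linear_combination k1
      · unfold a0
        rw [if_pos hc.symm, eq_div_iff h2P']
        linear_combination k2
  · -- the products are different
    right; right
    have hne : P' ^ 2 - P ^ 2 ≠ 0 := fun h => hc (sub_eq_zero.1 h).symm
    have k1 : A + 2 * P * a = 0 := by
      have : (A + 2 * P * a) * (P' ^ 2 - P ^ 2) = 0 := by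
        linear_combination E3 - P ^ 2 * E1
      exact (mul_eq_zero.1 this).resolve_right hne
    have k2 : A' + 2 * P' * b = 0 := by rw [← E1, k1]
    refine ⟨?_, ?_, ?_⟩
    · unfold a0
      rw [if_neg hc, eq_div_iff h2P]
      linear_combination k1
    · unfold a0
      rw [if_neg (fun h => hc h.symm), eq_div_iff h2P']
      linear_combination k2
    · have e1 : (A' * P) ^ 2 = (A * P') ^ 2 := by
        linear_combination (A' * P ^ 2) * k2 - (A * P' ^ 2) * k1 + (2 * P * P') * E2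
      have e3 : (w1 ^ 2 * w3 ^ 2 - w4 ^ 2 * w2 ^ 2) * (w2 ^ 2 * w3 ^ 2 - w4 ^ 2 * w1 ^ 2) = 0 := by
        have e2 : ((w3 ^ 2 + w4 ^ 2) * (w1 * w2)) ^ 2 = ((w1 ^ 2 + w2 ^ 2) * (w3 * w4)) ^ 2 := e1
        linear_combination e2
      rcases mul_eq_zero.1 e3 with h | h
      · left
        exact (sub_eq_zero.1 h).symm
      · right; left
        exact (sub_eq_zero.1 h).symm

end alg


section sol

variable {K F : Type} [Field K] [Fintype K] [DecidableEq K] [Field F] [DecidableEq F] [Algebra K F]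
  {d : ℕ}

/-- four vectors -/
abbrev V4 (K : Type) (d : ℕ) : Type := (Fin d → K) × (Fin d → K) × (Fin d → K) × (Fin d → K)

/-- the equation `w1 x1 + w2 x2 = w3 x3 + w4 x4` -/
def Rel (w1 w2 w3 w4 : F) (x : V4 K d) : Prop :=
  ∀ i, w1 * algebraMap K F (x.1 i) + w2 * algebraMap K F (x.2.1 i) =
    w3 * algebraMap K F (x.2.2.1 i) + w4 * algebraMap K F (x.2.2.2 i)

instance (w1 w2 w3 w4 : F) (x : V4 K d) : Decidable (Rel w1 w2 w3 w4 x) := by
  unfold Rel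
  infer_instance

/-- the solutions for fixed coefficients -/
def Sol4 (S : Finset (Fin d → K)) (w1 w2 w3 w4 : F) : Finset (V4 K d) :=
  (S ×ˢ S ×ˢ S ×ˢ S).filter (fun x => Rel w1 w2 w3 w4 x)

theorem mem_Sol4 {S : Finset (Fin d → K)} {w1 w2 w3 w4 : F} {x : V4 K d} :
    x ∈ Sol4 S w1 w2 w3 w4 ↔ (x.1 ∈ S ∧ x.2.1 ∈ S ∧ x.2.2.1 ∈ S ∧ x.2.2.2 ∈ S) ∧
      Rel w1 w2 w3 w4 x := by
  unfold Sol4
  rw [mem_filter, mem_product, mem_product, mem_product]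

theorem rel_conj {σ : F →+* F} (hσ : ∀ k : K, σ (algebraMap K F k) = algebraMap K F k)
    {w1 w2 w3 w4 : F} (h1 : w1 * σ w1 = 1) (h2 : w2 * σ w2 = 1) (h3 : w3 * σ w3 = 1)
    (h4 : w4 * σ w4 = 1) {x : V4 K d} (h : Rel w1 w2 w3 w4 x) :
    Rel w1⁻¹ w2⁻¹ w3⁻¹ w4⁻¹ x := by
  have e1 : σ w1 = w1⁻¹ := eq_inv_of_mul_eq_one_right h1
  have e2 : σ w2 = w2⁻¹ := eq_inv_of_mul_eq_one_right h2
  have e3 : σ w3 = w3⁻¹ := eq_inv_of_mul_eq_one_right h3
  have e4 : σ w4 = w4⁻¹ := eq_inv_of_mul_eq_one_right h4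
  intro i
  have := congrArg σ (h i)
  simp only [map_add, map_mul, hσ, e1, e2, e3, e4] at this
  exact this

/-- inner product, in the big field -/
def dt (x y : Fin d → K) : F := algebraMap K F (∑ i, x i * y i)

theorem sum_four {x y : Fin d → K} (hx : ∑ i, x i ^ 2 = 1) (hy : ∑ i, y i ^ 2 = 1) (u v u' v' : F) :
    ∑ i, (u * algebraMap K F (x i) + v * algebraMap K F (y i)) *
      (u' * algebraMap K F (x i) + v' * algebraMap K F (y i)) =
      u * u' + v * v' + (u * v' + v * u') * (dt x y : F) := by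
  have e1 : ∀ i, (u * algebraMap K F (x i) + v * algebraMap K F (y i)) *
      (u' * algebraMap K F (x i) + v' * algebraMap K F (y i)) =
      u * u' * algebraMap K F (x i ^ 2) + v * v' * algebraMap K F (y i ^ 2) +
        (u * v' + v * u') * algebraMap K F (x i * y i) := by
    intro i
    simp only [map_mul, map_pow]
    ring
  simp_rw [e1]
  rw [sum_add_distrib, sum_add_distrib, ← mul_sum, ← mul_sum, ← mul_sum, ← map_sum, ← map_sum,
    ← map_sum, hx, hy, map_one, mul_one, mul_one]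
  rfl

theorem rel_eqs {w1 w2 w3 w4 : F} (h1' : w1 ≠ 0) (h2' : w2 ≠ 0) (h3' : w3 ≠ 0) (h4' : w4 ≠ 0)
    {x : V4 K d} (h : Rel w1 w2 w3 w4 x) (h' : Rel w1⁻¹ w2⁻¹ w3⁻¹ w4⁻¹ x)
    (hx1 : ∑ i, x.1 i ^ 2 = 1) (hx2 : ∑ i, x.2.1 i ^ 2 = 1) (hx3 : ∑ i, x.2.2.1 i ^ 2 = 1)
    (hx4 : ∑ i, x.2.2.2 i ^ 2 = 1) :
    (w1 ^ 2 + w2 ^ 2 + 2 * (w1 * w2) * dt x.1 x.2.1 =
      w3 ^ 2 + w4 ^ 2 + 2 * (w3 * w4) * dt x.2.2.1 x.2.2.2) ∧
    ((w1 ^ 2 + w2 ^ 2) * (w3 * w4) * dt x.1 x.2.1 =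
      (w3 ^ 2 + w4 ^ 2) * (w1 * w2) * dt x.2.2.1 x.2.2.2) ∧
    ((w1 ^ 2 + w2 ^ 2 + 2 * (w1 * w2) * dt x.1 x.2.1) * (w3 * w4) ^ 2 =
      (w3 ^ 2 + w4 ^ 2 + 2 * (w3 * w4) * dt x.2.2.1 x.2.2.2) * (w1 * w2) ^ 2) := by
  have s1 := sum_four hx1 hx2 w1 w2 w1 w2
  have s1' := sum_four hx3 hx4 w3 w4 w3 w4
  have s2 := sum_four hx1 hx2 w1 w2 w1⁻¹ w2⁻¹
  have s2' := sum_four hx3 hx4 w3 w4 w3⁻¹ w4⁻¹
  have s3 := sum_four hx1 hx2 w1⁻¹ w2⁻¹ w1⁻¹ w2⁻¹
  have s3' := sum_four hx3 hx4 w3⁻¹ w4⁻¹ w3⁻¹ w4⁻¹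
  have t1 : ∑ i, (w1 * algebraMap K F (x.1 i) + w2 * algebraMap K F (x.2.1 i)) *
      (w1 * algebraMap K F (x.1 i) + w2 * algebraMap K F (x.2.1 i)) =
      ∑ i, (w3 * algebraMap K F (x.2.2.1 i) + w4 * algebraMap K F (x.2.2.2 i)) *
      (w3 * algebraMap K F (x.2.2.1 i) + w4 * algebraMap K F (x.2.2.2 i)) :=
    sum_congr rfl (fun i _ => by rw [h i])
  have t2 : ∑ i, (w1 * algebraMap K F (x.1 i) + w2 * algebraMap K F (x.2.1 i)) *
      (w1⁻¹ * algebraMap K F (x.1 i) + w2⁻¹ * algebraMap K F (x.2.1 i)) =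
      ∑ i, (w3 * algebraMap K F (x.2.2.1 i) + w4 * algebraMap K F (x.2.2.2 i)) *
      (w3⁻¹ * algebraMap K F (x.2.2.1 i) + w4⁻¹ * algebraMap K F (x.2.2.2 i)) :=
    sum_congr rfl (fun i _ => by rw [h i, h' i])
  have t3 : ∑ i, (w1⁻¹ * algebraMap K F (x.1 i) + w2⁻¹ * algebraMap K F (x.2.1 i)) *
      (w1⁻¹ * algebraMap K F (x.1 i) + w2⁻¹ * algebraMap K F (x.2.1 i)) =
      ∑ i, (w3⁻¹ * algebraMap K F (x.2.2.1 i) + w4⁻¹ * algebraMap K F (x.2.2.2 i)) *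
      (w3⁻¹ * algebraMap K F (x.2.2.1 i) + w4⁻¹ * algebraMap K F (x.2.2.2 i)) :=
    sum_congr rfl (fun i _ => by rw [h' i])
  rw [s1, s1'] at t1
  rw [s2, s2'] at t2
  rw [s3, s3'] at t3
  set a : F := dt x.1 x.2.1
  set b : F := dt x.2.2.1 x.2.2.2
  refine ⟨by linear_combination t1, ?_, ?_⟩
  · field_simp at t2
    linear_combination t2
  · field_simp at t3
    linear_combination t3

end sol

end Run7.h191.Sal
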