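import Mathlib
import Pool.Agent.Run7.h191.Sal1

/-! Unions of norm one multiples of the unit sphere of a subfield: the energy. -/

set_option autoImplicit false
set_option linter.unusedSectionVars false

namespace Run7.h191.Sal

open Finset Pool.H654R5

variable {K F : Type} [Field K] [Fintype K] [DecidableEq K] [Field F] [DecidableEq F] [Algebra K F]
  {d : ℕ}

/-- `x3, x4` are determined by `x1, x2` -/
theorem det34 {w1 w2 w3 w4 : F} (h3' : w3 ≠ 0) (h4' : w4 ≠ 0) (h : w3 ^ 2 ≠ w4 ^ 2)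
    {x y : V4 K d} (hx : Rel w1 w2 w3 w4 x) (hx' : Rel w1⁻¹ w2⁻¹ w3⁻¹ w4⁻¹ x)
    (hy : Rel w1 w2 w3 w4 y) (hy' : Rel w1⁻¹ w2⁻¹ w3⁻¹ w4⁻¹ y) (e1 : x.1 = y.1)
    (e2 : x.2.1 = y.2.1) : x = y := by
  have key : ∀ i, x.2.2.1 i = y.2.2.1 i ∧ x.2.2.2 i = y.2.2.2 i := by
    intro i
    have a1 := hx i
    have a2 := hx' i
    have b1 := hy i
    have b2 := hy' i
    rw [e1, e2] at a1 a2
    set u := algebraMap K F (x.2.2.1 i)
    set v := algebraMap K F (x.2.2.2 i)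
    set u' := algebraMap K F (y.2.2.1 i)
    set v' := algebraMap K F (y.2.2.2 i)
    have c1 : w3 * (u - u') = -(w4 * (v - v')) := by linear_combination b1 - a1
    have c2 : w3⁻¹ * (u - u') = -(w4⁻¹ * (v - v')) := by linear_combination b2 - a2
    have c3 : w4 * (u - u') = -(w3 * (v - v')) := by
      field_simp at c2
      linear_combination c2
    have c4 : (w3 ^ 2 - w4 ^ 2) * (u - u') = 0 := by linear_combination w3 * c1 - w4 * c3
    have c5 : u - u' = 0 := (mul_eq_zero.1 c4).resolve_left (sub_ne_zero.2 h)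
    have c6 : v - v' = 0 := by
      rw [c5, mul_zero] at c1
      have : w4 * (v - v') = 0 := by linear_combination c1
      exact (mul_eq_zero.1 this).resolve_left h4'
    exact ⟨(algebraMap K F).injective (sub_eq_zero.1 c5), (algebraMap K F).injective (sub_eq_zero.1 c6)⟩
  obtain ⟨x1, x2, x3, x4⟩ := x
  obtain ⟨y1, y2, y3, y4⟩ := y
  simp only at e1 e2 key
  subst e1
  subst e2
  have f3 : x3 = y3 := funext (fun i => (key i).1)
  have f4 : x4 = y4 := funext (fun i => (key i).2)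
  rw [f3, f4]

/-- number of pairs with a given inner product -/
theorem card_dt {S : Finset (Fin d → K)} (hS : ∀ a ∈ S, ∑ i, a i ^ 2 = 1) {B : ℕ}
    (hB : ∀ w : Fin d → K, w ≠ 0 → ∀ c : K, (S.filter fun a => ∑ i, w i * a i = c).card ≤ B)
    (c : F) : ((S ×ˢ S).filter (fun t => (dt t.1 t.2 : F) = c)).card ≤ S.card * B := by
  rw [card_filter, sum_product]
  calc _ ≤ ∑ a ∈ S, B := by
        refine sum_le_sum fun a ha => ?_
        rw [← card_filter]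
        by_cases hc : ∃ k : K, algebraMap K F k = c
        · obtain ⟨k, rfl⟩ := hc
          refine le_trans (card_le_card ?_) (hB a (En.ne_zero_of_sph (hS a ha)) k)
          intro y hy
          rw [mem_filter] at hy ⊢
          exact ⟨hy.1, (algebraMap K F).injective hy.2⟩
        · rw [card_eq_zero.2]
          · exact Nat.zero_le _
          · rw [filter_eq_empty_iff]
            intro y _ hy
            exact hc ⟨_, hy⟩
    _ = S.card * B := by rw [sum_const, smul_eq_mul]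

/-- hypotheses on the coefficients -/
structure NormOne (σ : F →+* F) (J : Finset F) : Prop where
  one : ∀ w ∈ J, w * σ w = 1
  inj : ∀ w ∈ J, ∀ w' ∈ J, w ^ 2 = w' ^ 2 → w = w'

theorem NormOne.ne {σ : F →+* F} {J : Finset F} (h : NormOne σ J) {w : F} (hw : w ∈ J) : w ≠ 0 := by
  rintro rfl
  have := h.one 0 hw
  rw [zero_mul] at this
  exact zero_ne_one this

/-- swapping the sides -/
theorem card_swap (S : Finset (Fin d → K)) (w1 w2 w3 w4 : F) :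
    (Sol4 S w1 w2 w3 w4).card = (Sol4 S w3 w4 w1 w2).card := by
  apply card_bij (fun x _ => ((x.2.2.1, x.2.2.2, x.1, x.2.1) : V4 K d))
  · intro x hx
    rw [mem_Sol4] at hx ⊢
    exact ⟨⟨hx.1.2.2.1, hx.1.2.2.2, hx.1.1, hx.1.2.1⟩, fun i => (hx.2 i).symm⟩
  · rintro ⟨x1, x2, x3, x4⟩ _ ⟨y1, y2, y3, y4⟩ _ h
    simp only [Prod.mk.injEq] at h ⊢
    tauto
  · rintro ⟨x1, x2, x3, x4⟩ hx
    rw [mem_Sol4] at hx
    refine ⟨(x3, x4, x1, x2), ?_, rfl⟩
    rw [mem_Sol4]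
    exact ⟨⟨hx.1.2.2.1, hx.1.2.2.2, hx.1.1, hx.1.2.1⟩, fun i => (hx.2 i).symm⟩

section bounds

variable {σ : F →+* F} (hσ : ∀ k : K, σ (algebraMap K F k) = algebraMap K F k) {J : Finset F}
  (hJ : NormOne σ J) {S : Finset (Fin d → K)} (hS : ∀ a ∈ S, ∑ i, a i ^ 2 = 1)

include hσ hJ in
theorem sol_conj {w1 w2 w3 w4 : F} (h1 : w1 ∈ J) (h2 : w2 ∈ J) (h3 : w3 ∈ J) (h4 : w4 ∈ J)
    {x : V4 K d} (hx : Rel w1 w2 w3 w4 x) : Rel w1⁻¹ w2⁻¹ w3⁻¹ w4⁻¹ x :=
  rel_conj hσ (hJ.one _ h1) (hJ.one _ h2) (hJ.one _ h3) (hJ.one _ h4) hx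

include hσ hJ in
/-- at most `|S|^2` solutions if `w3 ≠ w4` -/
theorem sol_le_sq {w1 w2 w3 w4 : F} (h1 : w1 ∈ J) (h2 : w2 ∈ J) (h3 : w3 ∈ J) (h4 : w4 ∈ J)
    (h : w3 ≠ w4) : (Sol4 S w1 w2 w3 w4).card ≤ S.card ^ 2 := by
  rw [pow_two, ← card_product]
  refine card_le_card_of_injOn (fun x => (x.1, x.2.1)) ?_ ?_
  · intro x hx
    rw [mem_coe, mem_Sol4] at hx
    rw [mem_coe, mem_product]
    exact ⟨hx.1.1, hx.1.2.1⟩
  · intro x hx y hy hxy
    rw [mem_coe, mem_Sol4] at hx hy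
    simp only [Prod.mk.injEq] at hxy
    exact det34 (hJ.ne h3) (hJ.ne h4) (fun e => h (hJ.inj _ h3 _ h4 e)) hx.2
      (sol_conj hσ hJ h1 h2 h3 h4 hx.2) hy.2 (sol_conj hσ hJ h1 h2 h3 h4 hy.2) hxy.1 hxy.2

include hσ hJ hS in
/-- the forced values -/
theorem sol_forced (h2F : (2 : F) ≠ 0) {w1 w2 w3 w4 : F} (h1 : w1 ∈ J) (h2 : w2 ∈ J) (h3 : w3 ∈ J)
    (h4 : w4 ∈ J) (hn1 : ¬ (w3 = w1 ∧ w4 = w2)) (hn2 : ¬ (w3 = w2 ∧ w4 = w1)) {x : V4 K d}
    (hx : x ∈ Sol4 S w1 w2 w3 w4) :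
    (dt x.1 x.2.1 : F) = a0 w1 w2 w3 w4 ∧ (dt x.2.2.1 x.2.2.2 : F) = a0 w3 w4 w1 w2 ∧
      Pos4 w1 w2 w3 w4 := by
  rw [mem_Sol4] at hx
  obtain ⟨⟨m1, m2, m3, m4⟩, hr⟩ := hx
  obtain ⟨e1, e2, e3⟩ := rel_eqs (hJ.ne h1) (hJ.ne h2) (hJ.ne h3) (hJ.ne h4) hr
    (sol_conj hσ hJ h1 h2 h3 h4 hr) (hS _ m1) (hS _ m2) (hS _ m3) (hS _ m4)
  rcases forced h2F (hJ.ne h1) (hJ.ne h2) (hJ.ne h3) (hJ.ne h4) e1 e2 e3 with h | h | h
  · exact absurd ⟨hJ.inj _ h3 _ h1 h.1, hJ.inj _ h4 _ h2 h.2⟩ hn1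
  · exact absurd ⟨hJ.inj _ h3 _ h2 h.1, hJ.inj _ h4 _ h1 h.2⟩ hn2
  · exact h

include hσ hJ hS in
/-- the main bound if `w3 ≠ w4` -/
theorem sol_main {B : ℕ}
    (hB : ∀ w : Fin d → K, w ≠ 0 → ∀ c : K, (S.filter fun a => ∑ i, w i * a i = c).card ≤ B)
    (h2F : (2 : F) ≠ 0) {w1 w2 w3 w4 : F} (h1 : w1 ∈ J) (h2 : w2 ∈ J) (h3 : w3 ∈ J)
    (h4 : w4 ∈ J) (hn1 : ¬ (w3 = w1 ∧ w4 = w2)) (hn2 : ¬ (w3 = w2 ∧ w4 = w1)) (h : w3 ≠ w4) :
    (Sol4 S w1 w2 w3 w4).card ≤ S.card * B := by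
  refine le_trans ?_ (card_dt hS hB (a0 w1 w2 w3 w4))
  refine card_le_card_of_injOn (fun x => (x.1, x.2.1)) ?_ ?_
  · intro x hx
    have hf := sol_forced hσ hJ hS h2F h1 h2 h3 h4 hn1 hn2 (mem_coe.1 hx)
    rw [mem_coe, mem_Sol4] at hx
    rw [mem_coe, mem_filter, mem_product]
    exact ⟨⟨hx.1.1, hx.1.2.1⟩, hf.1⟩
  · intro x hx y hy hxy
    rw [mem_coe, mem_Sol4] at hx hy
    simp only [Prod.mk.injEq] at hxy
    exact det34 (hJ.ne h3) (hJ.ne h4) (fun e => h (hJ.inj _ h3 _ h4 e)) hx.2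
      (sol_conj hσ hJ h1 h2 h3 h4 hx.2) hy.2 (sol_conj hσ hJ h1 h2 h3 h4 hy.2) hxy.1 hxy.2

include hσ hJ hS in
/-- the case `w1 = w2 ≠ w3 = w4` -/
theorem sol_two {w w' : F} (h1 : w ∈ J) (h3 : w' ∈ J) (h : w ≠ w') :
    (Sol4 S w w w' w').card ≤ S.card ^ 2 := by
  rw [pow_two, ← card_product]
  have hz : ∀ x ∈ Sol4 S w w w' w', x.1 + x.2.1 = 0 ∧ x.2.2.1 + x.2.2.2 = 0 := by
    intro x hx
    rw [mem_Sol4] at hx
    have hr := hx.2
    have hr' := sol_conj hσ hJ h1 h1 h3 h3 hr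
    have key : ∀ i, x.1 i + x.2.1 i = 0 ∧ x.2.2.1 i + x.2.2.2 i = 0 := by
      intro i
      have a1 := hr i
      have a2 := hr' i
      set u := algebraMap K F (x.1 i) with hu
      set v := algebraMap K F (x.2.1 i) with hv
      set u' := algebraMap K F (x.2.2.1 i) with hu'
      set v' := algebraMap K F (x.2.2.2 i) with hv'
      have hw := hJ.ne h1
      have hw' := hJ.ne h3
      have c1 : w * (u + v) = w' * (u' + v') := by linear_combination a1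
      have c2 : w' * (u + v) = w * (u' + v') := by
        have : w⁻¹ * (u + v) = w'⁻¹ * (u' + v') := by linear_combination a2
        field_simp at this
        linear_combination this
      have hne : w ^ 2 - w' ^ 2 ≠ 0 := sub_ne_zero.2 (fun e => h (hJ.inj _ h1 _ h3 e))
      have c3 : (w ^ 2 - w' ^ 2) * (u + v) = 0 := by linear_combination w * c1 - w' * c2
      have c4 : (w ^ 2 - w' ^ 2) * (u' + v') = 0 := by linear_combination w' * c1 - w * c2
      have c5 := (mul_eq_zero.1 c3).resolve_left hne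
      have c6 := (mul_eq_zero.1 c4).resolve_left hne
      constructor
      · apply (algebraMap K F).injective
        rw [map_add, map_zero]
        exact c5
      · apply (algebraMap K F).injective
        rw [map_add, map_zero]
        exact c6
    exact ⟨funext (fun i => (key i).1), funext (fun i => (key i).2)⟩
  refine card_le_card_of_injOn (fun x => (x.1, x.2.2.1)) ?_ ?_
  · intro x hx
    rw [mem_coe, mem_Sol4] at hx
    rw [mem_coe, mem_product]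
    exact ⟨hx.1.1, hx.1.2.2.1⟩
  · rintro ⟨x1, x2, x3, x4⟩ hx ⟨y1, y2, y3, y4⟩ hy hxy
    obtain ⟨p1, p2⟩ := hz _ (mem_coe.1 hx)
    obtain ⟨q1, q2⟩ := hz _ (mem_coe.1 hy)
    simp only [Prod.mk.injEq] at hxy p1 p2 q1 q2 ⊢
    obtain ⟨rfl, rfl⟩ := hxy
    exact ⟨rfl, add_left_cancel (p1.trans q1.symm), rfl, add_left_cancel (p2.trans q2.symm)⟩

/-- the case `w1 = w2 = w3 = w4` -/
theorem sol_one (h2K : (2 : K) ≠ 0) (hS : ∀ a ∈ S, ∑ i, a i ^ 2 = 1) {B : ℕ}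
    (hB : ∀ w : Fin d → K, w ≠ 0 → ∀ c : K, (S.filter fun a => ∑ i, w i * a i = c).card ≤ B)
    {w : F} (hw : w ≠ 0) : (Sol4 S w w w w).card ≤ S.card ^ 2 * B + S.card ^ 2 := by
  refine le_trans ?_ (En.cnt0 h2K S hS B hB)
  have hz : ∀ x ∈ Sol4 S w w w w, x.2.2.2 = x.1 + x.2.1 - x.2.2.1 := by
    intro x hx
    rw [mem_Sol4] at hx
    funext i
    apply (algebraMap K F).injective
    simp only [Pi.sub_apply, Pi.add_apply, map_sub, map_add]
    apply mul_left_cancel₀ hw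
    have := hx.2 i
    linear_combination -this
  refine card_le_card_of_injOn (fun x => (x.1, x.2.1, x.2.2.1)) ?_ ?_
  · intro x hx
    have h1 := hz _ (mem_coe.1 hx)
    rw [mem_coe, mem_Sol4] at hx
    rw [mem_coe, mem_filter, mem_product, mem_product]
    refine ⟨⟨hx.1.1, hx.1.2.1, hx.1.2.2.1⟩, ?_⟩
    simp only
    rw [← h1]
    exact hx.1.2.2.2
  · rintro ⟨x1, x2, x3, x4⟩ hx ⟨y1, y2, y3, y4⟩ hy hxy
    have h1 := hz _ (mem_coe.1 hx)
    have h2 := hz _ (mem_coe.1 hy)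
    simp only [Prod.mk.injEq] at hxy h1 h2 ⊢
    obtain ⟨rfl, rfl, rfl⟩ := hxy
    exact ⟨rfl, rfl, rfl, h1.trans h2.symm⟩

instance (w1 w2 w3 w4 : F) : Decidable (Pos4 w1 w2 w3 w4) := by
  unfold Pos4
  infer_instance

include hσ hJ in
/-- the bound for all coefficients -/
theorem sol_bound (h2K : (2 : K) ≠ 0) (h2F : (2 : F) ≠ 0) (hS : ∀ a ∈ S, ∑ i, a i ^ 2 = 1) {B : ℕ}
    (hB : ∀ w : Fin d → K, w ≠ 0 → ∀ c : K, (S.filter fun a => ∑ i, w i * a i = c).card ≤ B)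
    {w1 w2 w3 w4 : F} (h1 : w1 ∈ J) (h2 : w2 ∈ J) (h3 : w3 ∈ J) (h4 : w4 ∈ J) :
    (Sol4 S w1 w2 w3 w4).card ≤
      (if w1 = w2 ∧ w2 = w3 ∧ w3 = w4 then S.card ^ 2 * B + S.card ^ 2 else 0) +
      (if w3 = w1 ∧ w4 = w2 then S.card ^ 2 else 0) +
      (if w3 = w2 ∧ w4 = w1 then S.card ^ 2 else 0) +
      (if w1 = w2 ∧ w3 = w4 then S.card ^ 2 else 0) +
      (if Pos4 w1 w2 w3 w4 then S.card * B else 0) := by
  by_cases hc1 : w3 = w1 ∧ w4 = w2
  · by_cases hc : w3 = w4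
    · obtain ⟨rfl, rfl⟩ := hc1
      subst hc
      have := sol_one h2K hS hB (hJ.ne h1) (w := w3)
      rw [if_pos ⟨rfl, rfl, rfl⟩]
      omega
    · have := sol_le_sq hσ hJ (S := S) h1 h2 h3 h4 hc
      rw [if_pos hc1]
      omega
  · by_cases hc2 : w3 = w2 ∧ w4 = w1
    · have hc : w3 ≠ w4 := by
        intro h
        exact hc1 ⟨h.trans hc2.2, h.symm.trans hc2.1⟩
      have := sol_le_sq hσ hJ (S := S) h1 h2 h3 h4 hc
      rw [if_pos hc2]
      omega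
    · by_cases he : (Sol4 S w1 w2 w3 w4) = ∅
      · rw [he, card_empty]
        exact Nat.zero_le _
      · obtain ⟨x, hx⟩ := nonempty_iff_ne_empty.2 he
        have hP : Pos4 w1 w2 w3 w4 := (sol_forced hσ hJ hS h2F h1 h2 h3 h4 hc1 hc2 hx).2.2
        rw [if_pos hP]
        by_cases hc : w3 = w4
        · by_cases hc' : w1 = w2
          · have hne : w1 ≠ w3 := by
              intro h
              exact hc1 ⟨h.symm, by rw [← hc, ← h, hc']⟩
            subst hc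
            subst hc'
            have := sol_two hσ hJ hS h1 h3 hne
            rw [if_pos (⟨rfl, rfl⟩ : w1 = w1 ∧ w3 = w3)]
            omega
          · have := sol_main hσ hJ hS hB h2F h3 h4 h1 h2 (w1 := w3) (w2 := w4) (w3 := w1)
              (w4 := w2) (fun h => hc1 ⟨h.1.symm, h.2.symm⟩)
              (fun h => hc2 ⟨h.2.symm, h.1.symm⟩) hc'
            rw [card_swap] at this
            omega
        · have := sol_main hσ hJ hS hB h2F h1 h2 h3 h4 hc1 hc2 hc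
          omega

end bounds

end Run7.h191.Sal
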