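import Mathlib
import Pool.Agent.Run7.h191.Sal2

/-! Unions of norm one multiples of the unit sphere of a subfield: the energy, continued. -/

set_option autoImplicit false
set_option linter.unusedSectionVars false

namespace Run7.h191.Sal

open Finset Pool.H654R5

variable {K F : Type} [Field K] [Fintype K] [DecidableEq K] [Field F] [DecidableEq F] [Algebra K F]
  {d : ℕ}

/-- the point `w x` -/
def pt (y : F × (Fin d → K)) : Fin d → F := fun i => y.1 * algebraMap K F (y.2 i)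

/-- the union of the `w S` -/
def TT (J : Finset F) (S : Finset (Fin d → K)) : Finset (Fin d → F) := (J ×ˢ S).image pt

theorem energy_TT (J : Finset F) (S : Finset (Fin d → K)) :
    energy (TT J S) ≤ ∑ j ∈ J ×ˢ J ×ˢ J ×ˢ J, (Sol4 S j.1 j.2.1 j.2.2.1 j.2.2.2).card := by
  rw [← card_sigma]
  unfold energy
  refine le_trans (card_le_card (t := image
    (fun z : (_ : F × F × F × F) × V4 K d => ((pt (z.1.1, z.2.1), pt (z.1.2.1, z.2.2.1),
      pt (z.1.2.2.1, z.2.2.2.1), pt (z.1.2.2.2, z.2.2.2.2)) : (Fin d → F) × (Fin d → F) ×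
        (Fin d → F) × (Fin d → F)))
    ((J ×ˢ J ×ˢ J ×ˢ J).sigma (fun j => Sol4 S j.1 j.2.1 j.2.2.1 j.2.2.2))) ?_) card_image_le
  rintro ⟨e1, e2, e3, e4⟩ he
  rw [mem_filter, mem_product, mem_product, mem_product] at he
  obtain ⟨⟨m1, m2, m3, m4⟩, heq⟩ := he
  simp only at m1 m2 m3 m4 heq
  obtain ⟨⟨w1, x1⟩, hx1, rfl⟩ := mem_image.1 m1
  obtain ⟨⟨w2, x2⟩, hx2, rfl⟩ := mem_image.1 m2
  obtain ⟨⟨w3, x3⟩, hx3, rfl⟩ := mem_image.1 m3
  obtain ⟨⟨w4, x4⟩, hx4, rfl⟩ := mem_image.1 m4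
  rw [mem_product] at hx1 hx2 hx3 hx4
  rw [mem_image]
  refine ⟨⟨(w1, w2, w3, w4), (x1, x2, x3, x4)⟩, ?_, rfl⟩
  rw [mem_sigma]
  refine ⟨?_, ?_⟩
  · simp only [mem_product]
    exact ⟨hx1.1, hx2.1, hx3.1, hx4.1⟩
  · rw [mem_Sol4]
    refine ⟨⟨hx1.2, hx2.2, hx3.2, hx4.2⟩, fun i => ?_⟩
    exact congrFun heq i

theorem card_all (J : Finset F) : ((J ×ˢ J ×ˢ J ×ˢ J).filter
    (fun j => j.1 = j.2.1 ∧ j.2.1 = j.2.2.1 ∧ j.2.2.1 = j.2.2.2)).card ≤ J.card := by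
  refine card_le_card_of_injOn (fun j => j.1) ?_ ?_
  · rintro ⟨j1, j2, j3, j4⟩ hx
    rw [mem_coe, mem_filter] at hx
    simp only [mem_product] at hx
    exact hx.1.1
  · rintro ⟨j1, j2, j3, j4⟩ hx ⟨k1, k2, k3, k4⟩ hx' h
    rw [mem_coe, mem_filter] at hx hx'
    simp only at hx hx' h
    obtain ⟨-, rfl, rfl, rfl⟩ := hx
    obtain ⟨-, rfl, rfl, rfl⟩ := hx'
    rw [h]

theorem card_a (J : Finset F) : ((J ×ˢ J ×ˢ J ×ˢ J).filter
    (fun j => j.2.2.1 = j.1 ∧ j.2.2.2 = j.2.1)).card ≤ J.card ^ 2 := by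
  rw [pow_two, ← card_product]
  refine card_le_card_of_injOn (fun j => (j.1, j.2.1)) ?_ ?_
  · rintro ⟨j1, j2, j3, j4⟩ hx
    rw [mem_coe, mem_filter] at hx
    simp only [mem_product] at hx
    rw [mem_coe, mem_product]
    exact ⟨hx.1.1, hx.1.2.1⟩
  · rintro ⟨j1, j2, j3, j4⟩ hx ⟨k1, k2, k3, k4⟩ hx' h
    rw [mem_coe, mem_filter] at hx hx'
    simp only [Prod.mk.injEq] at hx hx' h ⊢
    obtain ⟨-, rfl, rfl⟩ := hx
    obtain ⟨-, rfl, rfl⟩ := hx'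
    exact ⟨h.1, h.2, h.1, h.2⟩

theorem card_b (J : Finset F) : ((J ×ˢ J ×ˢ J ×ˢ J).filter
    (fun j => j.2.2.1 = j.2.1 ∧ j.2.2.2 = j.1)).card ≤ J.card ^ 2 := by
  rw [pow_two, ← card_product]
  refine card_le_card_of_injOn (fun j => (j.1, j.2.1)) ?_ ?_
  · rintro ⟨j1, j2, j3, j4⟩ hx
    rw [mem_coe, mem_filter] at hx
    simp only [mem_product] at hx
    rw [mem_coe, mem_product]
    exact ⟨hx.1.1, hx.1.2.1⟩
  · rintro ⟨j1, j2, j3, j4⟩ hx ⟨k1, k2, k3, k4⟩ hx' h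
    rw [mem_coe, mem_filter] at hx hx'
    simp only [Prod.mk.injEq] at hx hx' h ⊢
    obtain ⟨-, rfl, rfl⟩ := hx
    obtain ⟨-, rfl, rfl⟩ := hx'
    exact ⟨h.1, h.2, h.2, h.1⟩

theorem card_c (J : Finset F) : ((J ×ˢ J ×ˢ J ×ˢ J).filter
    (fun j => j.1 = j.2.1 ∧ j.2.2.1 = j.2.2.2)).card ≤ J.card ^ 2 := by
  rw [pow_two, ← card_product]
  refine card_le_card_of_injOn (fun j => (j.1, j.2.2.1)) ?_ ?_
  · rintro ⟨j1, j2, j3, j4⟩ hx
    rw [mem_coe, mem_filter] at hx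
    simp only [mem_product] at hx
    rw [mem_coe, mem_product]
    exact ⟨hx.1.1, hx.1.2.2.1⟩
  · rintro ⟨j1, j2, j3, j4⟩ hx ⟨k1, k2, k3, k4⟩ hx' h
    rw [mem_coe, mem_filter] at hx hx'
    simp only [Prod.mk.injEq] at hx hx' h ⊢
    obtain ⟨-, rfl, rfl⟩ := hx
    obtain ⟨-, rfl, rfl⟩ := hx'
    exact ⟨h.1, h.1, h.2, h.2⟩

theorem card_pos {σ : F →+* F} {J : Finset F} (hJ : NormOne σ J) {w1 w2 w3 : F} (h1 : w1 ∈ J)
    (h2 : w2 ∈ J) (h3 : w3 ∈ J) : (J.filter (fun w4 => Pos4 w1 w2 w3 w4)).card ≤ 3 := by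
  have hone : ∀ u v : F, u ≠ 0 → (J.filter (fun w4 => w4 ^ 2 * u ^ 2 = v)).card ≤ 1 := by
    intro u v hu
    rw [card_le_one]
    intro x hx y hy
    rw [mem_filter] at hx hy
    apply hJ.inj _ hx.1 _ hy.1
    exact mul_right_cancel₀ (pow_ne_zero 2 hu) (hx.2.trans hy.2.symm)
  have hsub : J.filter (fun w4 => Pos4 w1 w2 w3 w4) ⊆
      J.filter (fun w4 => w4 ^ 2 * w2 ^ 2 = w1 ^ 2 * w3 ^ 2) ∪
      (J.filter (fun w4 => w4 ^ 2 * w1 ^ 2 = w2 ^ 2 * w3 ^ 2) ∪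
      J.filter (fun w4 => w4 ^ 2 * w3 ^ 2 = w1 ^ 2 * w2 ^ 2)) := by
    intro x hx
    rw [mem_filter] at hx
    rw [mem_union, mem_union, mem_filter, mem_filter, mem_filter]
    rcases hx.2 with h | h | h
    · exact Or.inl ⟨hx.1, h⟩
    · exact Or.inr (Or.inl ⟨hx.1, h⟩)
    · exact Or.inr (Or.inr ⟨hx.1, h⟩)
  refine (card_le_card hsub).trans ((card_union_le _ _).trans ?_)
  have a1 := hone w2 (w1 ^ 2 * w3 ^ 2) (hJ.ne h2)
  have a2 := hone w1 (w2 ^ 2 * w3 ^ 2) (hJ.ne h1)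
  have a3 := hone w3 (w1 ^ 2 * w2 ^ 2) (hJ.ne h3)
  have a4 := card_union_le (J.filter (fun w4 => w4 ^ 2 * w1 ^ 2 = w2 ^ 2 * w3 ^ 2))
    (J.filter (fun w4 => w4 ^ 2 * w3 ^ 2 = w1 ^ 2 * w2 ^ 2))
  omega

theorem card_pos4 {σ : F →+* F} {J : Finset F} (hJ : NormOne σ J) : ((J ×ˢ J ×ˢ J ×ˢ J).filter
    (fun j => Pos4 j.1 j.2.1 j.2.2.1 j.2.2.2)).card ≤ 3 * J.card ^ 3 := by
  rw [card_filter, sum_product]
  simp_rw [sum_product]
  calc ∑ x ∈ J, ∑ y ∈ J, ∑ z ∈ J, ∑ w ∈ J, (if Pos4 x y z w then 1 else 0) ≤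
      ∑ x ∈ J, ∑ y ∈ J, ∑ z ∈ J, 3 := by
        refine sum_le_sum fun x hx => sum_le_sum fun y hy => sum_le_sum fun z hz => ?_
        rw [← card_filter]
        exact card_pos hJ hx hy hz
    _ = 3 * J.card ^ 3 := by
        simp only [sum_const, smul_eq_mul]
        ring

/-- the energy bound -/
theorem energy_le {σ : F →+* F} (hσ : ∀ k : K, σ (algebraMap K F k) = algebraMap K F k)
    {J : Finset F} (hJ : NormOne σ J) (h2K : (2 : K) ≠ 0) (h2F : (2 : F) ≠ 0)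
    {S : Finset (Fin d → K)} (hS : ∀ a ∈ S, ∑ i, a i ^ 2 = 1) {B : ℕ}
    (hB : ∀ w : Fin d → K, w ≠ 0 → ∀ c : K, (S.filter fun a => ∑ i, w i * a i = c).card ≤ B) :
    energy (TT J S) ≤ J.card * (S.card ^ 2 * B + S.card ^ 2) + 3 * J.card ^ 2 * S.card ^ 2 +
      3 * J.card ^ 3 * (S.card * B) := by
  refine (energy_TT J S).trans ?_
  have h1 : ∀ j ∈ J ×ˢ J ×ˢ J ×ˢ J, (Sol4 S j.1 j.2.1 j.2.2.1 j.2.2.2).card ≤
      (if j.1 = j.2.1 ∧ j.2.1 = j.2.2.1 ∧ j.2.2.1 = j.2.2.2 then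
        S.card ^ 2 * B + S.card ^ 2 else 0) +
      (if j.2.2.1 = j.1 ∧ j.2.2.2 = j.2.1 then S.card ^ 2 else 0) +
      (if j.2.2.1 = j.2.1 ∧ j.2.2.2 = j.1 then S.card ^ 2 else 0) +
      (if j.1 = j.2.1 ∧ j.2.2.1 = j.2.2.2 then S.card ^ 2 else 0) +
      (if Pos4 j.1 j.2.1 j.2.2.1 j.2.2.2 then S.card * B else 0) := by
    rintro ⟨j1, j2, j3, j4⟩ hj
    simp only [mem_product] at hj
    exact sol_bound hσ hJ h2K h2F hS hB hj.1 hj.2.1 hj.2.2.1 hj.2.2.2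
  refine (sum_le_sum h1).trans ?_
  rw [sum_add_distrib, sum_add_distrib, sum_add_distrib, sum_add_distrib]
  rw [← sum_filter, ← sum_filter, ← sum_filter, ← sum_filter, ← sum_filter]
  rw [sum_const, sum_const, sum_const, sum_const, sum_const]
  simp only [smul_eq_mul]
  have b1 := Nat.mul_le_mul_right (S.card ^ 2 * B + S.card ^ 2) (card_all J)
  have b2 := Nat.mul_le_mul_right (S.card ^ 2) (card_a J)
  have b3 := Nat.mul_le_mul_right (S.card ^ 2) (card_b J)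
  have b4 := Nat.mul_le_mul_right (S.card ^ 2) (card_c J)
  have b5 := Nat.mul_le_mul_right (S.card * B) (card_pos4 hJ)
  have e1 : 3 * J.card ^ 2 * S.card ^ 2 = J.card ^ 2 * S.card ^ 2 + J.card ^ 2 * S.card ^ 2 +
    J.card ^ 2 * S.card ^ 2 := by ring
  rw [e1]
  omega

/-- the number of points -/
theorem card_TT {σ : F →+* F} (hσ : ∀ k : K, σ (algebraMap K F k) = algebraMap K F k)
    {J : Finset F} (hJ : NormOne σ J) {S : Finset (Fin d → K)} (hS : ∀ a ∈ S, ∑ i, a i ^ 2 = 1) :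
    (TT J S).card = J.card * S.card := by
  unfold TT
  rw [card_image_of_injOn, card_product]
  rintro ⟨w, x⟩ hx ⟨w', x'⟩ hx' h
  rw [mem_coe, mem_product] at hx hx'
  simp only at hx hx'
  have h1 : ∀ i, w * algebraMap K F (x i) = w' * algebraMap K F (x' i) := fun i => congrFun h i
  have e1 : σ w = w⁻¹ := eq_inv_of_mul_eq_one_right (hJ.one _ hx.1)
  have e2 : σ w' = w'⁻¹ := eq_inv_of_mul_eq_one_right (hJ.one _ hx'.1)
  have hw := hJ.ne hx.1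
  have hw' := hJ.ne hx'.1
  have h2 : ∀ i, w' * algebraMap K F (x i) = w * algebraMap K F (x' i) := by
    intro i
    have := congrArg σ (h1 i)
    rw [map_mul, map_mul, hσ, hσ, e1, e2] at this
    field_simp at this
    linear_combination this
  obtain ⟨i, hi⟩ : ∃ i, x i ≠ 0 := by
    by_contra hcon
    push Not at hcon
    have := hS _ hx.2
    simp [hcon] at this
  have hi' : algebraMap K F (x i) ≠ 0 := by
    rw [Ne, map_eq_zero]
    exact hi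
  have h3 : (w ^ 2 - w' ^ 2) * algebraMap K F (x i) = 0 := by
    linear_combination w * h1 i - w' * h2 i
  have h4 : w = w' := hJ.inj _ hx.1 _ hx'.1
    (sub_eq_zero.1 ((mul_eq_zero.1 h3).resolve_right hi'))
  subst h4
  have h5 : x = x' := funext (fun j => (algebraMap K F).injective (mul_left_cancel₀ hw (h1 j)))
  rw [h5]

end Run7.h191.Sal
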