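import Mathlib
import Pool.Agent.Run7.h191.Sal3
import Pool.Agent.H654R5.All

/-! Unions of norm one multiples of the unit sphere of a subfield: the distances, the family. -/

set_option autoImplicit false
set_option linter.unusedSectionVars false

namespace Run7.h191.Sal

open Finset Pool.H654R5

section dist

variable {K F : Type} [Field K] [Fintype K] [DecidableEq K] [Field F] [DecidableEq F] [Algebra K F]
  {d : ℕ}

theorem dist_pt {S : Finset (Fin d → K)} (hS : ∀ a ∈ S, ∑ i, a i ^ 2 = 1) {x y : Fin d → K}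
    (hx : x ∈ S) (hy : y ∈ S) (w v : F) :
    ∑ i, (pt (w, x) i - pt (v, y) i) ^ 2 = w ^ 2 + v ^ 2 - 2 * (w * v) * dt x y := by
  have h := sum_four (hS _ hx) (hS _ hy) w (-v) w (-v)
  have e1 : ∀ i, (pt (w, x) i - pt (v, y) i) ^ 2 =
      (w * algebraMap K F (x i) + -v * algebraMap K F (y i)) *
      (w * algebraMap K F (x i) + -v * algebraMap K F (y i)) := by
    intro i
    unfold pt
    ring
  simp_rw [e1]
  rw [h]
  ring

theorem dist_TT {σ : F →+* F} (hfix : ∀ t : F, σ t = t → ∃ k : K, algebraMap K F k = t)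
    {g : F} (hg : g * σ g = 1) {S : Finset (Fin d → K)} (hS : ∀ a ∈ S, ∑ i, a i ^ 2 = 1) (h : ℕ) :
    (distSet (TT ((range h).image (fun i => g ^ i)) S)).card ≤ 2 * h * Fintype.card K := by
  have hg0 : g ≠ 0 := by
    rintro rfl
    rw [zero_mul] at hg
    exact zero_ne_one hg
  have hgs : σ g = g⁻¹ := eq_inv_of_mul_eq_one_right hg
  have hsub : distSet (TT ((range h).image (fun i => g ^ i)) S) ⊆
      (range (2 * h) ×ˢ (univ : Finset K)).image (fun z => g ^ z.1 * algebraMap K F z.2) := by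
    intro z hz
    unfold distSet at hz
    rw [mem_image] at hz
    obtain ⟨⟨e, e'⟩, hee, rfl⟩ := hz
    rw [mem_product] at hee
    obtain ⟨⟨w, x⟩, hx, hxe⟩ := mem_image.1 hee.1
    obtain ⟨⟨w', x'⟩, hx', hxe'⟩ := mem_image.1 hee.2
    rw [mem_product] at hx hx'
    simp only at hxe hxe' hx hx'
    subst hxe
    subst hxe'
    obtain ⟨hw, hxS⟩ := hx
    obtain ⟨hw', hxS'⟩ := hx'
    obtain ⟨i, hi, rfl⟩ := mem_image.1 hw
    obtain ⟨j, hj, rfl⟩ := mem_image.1 hw'
    rw [mem_range] at hi hj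
    simp only
    rw [dist_pt hS hxS hxS']
    obtain ⟨k, hk⟩ := hfix (g ^ i * (g ^ j)⁻¹ + g ^ j * (g ^ i)⁻¹) (by
      rw [map_add, map_mul, map_mul, map_inv₀, map_inv₀, map_pow, map_pow, hgs, inv_pow, inv_pow,
        inv_inv, inv_inv]
      ring)
    rw [mem_image]
    refine ⟨(i + j, k - 2 * ∑ l, x l * x' l), ?_, ?_⟩
    · rw [mem_product]
      refine ⟨?_, mem_univ _⟩
      simp only [mem_range]
      omega
    · simp only
      rw [map_sub, map_mul, hk, map_ofNat]
      have h1 : g ^ i ≠ 0 := pow_ne_zero _ hg0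
      have h2 : g ^ j ≠ 0 := pow_ne_zero _ hg0
      rw [show (dt x x' : F) = algebraMap K F (∑ l, x l * x' l) from rfl, pow_add]
      field_simp
  refine (card_le_card hsub).trans (card_image_le.trans ?_)
  rw [card_product, card_range, card_univ]

end dist


theorem fixed_of_frob {p : ℕ} (hp : p.Prime) {F : Type} [Field F] [Fintype F] [DecidableEq F]
    [Algebra (ZMod p) F] [CharP F p] (t : F) (ht : t ^ p = t) :
    ∃ k : ZMod p, algebraMap (ZMod p) F k = t := by
  haveI : Fact p.Prime := ⟨hp⟩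
  set R : Finset F := univ.filter (fun t : F => t ^ p = t) with hR
  have h1 : R.card ≤ p := by
    have h2 : R.val ⊆ (Polynomial.X ^ p - Polynomial.X : Polynomial F).roots := by
      intro x hx
      have hx' : x ∈ R := hx
      rw [hR, mem_filter] at hx'
      rw [Polynomial.mem_roots (FiniteField.X_pow_card_sub_X_ne_zero F hp.one_lt)]
      simp [hx'.2]
    have h3 := Polynomial.card_le_degree_of_subset_roots h2
    rwa [FiniteField.X_pow_card_sub_X_natDegree_eq F hp.one_lt] at h3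
  have h4 : (univ : Finset (ZMod p)).image (algebraMap (ZMod p) F) ⊆ R := by
    intro x hx
    obtain ⟨k, -, rfl⟩ := mem_image.1 hx
    rw [hR, mem_filter]
    refine ⟨mem_univ _, ?_⟩
    rw [← map_pow, ZMod.pow_card]
  have h5 : ((univ : Finset (ZMod p)).image (algebraMap (ZMod p) F)).card = p := by
    rw [card_image_of_injective _ (algebraMap (ZMod p) F).injective, card_univ, ZMod.card]
  have h6 := eq_of_subset_of_card_le h4 (by rw [h5]; exact h1)
  have h7 : t ∈ (univ : Finset (ZMod p)).image (algebraMap (ZMod p) F) := by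
    rw [h6, hR, mem_filter]
    exact ⟨mem_univ _, ht⟩
  obtain ⟨k, -, hk⟩ := mem_image.1 h7
  exact ⟨k, hk⟩

/-- the examples, for every prime `p ≡ 1 mod 4` and `2 h ≤ p + 1` -/
theorem family2 (d : ℕ) (hd : 3 ≤ d) (p : ℕ) (hp : p.Prime) (hp4 : p % 4 = 1) (h : ℕ)
    (hh : 2 * h ≤ p + 1) :
    ∃ (F : Type) (_ : Field F) (_ : Fintype F) (_ : DecidableEq F) (E : Finset (Fin d → F)),
      (2 : F) ≠ 0 ∧ Fintype.card F = p ^ 2 ∧
      h * p ^ (d - 1) ≤ 4 * E.card ∧ E.card ≤ 2 * (h * p ^ (d - 1)) ∧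
      energy E ≤ 46 * (h * p ^ (3 * d - 4)) ∧ (distSet E).card ≤ 2 * h * p := by
  haveI : Fact p.Prime := ⟨hp⟩
  have hp5 : 5 ≤ p := by
    have h2 := hp.two_le
    by_contra hcon
    push Not at hcon
    interval_cases p
    · omega
    · omega
    · omega
  have hcK : Fintype.card (ZMod p) = p := ZMod.card p
  have h2K : (2 : ZMod p) ≠ 0 := by
    intro h
    have h' : ((2 : ℕ) : ZMod p) = 0 := by exact_mod_cast h
    rw [ZMod.natCast_eq_zero_iff] at h'
    have := Nat.le_of_dvd (by norm_num) h'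
    omega
  obtain ⟨i, hi⟩ : IsSquare (-1 : ZMod p) := by
    rw [ZMod.exists_sq_eq_neg_one_iff]
    omega
  have hi' : i ^ 2 = -1 := by rw [pow_two]; exact hi.symm
  letI : Fintype (GaloisField p 2) := Fintype.ofFinite _
  letI : DecidableEq (GaloisField p 2) := Classical.decEq _
  have hcF : Fintype.card (GaloisField p 2) = p ^ 2 := by
    rw [← Nat.card_eq_fintype_card]
    exact GaloisField.card p 2 (by norm_num)
  have h2F : (2 : GaloisField p 2) ≠ 0 := by
    intro h
    apply h2K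
    have : (algebraMap (ZMod p) (GaloisField p 2)) 2 = 0 := by
      rw [map_ofNat]; exact h
    exact (map_eq_zero _).mp this
  -- an element of order `p + 1`
  obtain ⟨ζ, hζ⟩ := IsCyclic.exists_ofOrder_eq_natCard (α := (GaloisField p 2)ˣ)
  have hζ' : orderOf ζ = (p - 1) * (p + 1) := by
    rw [hζ, Nat.card_units, Nat.card_eq_fintype_card, hcF]
    obtain ⟨t, rfl⟩ : ∃ t, p = t + 1 := ⟨p - 1, by omega⟩
    rw [show t + 1 - 1 = t by omega, show (t + 1) ^ 2 = t * (t + 1 + 1) + 1 by ring]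
    omega
  have hgo : orderOf (ζ ^ (p - 1)) = p + 1 := by
    rw [orderOf_pow_of_dvd (by omega) (by rw [hζ']; exact dvd_mul_right _ _), hζ']
    exact Nat.mul_div_cancel_left _ (by omega)
  set g : GaloisField p 2 := ((ζ ^ (p - 1) : (GaloisField p 2)ˣ) : GaloisField p 2) with hg
  have hgo' : orderOf g = p + 1 := by rw [hg, orderOf_units, hgo]
  have hgp : g * g ^ p = 1 := by rw [← pow_succ', ← hgo', pow_orderOf_eq_one]
  set σ : GaloisField p 2 →+* GaloisField p 2 := frobenius (GaloisField p 2) p with hσd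
  have hσ : ∀ k : ZMod p, σ (algebraMap (ZMod p) (GaloisField p 2) k) =
      algebraMap (ZMod p) (GaloisField p 2) k := by
    intro k
    rw [hσd, frobenius_def, ← map_pow, ZMod.pow_card]
  have hfix : ∀ t : GaloisField p 2, σ t = t →
      ∃ k : ZMod p, algebraMap (ZMod p) (GaloisField p 2) k = t := by
    intro t ht
    exact fixed_of_frob hp t ht
  set J : Finset (GaloisField p 2) := (range h).image (fun i => g ^ i) with hJd
  have hinj : Set.InjOn (fun i : ℕ => g ^ i) (range h : Set ℕ) := by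
    intro a ha b hb hab
    rw [mem_coe, mem_range] at ha hb
    exact pow_injOn_Iio_orderOf (x := g) (by rw [Set.mem_Iio, hgo']; omega)
      (by rw [Set.mem_Iio, hgo']; omega) hab
  have hJc : J.card = h := by
    rw [hJd, card_image_of_injOn hinj, card_range]
  have hJ : NormOne σ J := by
    constructor
    · intro w hw
      obtain ⟨a, -, rfl⟩ := mem_image.1 hw
      rw [hσd, frobenius_def, ← pow_mul, mul_comm a p, pow_mul, ← mul_pow, hgp, one_pow]
    · intro w hw w' hw' hww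
      obtain ⟨a, ha, rfl⟩ := mem_image.1 hw
      obtain ⟨b, hb, rfl⟩ := mem_image.1 hw'
      rw [mem_range] at ha hb
      rw [← pow_mul, ← pow_mul] at hww
      have := pow_injOn_Iio_orderOf (x := g) (x₁ := a * 2) (x₂ := b * 2)
        (by rw [Set.mem_Iio, hgo']; omega) (by rw [Set.mem_Iio, hgo']; omega) hww
      have hab : a = b := by omega
      rw [hab]
  obtain ⟨hs1, hs2⟩ := task_Sphere d hd (ZMod p) h2K (by rw [hcK]; exact hp5) i hi'
  have hB := task_Plane d hd (ZMod p) h2K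
  have hS : ∀ a ∈ Sph d (ZMod p), ∑ i, a i ^ 2 = 1 := fun a ha => by
    rw [Sph, mem_filter] at ha
    exact ha.2
  have hcard := card_TT hσ hJ hS
  have hen := energy_le hσ hJ h2K h2F hS hB
  have hdist := dist_TT (d := d) (S := Sph d (ZMod p)) hfix (g := g) (by
    rw [hσd, frobenius_def]
    exact hgp) hS h
  rw [hcK] at hs1 hs2 hen hdist
  rw [hJc] at hcard hen
  refine ⟨GaloisField p 2, inferInstance, inferInstance, inferInstance, TT J (Sph d (ZMod p)),
    h2F, hcF, ?_, ?_, ?_, hdist⟩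
  · rw [hcard]
    calc h * p ^ (d - 1) ≤ h * (4 * (Sph d (ZMod p)).card) := Nat.mul_le_mul_left _ hs2
      _ = 4 * (h * (Sph d (ZMod p)).card) := by ring
  · rw [hcard]
    calc h * (Sph d (ZMod p)).card ≤ h * (2 * p ^ (d - 1)) := Nat.mul_le_mul_left _ hs1
      _ = 2 * (h * p ^ (d - 1)) := by ring
  · refine hen.trans ?_
    clear_value J g σ
    obtain ⟨m, rfl⟩ := Nat.exists_eq_add_of_le' hd
    set s := (Sph (m + 3) (ZMod p)).card with hs
    set X := p ^ m with hX
    have e0 : m + 3 - 1 = m + 2 := by omega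
    have e1 : m + 3 - 2 = m + 1 := by omega
    have e2 : 3 * (m + 3) - 4 = m + m + m + 5 := by omega
    rw [e1, e2]
    rw [e0] at hs1
    have f1 : p ^ (m + 2) = X * p ^ 2 := by rw [hX]; ring
    have f2 : p ^ (m + 1) = X * p := by rw [hX]; ring
    have f3 : p ^ (m + m + m + 5) = X ^ 3 * p ^ 5 := by rw [hX]; ring
    rw [f1] at hs1
    rw [f2, f3]
    have hX1 : 1 ≤ X := Nat.one_le_pow _ _ (by omega)
    have hhp : h ≤ p := by omega
    have hsq : s ^ 2 ≤ 4 * X ^ 2 * p ^ 4 := by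
      calc s ^ 2 ≤ (2 * (X * p ^ 2)) ^ 2 := Nat.pow_le_pow_left hs1 2
        _ = _ := by ring
    have g1 : s ^ 2 * (3 * (X * p)) ≤ 12 * (X ^ 3 * p ^ 5) := by
      calc s ^ 2 * (3 * (X * p)) ≤ (4 * X ^ 2 * p ^ 4) * (3 * (X * p)) :=
            Nat.mul_le_mul_right _ hsq
        _ = _ := by ring
    have hXX : X ^ 2 * p ^ 4 ≤ X ^ 3 * p ^ 4 := by
      apply Nat.mul_le_mul_right
      calc X ^ 2 = X ^ 2 * 1 := by ring
        _ ≤ X ^ 2 * X := Nat.mul_le_mul_left _ hX1
        _ = X ^ 3 := by ring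
    have hp1 : X ^ 3 * p ^ 4 ≤ X ^ 3 * p ^ 5 :=
      Nat.mul_le_mul_left _ (Nat.pow_le_pow_right (by omega) (by norm_num))
    have g2 : s ^ 2 ≤ 4 * (X ^ 3 * p ^ 5) := by
      calc s ^ 2 ≤ 4 * X ^ 2 * p ^ 4 := hsq
        _ = 4 * (X ^ 2 * p ^ 4) := by ring
        _ ≤ 4 * (X ^ 3 * p ^ 5) := Nat.mul_le_mul_left _ (hXX.trans hp1)
    have g3 : h * s ^ 2 ≤ 4 * (X ^ 3 * p ^ 5) := by
      calc h * s ^ 2 ≤ p * (4 * X ^ 2 * p ^ 4) := Nat.mul_le_mul hhp hsq
        _ = 4 * (X ^ 2 * p ^ 4) * p := by ring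
        _ ≤ 4 * (X ^ 3 * p ^ 4) * p := Nat.mul_le_mul_right _ (Nat.mul_le_mul_left _ hXX)
        _ = _ := by ring
    have g4 : h ^ 2 * (s * (3 * (X * p))) ≤ 6 * (X ^ 3 * p ^ 5) := by
      calc h ^ 2 * (s * (3 * (X * p))) ≤ p ^ 2 * ((2 * (X * p ^ 2)) * (3 * (X * p))) :=
            Nat.mul_le_mul (Nat.pow_le_pow_left hhp 2) (Nat.mul_le_mul_right _ hs1)
        _ = 6 * (X ^ 2 * p ^ 4) * p := by ring
        _ ≤ 6 * (X ^ 3 * p ^ 4) * p := Nat.mul_le_mul_right _ (Nat.mul_le_mul_left _ hXX)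
        _ = _ := by ring
    set Y := X ^ 3 * p ^ 5 with hY
    calc h * (s ^ 2 * (3 * (X * p)) + s ^ 2) + 3 * h ^ 2 * s ^ 2 + 3 * h ^ 3 * (s * (3 * (X * p)))
        = h * (s ^ 2 * (3 * (X * p)) + s ^ 2 + 3 * (h * s ^ 2) +
            3 * (h ^ 2 * (s * (3 * (X * p))))) := by ring
      _ ≤ h * (12 * Y + 4 * Y + 3 * (4 * Y) + 3 * (6 * Y)) := by
          apply Nat.mul_le_mul_left
          omega
      _ = 46 * (h * Y) := by ring

end Run7.h191.Sal
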