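import Mathlib
import Pool.Agent.H654R5.Stmts

/-! Sparse subsets with small additive energy, by random sampling. -/

set_option autoImplicit false
set_option linter.unusedSectionVars false

namespace Run7.h191.Sal

open Finset Pool.H654R5

section sample

variable {G : Type} [Fintype G] [DecidableEq G] (k : ℕ)

/-- the number of colourings that vanish on `A` -/
theorem card_zero (A : Finset G) :
    ((univ : Finset (G → Fin (k + 1))).filter (fun c => ∀ x ∈ A, c x = 0)).card * (k + 1) ^ A.card =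
      (k + 1) ^ Fintype.card G := by
  have h1 : (univ : Finset (G → Fin (k + 1))).filter (fun c => ∀ x ∈ A, c x = 0) =
      Fintype.piFinset (fun x => if x ∈ A then ({0} : Finset (Fin (k + 1))) else univ) := by
    ext c
    rw [mem_filter, Fintype.mem_piFinset]
    constructor
    · rintro ⟨-, h⟩ x
      by_cases hx : x ∈ A
      · rw [if_pos hx, mem_singleton]
        exact h x hx
      · rw [if_neg hx]
        exact mem_univ _
    · intro h
      refine ⟨mem_univ _, fun x hx => ?_⟩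
      have := h x
      rw [if_pos hx, mem_singleton] at this
      exact this
  rw [h1, Fintype.card_piFinset]
  have h2 : ∀ x : G, (if x ∈ A then ({0} : Finset (Fin (k + 1))) else univ).card =
      if x ∈ A then 1 else (k + 1) := by
    intro x
    split_ifs <;> simp
  simp_rw [h2]
  rw [prod_ite, prod_const_one, one_mul, prod_const, ← pow_add, ← card_univ]
  congr 1
  rw [← card_filter_add_card_filter_not (s := (univ : Finset G)) (fun x => x ∈ A)]
  rw [filter_mem_eq_inter, univ_inter]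
  exact add_comm _ _

/-- fraction of the colourings that vanish on `A` -/
theorem frac_zero (A : Finset G) :
    (((univ : Finset (G → Fin (k + 1))).filter (fun c => ∀ x ∈ A, c x = 0)).card : ℝ) =
      ((k : ℝ) + 1) ^ Fintype.card G * (((k : ℝ) + 1) ^ A.card)⁻¹ := by
  have h := card_zero k A
  have h' : (((univ : Finset (G → Fin (k + 1))).filter (fun c => ∀ x ∈ A, c x = 0)).card : ℝ) *
      ((k : ℝ) + 1) ^ A.card = ((k : ℝ) + 1) ^ Fintype.card G := by exact_mod_cast h
  rw [← h']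
  field_simp

/-- the points of `T` with colour zero -/
def cls (T : Finset G) (c : G → Fin (k + 1)) : Finset G := T.filter (fun x => c x = 0)

theorem sum_cls (T : Finset G) :
    ∑ c : G → Fin (k + 1), ((cls k T c).card : ℝ) =
      ((k : ℝ) + 1) ^ Fintype.card G * ((T.card : ℝ) / (k + 1)) := by
  unfold cls
  have h1 : ∀ c : G → Fin (k + 1), (((T.filter (fun x => c x = 0)).card : ℕ) : ℝ) =
      ∑ x ∈ T, if c x = 0 then (1 : ℝ) else 0 := by
    intro c
    rw [card_filter]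
    push_cast
    rfl
  simp_rw [h1]
  rw [sum_comm]
  have h2 : ∀ x ∈ T, ∑ c : G → Fin (k + 1), (if c x = 0 then (1 : ℝ) else 0) =
      ((k : ℝ) + 1) ^ Fintype.card G * ((k : ℝ) + 1)⁻¹ := by
    intro x _
    have h3 := frac_zero k ({x} : Finset G)
    rw [card_singleton, pow_one] at h3
    rw [← h3, card_filter]
    push_cast
    apply sum_congr rfl
    intro c _
    simp
  rw [sum_congr rfl h2, sum_const, nsmul_eq_mul]
  ring

end sample

section energy

variable {G : Type} [Fintype G] [DecidableEq G] [AddCommGroup G] (k : ℕ)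

/-- the additive quadruples of `T` -/
def QQ (T : Finset G) : Finset (G × G × G × G) :=
  (T ×ˢ T ×ˢ T ×ˢ T).filter (fun s => s.1 + s.2.1 = s.2.2.1 + s.2.2.2)

theorem sum_energy (T : Finset G) :
    ∑ c : G → Fin (k + 1), (energy (cls k T c) : ℝ) =
      ((k : ℝ) + 1) ^ Fintype.card G *
        ∑ s ∈ QQ T, (((k : ℝ) + 1) ^ ({s.1, s.2.1, s.2.2.1, s.2.2.2} : Finset G).card)⁻¹ := by
  have h1 : ∀ c : G → Fin (k + 1), (energy (cls k T c) : ℝ) =
      ∑ s ∈ QQ T, if (∀ x ∈ ({s.1, s.2.1, s.2.2.1, s.2.2.2} : Finset G), c x = 0) then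
        (1 : ℝ) else 0 := by
    intro c
    have h2 : energy (cls k T c) = ((QQ T).filter (fun s =>
        ∀ x ∈ ({s.1, s.2.1, s.2.2.1, s.2.2.2} : Finset G), c x = 0)).card := by
      unfold energy QQ cls
      congr 1
      ext ⟨x1, x2, x3, x4⟩
      simp only [mem_filter, mem_product, mem_insert, mem_singleton, forall_eq_or_imp, forall_eq]
      tauto
    rw [h2, card_filter]
    push_cast
    rfl
  simp_rw [h1]
  rw [sum_comm, mul_sum]
  apply sum_congr rfl
  intro s _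
  rw [← frac_zero k, card_filter]
  push_cast
  rfl

/-- the weight of a quadruple -/
theorem weight_le {T : Finset G} {s : G × G × G × G} (hs : s ∈ QQ T) :
    (((k : ℝ) + 1) ^ ({s.1, s.2.1, s.2.2.1, s.2.2.2} : Finset G).card)⁻¹ ≤
      (((k : ℝ) + 1) ^ 4)⁻¹ + (if s.1 = s.2.1 then (((k : ℝ) + 1) ^ 2)⁻¹ else 0) +
      (if s.1 = s.2.2.1 then (((k : ℝ) + 1) ^ 2)⁻¹ else 0) +
      (if s.1 = s.2.2.2 then (((k : ℝ) + 1) ^ 2)⁻¹ else 0) +
      (if s.2.2.1 = s.2.2.2 then (((k : ℝ) + 1) ^ 2)⁻¹ else 0) +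
      (if s.1 = s.2.1 ∧ s.1 = s.2.2.1 ∧ s.1 = s.2.2.2 then ((k : ℝ) + 1)⁻¹ else 0) := by
  obtain ⟨x1, x2, x3, x4⟩ := s
  simp only
  have hrel : x1 + x2 = x3 + x4 := by
    unfold QQ at hs
    rw [mem_filter] at hs
    exact hs.2
  have hk : (0 : ℝ) ≤ k := Nat.cast_nonneg k
  have hk1 : (1 : ℝ) ≤ (k : ℝ) + 1 := by linarith
  have hp4 : 0 ≤ (((k : ℝ) + 1) ^ 4)⁻¹ := by positivity
  have hp2 : 0 ≤ (((k : ℝ) + 1) ^ 2)⁻¹ := by positivity
  have hp1 : 0 ≤ ((k : ℝ) + 1)⁻¹ := by positivity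
  by_cases hall : x1 = x2 ∧ x1 = x3 ∧ x1 = x4
  · obtain ⟨rfl, rfl, rfl⟩ := hall
    simp only [insert_eq_of_mem, mem_singleton, card_singleton, pow_one, if_true, and_self]
    linarith
  · rw [if_neg hall, add_zero]
    have hinv : ∀ j : ℕ, 2 ≤ j → (((k : ℝ) + 1) ^ j)⁻¹ ≤ (((k : ℝ) + 1) ^ 2)⁻¹ := by
      intro j hj
      apply inv_anti₀ (by positivity)
      exact pow_le_pow_right₀ hk1 hj
    have hcard2 : 2 ≤ ({x1, x2, x3, x4} : Finset G).card := by
      by_contra hlt
      push Not at hlt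
      have h1 : ({x1, x2, x3, x4} : Finset G).card ≤ 1 := by omega
      rw [card_le_one] at h1
      apply hall
      refine ⟨h1 _ (by simp) _ (by simp), h1 _ (by simp) _ (by simp), h1 _ (by simp) _ (by simp)⟩
    by_cases h12 : x1 = x2
    · rw [if_pos h12]
      have := hinv _ hcard2
      have q1 : 0 ≤ (if x1 = x3 then (((k : ℝ) + 1) ^ 2)⁻¹ else 0) := by split_ifs <;> positivity
      have q2 : 0 ≤ (if x1 = x4 then (((k : ℝ) + 1) ^ 2)⁻¹ else 0) := by split_ifs <;> positivity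
      have q3 : 0 ≤ (if x3 = x4 then (((k : ℝ) + 1) ^ 2)⁻¹ else 0) := by split_ifs <;> positivity
      linarith
    · by_cases h13 : x1 = x3
      · rw [if_pos h13, if_neg h12]
        have := hinv _ hcard2
        have q2 : 0 ≤ (if x1 = x4 then (((k : ℝ) + 1) ^ 2)⁻¹ else 0) := by split_ifs <;> positivity
        have q3 : 0 ≤ (if x3 = x4 then (((k : ℝ) + 1) ^ 2)⁻¹ else 0) := by split_ifs <;> positivity
        linarith
      · by_cases h14 : x1 = x4
        · rw [if_pos h14, if_neg h12, if_neg h13]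
          have := hinv _ hcard2
          have q3 : 0 ≤ (if x3 = x4 then (((k : ℝ) + 1) ^ 2)⁻¹ else 0) := by
            split_ifs <;> positivity
          linarith
        · by_cases h34 : x3 = x4
          · rw [if_pos h34, if_neg h12, if_neg h13, if_neg h14]
            have := hinv _ hcard2
            linarith
          · rw [if_neg h12, if_neg h13, if_neg h14, if_neg h34]
            have h23 : x2 ≠ x3 := by
              rintro rfl
              apply h14
              have : x1 + x2 = x4 + x2 := by rw [hrel, add_comm]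
              exact add_right_cancel this
            have h24 : x2 ≠ x4 := by
              rintro rfl
              apply h13
              exact add_right_cancel hrel
            have hc : ({x1, x2, x3, x4} : Finset G).card = 4 := by
              rw [card_insert_of_notMem (by simp [h12, h13, h14]),
                card_insert_of_notMem (by simp [h23, h24]), card_pair h34]
            rw [hc]
            linarith

theorem card_eqs (T : Finset G) :
    (((QQ T).filter (fun s => s.1 = s.2.1)).card ≤ T.card ^ 2) ∧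
    (((QQ T).filter (fun s => s.1 = s.2.2.1)).card ≤ T.card ^ 2) ∧
    (((QQ T).filter (fun s => s.1 = s.2.2.2)).card ≤ T.card ^ 2) ∧
    (((QQ T).filter (fun s => s.2.2.1 = s.2.2.2)).card ≤ T.card ^ 2) ∧
    (((QQ T).filter (fun s => s.1 = s.2.1 ∧ s.1 = s.2.2.1 ∧ s.1 = s.2.2.2)).card ≤ T.card) := by
  have hm : ∀ s ∈ QQ T, (s.1 ∈ T ∧ s.2.1 ∈ T ∧ s.2.2.1 ∈ T ∧ s.2.2.2 ∈ T) ∧
      s.1 + s.2.1 = s.2.2.1 + s.2.2.2 := by
    intro s hs
    unfold QQ at hs
    rw [mem_filter, mem_product, mem_product, mem_product] at hs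
    exact hs
  refine ⟨?_, ?_, ?_, ?_, ?_⟩
  · rw [pow_two, ← card_product]
    refine card_le_card_of_injOn (fun s => (s.1, s.2.2.1)) ?_ ?_
    · intro s hs
      rw [mem_coe, mem_filter] at hs
      rw [mem_coe, mem_product]
      exact ⟨(hm s hs.1).1.1, (hm s hs.1).1.2.2.1⟩
    · rintro ⟨x1, x2, x3, x4⟩ hx ⟨y1, y2, y3, y4⟩ hy h
      rw [mem_coe, mem_filter] at hx hy
      have r1 := (hm _ hx.1).2
      have r2 := (hm _ hy.1).2
      have e1 := hx.2
      have e2 := hy.2
      simp only [Prod.mk.injEq] at h r1 r2 e1 e2 ⊢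
      obtain ⟨rfl, rfl⟩ := h
      subst e1
      subst e2
      exact ⟨rfl, rfl, rfl, add_left_cancel (r1.symm.trans r2)⟩
  · rw [pow_two, ← card_product]
    refine card_le_card_of_injOn (fun s => (s.1, s.2.1)) ?_ ?_
    · intro s hs
      rw [mem_coe, mem_filter] at hs
      rw [mem_coe, mem_product]
      exact ⟨(hm s hs.1).1.1, (hm s hs.1).1.2.1⟩
    · rintro ⟨x1, x2, x3, x4⟩ hx ⟨y1, y2, y3, y4⟩ hy h
      rw [mem_coe, mem_filter] at hx hy
      have r1 := (hm _ hx.1).2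
      have r2 := (hm _ hy.1).2
      have e1 := hx.2
      have e2 := hy.2
      simp only [Prod.mk.injEq] at h r1 r2 e1 e2 ⊢
      obtain ⟨rfl, rfl⟩ := h
      subst e1
      subst e2
      exact ⟨rfl, rfl, rfl, add_left_cancel (r1.symm.trans r2)⟩
  · rw [pow_two, ← card_product]
    refine card_le_card_of_injOn (fun s => (s.1, s.2.1)) ?_ ?_
    · intro s hs
      rw [mem_coe, mem_filter] at hs
      rw [mem_coe, mem_product]
      exact ⟨(hm s hs.1).1.1, (hm s hs.1).1.2.1⟩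
    · rintro ⟨x1, x2, x3, x4⟩ hx ⟨y1, y2, y3, y4⟩ hy h
      rw [mem_coe, mem_filter] at hx hy
      have r1 := (hm _ hx.1).2
      have r2 := (hm _ hy.1).2
      have e1 := hx.2
      have e2 := hy.2
      simp only [Prod.mk.injEq] at h r1 r2 e1 e2 ⊢
      obtain ⟨rfl, rfl⟩ := h
      subst e1
      subst e2
      exact ⟨rfl, rfl, add_right_cancel (r1.symm.trans r2), rfl⟩
  · rw [pow_two, ← card_product]
    refine card_le_card_of_injOn (fun s => (s.1, s.2.2.1)) ?_ ?_
    · intro s hs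
      rw [mem_coe, mem_filter] at hs
      rw [mem_coe, mem_product]
      exact ⟨(hm s hs.1).1.1, (hm s hs.1).1.2.2.1⟩
    · rintro ⟨x1, x2, x3, x4⟩ hx ⟨y1, y2, y3, y4⟩ hy h
      rw [mem_coe, mem_filter] at hx hy
      have r1 := (hm _ hx.1).2
      have r2 := (hm _ hy.1).2
      have e1 := hx.2
      have e2 := hy.2
      simp only [Prod.mk.injEq] at h r1 r2 e1 e2 ⊢
      obtain ⟨rfl, rfl⟩ := h
      subst e1
      subst e2
      exact ⟨rfl, add_left_cancel (r1.trans r2.symm), rfl, rfl⟩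
  · refine card_le_card_of_injOn (fun s => s.1) ?_ ?_
    · intro s hs
      rw [mem_coe, mem_filter] at hs
      exact (hm s hs.1).1.1
    · rintro ⟨x1, x2, x3, x4⟩ hx ⟨y1, y2, y3, y4⟩ hy h
      rw [mem_coe, mem_filter] at hx hy
      have e1 := hx.2
      have e2 := hy.2
      simp only [Prod.mk.injEq] at h e1 e2 ⊢
      subst h
      obtain ⟨rfl, rfl, rfl⟩ := e1
      obtain ⟨rfl, rfl, rfl⟩ := e2
      exact ⟨rfl, rfl, rfl, rfl⟩

theorem sum_weight_le (T : Finset G) :
    ∑ s ∈ QQ T, (((k : ℝ) + 1) ^ ({s.1, s.2.1, s.2.2.1, s.2.2.2} : Finset G).card)⁻¹ ≤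
      (energy T : ℝ) / ((k : ℝ) + 1) ^ 4 + 4 * (T.card : ℝ) ^ 2 / ((k : ℝ) + 1) ^ 2 +
        (T.card : ℝ) / ((k : ℝ) + 1) := by
  refine (sum_le_sum (fun s hs => weight_le k hs)).trans ?_
  rw [sum_add_distrib, sum_add_distrib, sum_add_distrib, sum_add_distrib, sum_add_distrib]
  rw [← sum_filter, ← sum_filter, ← sum_filter, ← sum_filter, ← sum_filter]
  rw [sum_const, sum_const, sum_const, sum_const, sum_const, sum_const]
  simp only [nsmul_eq_mul]
  obtain ⟨c1, c2, c3, c4, c5⟩ := card_eqs T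
  have hE : ((QQ T).card : ℝ) = (energy T : ℝ) := rfl
  rw [hE]
  have hp2 : 0 ≤ (((k : ℝ) + 1) ^ 2)⁻¹ := by positivity
  have hp1 : 0 ≤ ((k : ℝ) + 1)⁻¹ := by positivity
  have d1 : ((((QQ T).filter (fun s => s.1 = s.2.1)).card : ℕ) : ℝ) ≤ (T.card : ℝ) ^ 2 := by
    exact_mod_cast c1
  have d2 : ((((QQ T).filter (fun s => s.1 = s.2.2.1)).card : ℕ) : ℝ) ≤ (T.card : ℝ) ^ 2 := by
    exact_mod_cast c2
  have d3 : ((((QQ T).filter (fun s => s.1 = s.2.2.2)).card : ℕ) : ℝ) ≤ (T.card : ℝ) ^ 2 := by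
    exact_mod_cast c3
  have d4 : ((((QQ T).filter (fun s => s.2.2.1 = s.2.2.2)).card : ℕ) : ℝ) ≤ (T.card : ℝ) ^ 2 := by
    exact_mod_cast c4
  have d5 : ((((QQ T).filter (fun s => s.1 = s.2.1 ∧ s.1 = s.2.2.1 ∧ s.1 = s.2.2.2)).card : ℕ) : ℝ)
      ≤ (T.card : ℝ) := by
    exact_mod_cast c5
  have m1 := mul_le_mul_of_nonneg_right d1 hp2
  have m2 := mul_le_mul_of_nonneg_right d2 hp2
  have m3 := mul_le_mul_of_nonneg_right d3 hp2
  have m4 := mul_le_mul_of_nonneg_right d4 hp2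
  have m5 := mul_le_mul_of_nonneg_right d5 hp1
  have e1 : (energy T : ℝ) / ((k : ℝ) + 1) ^ 4 = (energy T : ℝ) * (((k : ℝ) + 1) ^ 4)⁻¹ :=
    div_eq_mul_inv _ _
  have e2 : 4 * (T.card : ℝ) ^ 2 / ((k : ℝ) + 1) ^ 2 =
      4 * ((T.card : ℝ) ^ 2 * (((k : ℝ) + 1) ^ 2)⁻¹) := by ring
  have e3 : (T.card : ℝ) / ((k : ℝ) + 1) = (T.card : ℝ) * ((k : ℝ) + 1)⁻¹ := div_eq_mul_inv _ _
  rw [e1, e2, e3]
  linarith

/-- **Sampling.** -/
theorem sparse (T : Finset G) (hT : k + 1 ≤ T.card) :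
    ∃ E ⊆ T, 3 * (T.card : ℝ) ≤ 4 * ((k : ℝ) + 1) * E.card ∧
      (energy E : ℝ) ≤ 4 * (E.card : ℝ) * ((energy T : ℝ) / ((T.card : ℝ) * ((k : ℝ) + 1) ^ 3) +
        5 * ((T.card : ℝ) / ((k : ℝ) + 1))) := by
  have hk : (0 : ℝ) ≤ k := Nat.cast_nonneg k
  set m : ℝ := (k : ℝ) + 1 with hm
  have hm0 : 0 < m := by linarith
  set n : ℝ := (T.card : ℝ) with hn
  have hmn : m ≤ n := by rw [hm, hn]; exact_mod_cast hT
  have hn0 : 0 < n := by linarith
  set M : ℝ := (energy T : ℝ) / m ^ 4 + 5 * n ^ 2 / m ^ 2 with hM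
  have hM0 : 0 < M := by positivity
  have hMb : ∑ s ∈ QQ T, (m ^ ({s.1, s.2.1, s.2.2.1, s.2.2.2} : Finset G).card)⁻¹ ≤ M := by
    refine (sum_weight_le k T).trans ?_
    rw [hM]
    have e1 : n / m ≤ n ^ 2 / m ^ 2 := by
      rw [div_le_div_iff₀ hm0 (by positivity)]
      nlinarith [mul_nonneg hm0.le hn0.le]
    have e2 : 5 * n ^ 2 / m ^ 2 = 4 * n ^ 2 / m ^ 2 + n ^ 2 / m ^ 2 := by ring
    rw [e2]
    linarith
  set NN : ℝ := m ^ Fintype.card G with hNN
  have hNN0 : 0 < NN := by positivity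
  have hsum : ∑ c : G → Fin (k + 1), (3 / 4 * (n / m)) ≤
      ∑ c : G → Fin (k + 1), (((cls k T c).card : ℝ) - n / (4 * m * M) * (energy (cls k T c) : ℝ)) := by
    have hs : ∑ c : G → Fin (k + 1), n / (4 * m * M) * (energy (cls k T c) : ℝ) =
        n / (4 * m * M) * ∑ c : G → Fin (k + 1), (energy (cls k T c) : ℝ) :=
      (mul_sum _ _ _).symm
    rw [sum_sub_distrib, hs, sum_cls, sum_energy, sum_const, card_univ, nsmul_eq_mul]
    have hc : (Fintype.card (G → Fin (k + 1)) : ℝ) = NN := by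
      rw [Fintype.card_fun, Fintype.card_fin, hNN, hm]
      push_cast
      rfl
    rw [hc, ← hm, ← hNN, ← hn]
    have e1 : n / (4 * m * M) * (NN * ∑ s ∈ QQ T,
        (m ^ ({s.1, s.2.1, s.2.2.1, s.2.2.2} : Finset G).card)⁻¹) ≤
        n / (4 * m * M) * (NN * M) := by
      apply mul_le_mul_of_nonneg_left _ (by positivity)
      exact mul_le_mul_of_nonneg_left hMb hNN0.le
    have e2 : n / (4 * m * M) * (NN * M) = NN * (n / m) * (1 / 4) := by
      field_simp
    have e3 : NN * (3 / 4 * (n / m)) = NN * (n / m) - NN * (n / m) * (1 / 4) := by ring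
    rw [e3]
    linarith
  obtain ⟨c, -, hc⟩ := exists_le_of_sum_le ⟨(fun _ => 0 : G → Fin (k + 1)), mem_univ _⟩ hsum
  refine ⟨cls k T c, filter_subset _ _, ?_, ?_⟩
  · have e1 : 0 ≤ n / (4 * m * M) * (energy (cls k T c) : ℝ) := by positivity
    have e2 : 3 / 4 * (n / m) ≤ ((cls k T c).card : ℝ) := by linarith
    have e3 : 3 / 4 * (n / m) * (4 * m) = 3 * n := by field_simp
    have e4 := mul_le_mul_of_nonneg_right e2 (by positivity : 0 ≤ 4 * m)
    rw [e3] at e4
    linarith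
  · have e1 : 0 ≤ 3 / 4 * (n / m) := by positivity
    have e2 : n / (4 * m * M) * (energy (cls k T c) : ℝ) ≤ ((cls k T c).card : ℝ) := by linarith
    have e3 : (energy (cls k T c) : ℝ) ≤ ((cls k T c).card : ℝ) * (4 * m * M / n) := by
      calc (energy (cls k T c) : ℝ) =
          (n / (4 * m * M) * (energy (cls k T c) : ℝ)) * (4 * m * M / n) := by field_simp
        _ ≤ _ := mul_le_mul_of_nonneg_right e2 (by positivity)
    refine e3.trans (le_of_eq ?_)
    rw [hM]
    field_simp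

end energy

end Run7.h191.Sal
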