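import Mathlib
import Pool.Agent.Run7.h191.Sal4
import Pool.Agent.Run7.h191.Sparse

/-! Lower bound for `α(d,4,s)`: asymptotics. -/

set_option autoImplicit false
set_option linter.unusedSectionVars false

namespace Run7.h191.Sal

open Finset Pool.H654R5

/-- the numerical heart: energy of the sparse set -/
theorem num_energy {P h n m e En LT A D β s t : ℝ} (hP : 1 ≤ P) (hs1 : 1 / 4 ≤ s) (hs2 : s ≤ 1 / 2)
    (hh : P ^ β / 4 ≤ h) (hn1 : h * A ≤ 4 * n) (hA : 0 < A) (hD : 0 < D) (hLT : LT ≤ 46 * (h * D))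
    (hAD : P ^ ((t : ℝ)) * D = A ^ 4) (hm : 1 ≤ m)
    (hν1 : P ^ (2 * e) ≤ n / m) (hν2 : n / m ≤ 2 * P ^ (2 * e)) (he : 0 ≤ e)
    (hexp : 8 * e * s ≤ t + 3 * β) {c : ℝ} (hc : 3 * n ≤ 4 * m * c)
    (hEn : En ≤ 4 * c * (LT / (n * m ^ 3) + 5 * (n / m))) :
    En ≤ 10 ^ 8 * c ^ (4 - 4 * s) := by
  have hP0 : 0 < P := by linarith
  have hh0 : 0 < h := lt_of_lt_of_le (by positivity) hh
  have hm0 : 0 < m := by linarith
  have hn0 : 0 < n := by
    have : 0 < h * A := by positivity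
    linarith
  set ν : ℝ := n / m with hν
  have hν0 : 0 < ν := by positivity
  have hPe : 1 ≤ P ^ (2 * e) := Real.one_le_rpow hP (by linarith)
  have hν1' : 1 ≤ ν := hPe.trans hν1
  -- the size
  have hc1 : 3 / 4 * ν ≤ c := by
    rw [hν, mul_div_assoc', div_le_iff₀ hm0]
    linarith
  have hc0 : 0 < c := lt_of_lt_of_le (by positivity) hc1
  -- `ν^{4s} ≤ 4 P^{t+3β}`
  have k1 : ν ^ (4 * s) ≤ 4 * P ^ (t + 3 * β) := by
    calc ν ^ (4 * s) ≤ (2 * P ^ (2 * e)) ^ (4 * s) :=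
          Real.rpow_le_rpow hν0.le hν2 (by linarith)
      _ = 2 ^ (4 * s) * P ^ (8 * e * s) := by
          rw [Real.mul_rpow (by norm_num) (by positivity), ← Real.rpow_mul hP0.le]
          congr 2
          ring
      _ ≤ 4 * P ^ (t + 3 * β) := by
          apply mul_le_mul _ _ (by positivity) (by norm_num)
          · calc (2 : ℝ) ^ (4 * s) ≤ 2 ^ (2 : ℝ) :=
                Real.rpow_le_rpow_of_exponent_le (by norm_num) (by linarith)
              _ = 4 := by norm_num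
          · exact Real.rpow_le_rpow_of_exponent_le hP hexp
  -- `P^{t+3β} LT ≤ C n^4`
  have k2 : P ^ (t + 3 * β) * LT ≤ 753664 * n ^ 4 := by
    have e1 : P ^ (t + 3 * β) = P ^ t * (P ^ β) ^ 3 := by
      rw [Real.rpow_add hP0, mul_comm 3 β, Real.rpow_mul hP0.le]
      norm_cast
    have e2 : (P ^ β) ^ 3 ≤ 64 * h ^ 3 := by
      have : P ^ β ≤ 4 * h := by linarith
      calc (P ^ β) ^ 3 ≤ (4 * h) ^ 3 := pow_le_pow_left₀ (by positivity) this 3
        _ = _ := by ring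
    have e3 : (h * A) ^ 4 ≤ (4 * n) ^ 4 := pow_le_pow_left₀ (by positivity) hn1 4
    rw [e1]
    calc P ^ t * (P ^ β) ^ 3 * LT ≤ P ^ t * (P ^ β) ^ 3 * (46 * (h * D)) :=
          mul_le_mul_of_nonneg_left hLT (by positivity)
      _ ≤ P ^ t * (64 * h ^ 3) * (46 * (h * D)) := by
          apply mul_le_mul_of_nonneg_right _ (by positivity)
          exact mul_le_mul_of_nonneg_left e2 (by positivity)
      _ = 2944 * h ^ 4 * (P ^ t * D) := by ring
      _ = 2944 * (h * A) ^ 4 := by rw [hAD]; ring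
      _ ≤ 2944 * (4 * n) ^ 4 := mul_le_mul_of_nonneg_left e3 (by norm_num)
      _ = _ := by ring
  have k3 : ν ^ (4 * s) * LT ≤ 4 * 753664 * n ^ 4 := by
    rcases le_or_gt 0 LT with h0 | h0
    · calc ν ^ (4 * s) * LT ≤ 4 * P ^ (t + 3 * β) * LT := mul_le_mul_of_nonneg_right k1 h0
        _ = 4 * (P ^ (t + 3 * β) * LT) := by ring
        _ ≤ 4 * (753664 * n ^ 4) := mul_le_mul_of_nonneg_left k2 (by norm_num)
        _ = _ := by ring
    · have : ν ^ (4 * s) * LT ≤ 0 := mul_nonpos_of_nonneg_of_nonpos (by positivity) h0.le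
      exact this.trans (by positivity)
  -- `LT / (n m^3) ≤ C ν^{3-4s}`
  have k4 : LT / (n * m ^ 3) ≤ 3014656 * ν ^ (3 - 4 * s) := by
    rw [div_le_iff₀ (by positivity)]
    have e1 : ν ^ (3 - 4 * s) = ν ^ 3 / ν ^ (4 * s) := by
      rw [Real.rpow_sub hν0]
      norm_cast
    rw [e1]
    have e2 : ν ^ 3 * (n * m ^ 3) = n ^ 4 := by
      rw [hν]
      field_simp
    have e3 : 3014656 * (ν ^ 3 / ν ^ (4 * s)) * (n * m ^ 3) =
        3014656 * (ν ^ 3 * (n * m ^ 3)) / ν ^ (4 * s) := by ring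
    rw [e3, e2, le_div_iff₀ (by positivity)]
    linarith
  have k5 : ν ≤ ν ^ (3 - 4 * s) := by
    calc ν = ν ^ (1 : ℝ) := (Real.rpow_one ν).symm
      _ ≤ _ := Real.rpow_le_rpow_of_exponent_le hν1' (by linarith)
  have k6 : ν ^ (3 - 4 * s) ≤ 4 * c ^ (3 - 4 * s) := by
    have e1 : (3 / 4 * ν) ^ (3 - 4 * s) ≤ c ^ (3 - 4 * s) :=
      Real.rpow_le_rpow (by positivity) hc1 (by linarith)
    rw [Real.mul_rpow (by norm_num) hν0.le] at e1
    have e2 : (1 / 4 : ℝ) ≤ (3 / 4 : ℝ) ^ (3 - 4 * s) := by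
      calc (1 / 4 : ℝ) ≤ (3 / 4 : ℝ) ^ (3 : ℝ) := by norm_num
        _ ≤ _ := Real.rpow_le_rpow_of_exponent_ge (by norm_num) (by norm_num) (by linarith)
    have e3 : 1 / 4 * ν ^ (3 - 4 * s) ≤ (3 / 4 : ℝ) ^ (3 - 4 * s) * ν ^ (3 - 4 * s) :=
      mul_le_mul_of_nonneg_right e2 (by positivity)
    linarith
  have k7 : c ^ (4 - 4 * s) = c * c ^ (3 - 4 * s) := by
    rw [show (4 - 4 * s : ℝ) = 1 + (3 - 4 * s) by ring, Real.rpow_add hc0, Real.rpow_one]
  rw [k7]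
  refine hEn.trans ?_
  have e1 : LT / (n * m ^ 3) + 5 * ν ≤ 3014661 * (4 * c ^ (3 - 4 * s)) := by
    calc LT / (n * m ^ 3) + 5 * ν ≤ 3014656 * ν ^ (3 - 4 * s) + 5 * ν ^ (3 - 4 * s) := by
          linarith
      _ = 3014661 * ν ^ (3 - 4 * s) := by ring
      _ ≤ _ := mul_le_mul_of_nonneg_left k6 (by norm_num)
  calc 4 * c * (LT / (n * m ^ 3) + 5 * ν) ≤ 4 * c * (3014661 * (4 * c ^ (3 - 4 * s))) :=
        mul_le_mul_of_nonneg_left e1 (by positivity)
    _ = 48234576 * (c * c ^ (3 - 4 * s)) := by ring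
    _ ≤ 10 ^ 8 * (c * c ^ (3 - 4 * s)) := by
        apply mul_le_mul_of_nonneg_right (by norm_num) (by positivity)

set_option maxHeartbeats 4000000 in
/-- **The lower bound.** -/
theorem lower (d : ℕ) (hd : 3 ≤ d) (s : ℝ) (hs1 : 1 / 4 ≤ s) (hs2 : s ≤ 1 / 2) (α : ℝ)
    (hgood : Good d s α) : min ((d : ℝ) / 2) ((d + 3) / (8 * s)) ≤ α := by
  by_contra hlt
  push Not at hlt
  have hdR : (3 : ℝ) ≤ d := by exact_mod_cast hd
  have hs0 : 0 < s := by linarith
  set μ : ℝ := min ((d : ℝ) / 2) ((d + 3) / (8 * s)) with hμ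
  have hμ0 : 0 < μ := by
    rw [hμ, lt_min_iff]
    constructor <;> positivity
  have hμ1 : μ ≤ (d : ℝ) / 2 := min_le_left _ _
  have hμ2 : 8 * μ * s ≤ d + 3 := by
    have h1 : μ ≤ (d + 3) / (8 * s) := min_le_right _ _
    rw [le_div_iff₀ (by positivity)] at h1
    linarith
  set α1 : ℝ := max α 0 with hα1
  have hα10 : 0 ≤ α1 := le_max_right _ _
  have hαα1 : α ≤ α1 := le_max_left _ _
  have hα1μ : α1 < μ := max_lt hlt hμ0
  set δ : ℝ := μ - α1 with hδ
  have hδ0 : 0 < δ := by linarith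
  set e : ℝ := α1 + δ / 2 with he
  have he0 : 0 < e := by linarith
  set β : ℝ := 1 - min (δ / 3) (1 / 2) with hβ
  have hβ1 : β < 1 := by
    have : 0 < min (δ / 3) (1 / 2) := lt_min (by linarith) (by norm_num)
    linarith
  have hβ2 : 1 / 2 ≤ β := by
    have : min (δ / 3) (1 / 2) ≤ 1 / 2 := min_le_right _ _
    linarith
  have hβ3 : 1 - δ / 3 ≤ β := by
    have : min (δ / 3) (1 / 2) ≤ δ / 3 := min_le_left _ _
    linarith
  -- exponents
  have hx1 : 2 * e < (d : ℝ) - 1 + β := by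
    have : 2 * e = 2 * μ - δ := by rw [he, hδ]; ring
    linarith
  have hx2 : 8 * e * s ≤ d + 3 * β := by
    have h1 : 8 * e * s = 8 * μ * s - 4 * δ * s := by rw [he, hδ]; ring
    have h2 : δ ≤ 4 * δ * s := by nlinarith
    linarith
  obtain ⟨C, c, hC, hc, H⟩ := hgood (10 ^ 8) (by norm_num)
  have e1 : ∀ᶠ x : ℝ in Filter.atTop, x ^ (-(((d : ℝ) - 1 + β) - 2 * e)) < 1 / 16 :=
    (tendsto_rpow_neg_atTop (by linarith)).eventually_lt_const (by positivity)
  have e2 : ∀ᶠ x : ℝ in Filter.atTop, x ^ (-(2 * e - 2 * α)) < 3 / (4 * C) :=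
    (tendsto_rpow_neg_atTop (by linarith)).eventually_lt_const (by positivity)
  have e3 : ∀ᶠ x : ℝ in Filter.atTop, x ^ (-(1 - β)) < c :=
    (tendsto_rpow_neg_atTop (by linarith)).eventually_lt_const hc
  obtain ⟨x0, hx0⟩ := Filter.eventually_atTop.1 (e1.and (e2.and e3))
  obtain ⟨p, hp, hpn, hpm⟩ := Nat.exists_prime_gt_modEq_one (k := 4) (⌈x0⌉₊ + 20) (by norm_num)
  have hp4 : p % 4 = 1 := hpm
  obtain ⟨P, hP⟩ : ∃ P : ℝ, P = (p : ℝ) := ⟨_, rfl⟩
  have hPx : x0 ≤ P := by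
    rw [hP]
    exact (Nat.le_ceil x0).trans (by exact_mod_cast (by omega : ⌈x0⌉₊ ≤ p))
  have hP16 : 16 ≤ P := by
    rw [hP]
    exact_mod_cast (by omega : 16 ≤ p)
  have hP1 : 1 ≤ P := by linarith
  have hP0 : 0 < P := by linarith
  obtain ⟨h1, h2, h3⟩ := hx0 P hPx
  -- the number of multiples
  have hPβ : 4 ≤ P ^ β := by
    calc (4 : ℝ) = (16 : ℝ) ^ (1 / 2 : ℝ) := by
          rw [show (16 : ℝ) = 4 ^ (2 : ℝ) by norm_num, ← Real.rpow_mul (by norm_num)]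
          norm_num
      _ ≤ P ^ (1 / 2 : ℝ) := Real.rpow_le_rpow (by norm_num) hP16 (by norm_num)
      _ ≤ P ^ β := Real.rpow_le_rpow_of_exponent_le hP1 hβ2
  obtain ⟨h, hh⟩ : ∃ h : ℕ, h = ⌊P ^ β / 2⌋₊ := ⟨_, rfl⟩
  have hh1 : (h : ℝ) ≤ P ^ β / 2 := by rw [hh]; exact Nat.floor_le (by positivity)
  have hh2 : P ^ β / 4 ≤ h := by
    have h5 : P ^ β / 2 < h + 1 := by rw [hh]; exact Nat.lt_floor_add_one _
    linarith
  have hhp : 2 * h ≤ p + 1 := by
    have h5 : (2 * h : ℝ) ≤ p := by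
      rw [← hP]
      calc 2 * (h : ℝ) ≤ P ^ β := by linarith
        _ ≤ P ^ (1 : ℝ) := Real.rpow_le_rpow_of_exponent_le hP1 hβ1.le
        _ = P := Real.rpow_one P
    have h6 : 2 * h ≤ p := by exact_mod_cast h5
    omega
  obtain ⟨F, iF, iFt, iD, T, hF2, hcard, hT1, hT2, hT3, hT4⟩ := family2 d hd p hp hp4 h hhp
  have hcardR : (Fintype.card F : ℝ) = P ^ 2 := by rw [hcard, hP]; push_cast; ring
  -- exponents
  have k1 : P ^ (d - 1) = P ^ ((d : ℝ) - 1) := by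
    rw [← Real.rpow_natCast, Nat.cast_sub (by omega)]; norm_num
  have k2 : P ^ (3 * d - 4) = P ^ (3 * (d : ℝ) - 4) := by
    rw [← Real.rpow_natCast, Nat.cast_sub (by omega)]; norm_num
  have hT1' : (h : ℝ) * P ^ (d - 1) ≤ 4 * T.card := by rw [hP]; exact_mod_cast hT1
  have hT3' : (energy T : ℝ) ≤ 46 * (h * P ^ (3 * d - 4)) := by rw [hP]; exact_mod_cast hT3
  have hT4' : ((distSet T).card : ℝ) ≤ 2 * h * P := by rw [hP]; exact_mod_cast hT4
  -- size of `T` compared with `P^{2e}`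
  have hsize : P ^ (2 * e) ≤ T.card := by
    have h5 : P ^ (2 * e) = P ^ ((d : ℝ) - 1 + β) * P ^ (-(((d : ℝ) - 1 + β) - 2 * e)) := by
      rw [← Real.rpow_add hP0]
      congr 1
      ring
    have h6 : P ^ ((d : ℝ) - 1 + β) * P ^ (-(((d : ℝ) - 1 + β) - 2 * e)) ≤
        P ^ ((d : ℝ) - 1 + β) * (1 / 16) := mul_le_mul_of_nonneg_left h1.le (by positivity)
    have h7 : P ^ ((d : ℝ) - 1 + β) ≤ 16 * T.card := by
      calc P ^ ((d : ℝ) - 1 + β) = P ^ β * P ^ (d - 1) := by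
            rw [k1, ← Real.rpow_add hP0]
            congr 1
            ring
        _ ≤ (4 * h) * P ^ (d - 1) := mul_le_mul_of_nonneg_right (by linarith) (by positivity)
        _ = 4 * (h * P ^ (d - 1)) := by ring
        _ ≤ 4 * (4 * T.card) := mul_le_mul_of_nonneg_left hT1' (by norm_num)
        _ = _ := by ring
    rw [h5]
    linarith
  -- the sparsification parameter
  have hPe : 1 ≤ P ^ (2 * e) := Real.one_le_rpow hP1 (by linarith)
  have hPe0 : 0 < P ^ (2 * e) := by linarith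
  have hratio : 1 ≤ (T.card : ℝ) / P ^ (2 * e) := by
    rw [le_div_iff₀ hPe0]
    linarith
  obtain ⟨k, hk⟩ : ∃ k : ℕ, ⌊(T.card : ℝ) / P ^ (2 * e)⌋₊ = k + 1 := by
    have : 1 ≤ ⌊(T.card : ℝ) / P ^ (2 * e)⌋₊ := Nat.le_floor (by exact_mod_cast hratio)
    exact ⟨⌊(T.card : ℝ) / P ^ (2 * e)⌋₊ - 1, by omega⟩
  have hk1 : ((k : ℝ) + 1) ≤ (T.card : ℝ) / P ^ (2 * e) := by
    have := Nat.floor_le (a := (T.card : ℝ) / P ^ (2 * e)) (by positivity)
    rw [hk] at this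
    exact_mod_cast this
  have hk2 : (T.card : ℝ) / P ^ (2 * e) ≤ 2 * ((k : ℝ) + 1) := by
    have := Nat.lt_floor_add_one ((T.card : ℝ) / P ^ (2 * e))
    rw [hk] at this
    push_cast at this
    have hk0 : (0 : ℝ) ≤ k := Nat.cast_nonneg k
    linarith
  have hkT : k + 1 ≤ T.card := by
    have h5 : (k : ℝ) + 1 ≤ T.card := by
      refine hk1.trans ?_
      rw [div_le_iff₀ hPe0]
      nlinarith [(Nat.cast_nonneg T.card : (0 : ℝ) ≤ T.card)]
    exact_mod_cast h5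
  have hk0 : (0 : ℝ) ≤ k := Nat.cast_nonneg k
  have hm0 : (0 : ℝ) < (k : ℝ) + 1 := by linarith
  have hν1 : P ^ (2 * e) ≤ (T.card : ℝ) / ((k : ℝ) + 1) := by
    rw [le_div_iff₀ hm0]
    rw [le_div_iff₀ hPe0] at hk1
    linarith
  have hν2 : (T.card : ℝ) / ((k : ℝ) + 1) ≤ 2 * P ^ (2 * e) := by
    rw [div_le_iff₀ hm0]
    rw [div_le_iff₀ hPe0] at hk2
    linarith
  obtain ⟨E, hET, hE1, hE2⟩ := sparse k T hkT
  have hEn : (energy E : ℝ) ≤ 10 ^ 8 * (E.card : ℝ) ^ (4 - 4 * s) := by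
    refine num_energy (P := P) (h := h) (n := T.card) (m := (k : ℝ) + 1) (e := e) (LT := energy T)
      (A := P ^ (d - 1)) (D := P ^ (3 * d - 4)) (β := β) (t := (d : ℝ)) hP1 hs1 hs2 hh2 hT1'
      (by positivity) (by positivity) hT3' ?_ (by linarith) hν1 hν2 he0.le hx2 hE1 hE2
    rw [k1, k2, ← Real.rpow_add hP0, ← Real.rpow_natCast, ← Real.rpow_mul hP0.le]
    congr 1
    push_cast
    ring
  have hconc := @H F iF iFt iD hF2 E (by
      have h5 : 0 ≤ (Fintype.card F : ℝ) ^ (-(d : ℝ)) * (E.card : ℝ) ^ 4 := by positivity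
      nlinarith) (by
      rw [hcardR, ← Real.rpow_natCast, ← Real.rpow_mul hP0.le]
      have h5 : P ^ (((2 : ℕ) : ℝ) * α) = P ^ (2 * e) * P ^ (-(2 * e - 2 * α)) := by
        rw [← Real.rpow_add hP0]
        congr 1
        push_cast
        ring
      rw [h5]
      have h6 : C * P ^ (-(2 * e - 2 * α)) ≤ 3 / 4 := by
        have := mul_le_mul_of_nonneg_left h2.le hC.le
        refine this.trans (le_of_eq ?_)
        field_simp
      have h7 : 3 / 4 * P ^ (2 * e) ≤ E.card := by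
        have h8 : 3 / 4 * ((T.card : ℝ) / ((k : ℝ) + 1)) ≤ E.card := by
          rw [mul_div_assoc', div_le_iff₀ hm0]
          linarith
        linarith
      calc C * (P ^ (2 * e) * P ^ (-(2 * e - 2 * α))) =
          (C * P ^ (-(2 * e - 2 * α))) * P ^ (2 * e) := by ring
        _ ≤ 3 / 4 * P ^ (2 * e) := mul_le_mul_of_nonneg_right h6 hPe0.le
        _ ≤ _ := h7)
  -- contradiction
  have hsub : distSet E ⊆ distSet T := by
    unfold distSet
    exact image_subset_image (product_subset_product hET hET)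
  have hdE : ((distSet E).card : ℝ) ≤ 2 * h * P := by
    refine le_trans ?_ hT4'
    exact_mod_cast card_le_card hsub
  have h5 : 2 * (h : ℝ) * P ≤ P ^ (-(1 - β)) * P ^ 2 := by
    have h6 : P ^ (-(1 - β)) * P ^ 2 = P ^ β * P := by
      rw [← Real.rpow_natCast, ← Real.rpow_add hP0]
      nth_rewrite 3 [← Real.rpow_one P]
      rw [← Real.rpow_add hP0]
      congr 1
      push_cast
      ring
    rw [h6]
    apply mul_le_mul_of_nonneg_right _ hP0.le
    linarith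
  rw [hcardR] at hconc
  have h7 : c * P ^ 2 ≤ P ^ (-(1 - β)) * P ^ 2 := hconc.trans (hdE.trans h5)
  have h8 : 0 < P ^ 2 := by positivity
  have h9 := le_of_mul_le_mul_right h7 h8
  linarith

end Run7.h191.Sal
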