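import Mathlib
import Pool.Agent.H654R5.T_Sphere

/-! The energy bound for the number of distances. -/

set_option autoImplicit false
set_option linter.unusedSectionVars false

namespace Run7.h191.Sal

open Finset Pool.H654R5

theorem fraser (m : ℕ) (F : Type) [Field F] [Fintype F] [DecidableEq F]
    (E : Finset (Fin (m + 1) → F)) :
    E.card ^ 4 ≤ ((distSet E).card * (2 * Fintype.card F ^ m)) * energy E := by
  set D : Finset (Fin (m + 1) → F) := (E ×ˢ E).image (fun p => p.1 - p.2) with hD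
  -- the number of differences
  have h1 : D.card ≤ (distSet E).card * (2 * Fintype.card F ^ m) := by
    have h2 := card_le_mul_card_image (f := fun v : Fin (m + 1) → F => ∑ i, v i ^ 2) D
      (2 * Fintype.card F ^ m) (by
        intro t _
        refine le_trans (card_le_card ?_) (sphere_up m F t)
        intro v hv
        rw [mem_filter] at hv ⊢
        exact ⟨mem_univ _, hv.2⟩)
    refine h2.trans ?_
    rw [mul_comm]
    apply Nat.mul_le_mul_right
    apply card_le_card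
    intro t ht
    obtain ⟨v, hv, rfl⟩ := mem_image.1 ht
    obtain ⟨p, hp, rfl⟩ := mem_image.1 hv
    unfold distSet
    rw [mem_image]
    exact ⟨p, hp, rfl⟩
  -- the sum of the numbers of representations
  set r : (Fin (m + 1) → F) → ℕ := fun v => ((E ×ˢ E).filter (fun p => p.1 - p.2 = v)).card with hr
  have h2 : ∑ v ∈ D, r v = E.card ^ 2 := by
    rw [hr, ← card_eq_sum_card_image, card_product, sq]
  -- the sum of the squares
  have h3 : ∑ v ∈ D, r v ^ 2 ≤ energy E := by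
    have h4 : ∀ v ∈ D, r v ^ 2 = (((E ×ˢ E) ×ˢ (E ×ˢ E)).filter
        (fun z => z.1.1 - z.1.2 = v ∧ z.2.1 - z.2.2 = v)).card := by
      intro v _
      rw [sq, hr, ← card_product]
      congr 1
      ext ⟨⟨x, y⟩, ⟨z, w⟩⟩
      simp only [mem_product, mem_filter]
      tauto
    rw [sum_congr rfl h4, ← card_sigma]
    unfold energy
    refine card_le_card_of_injOn (fun z => (z.2.1.1, z.2.2.2, z.2.2.1, z.2.1.2)) ?_ ?_
    · rintro ⟨v, ⟨⟨x, y⟩, ⟨z, w⟩⟩⟩ h
      rw [mem_coe, mem_sigma, mem_filter] at h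
      simp only [mem_product] at h
      rw [mem_coe, mem_filter]
      simp only [mem_product]
      obtain ⟨-, ⟨⟨hx, hy⟩, hz, hw⟩, e1, e2⟩ := h
      refine ⟨⟨hx, hw, hz, hy⟩, ?_⟩
      have e3 : x - y = z - w := e1.trans e2.symm
      exact sub_eq_sub_iff_add_eq_add.1 e3
    · rintro ⟨v, ⟨⟨x, y⟩, ⟨z, w⟩⟩⟩ h ⟨v', ⟨⟨x', y'⟩, ⟨z', w'⟩⟩⟩ h' heq
      rw [mem_coe, mem_sigma, mem_filter] at h h'
      simp only [Prod.mk.injEq] at heq
      obtain ⟨rfl, rfl, rfl, rfl⟩ := heq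
      have e1 : v = v' := h.2.2.1.symm.trans h'.2.2.1
      subst e1
      rfl
  -- Cauchy-Schwarz
  have h5 : (∑ v ∈ D, r v) ^ 2 ≤ D.card * ∑ v ∈ D, r v ^ 2 := sq_sum_le_card_mul_sum_sq
  calc E.card ^ 4 = (∑ v ∈ D, r v) ^ 2 := by rw [h2]; ring
    _ ≤ D.card * ∑ v ∈ D, r v ^ 2 := h5
    _ ≤ _ := Nat.mul_le_mul h1 h3

/-- the known upper bound `α(d,4,s) ≤ d/(4s)` for `d = 3`, `s = 1/2` -/
theorem good_three : Good 3 (1 / 2) (3 / 2) := by
  intro C0 hC0
  refine ⟨1, 1 / (4 * C0), one_pos, by positivity, ?_⟩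
  intro F _ _ _ _ E hen hE
  have hf := fraser 2 F E
  set q : ℝ := (Fintype.card F : ℝ) with hq
  set n : ℝ := (E.card : ℝ) with hn
  have hq0 : 0 < q := by
    rw [hq]
    exact_mod_cast Fintype.card_pos
  have hf' : n ^ 4 ≤ (((distSet E).card : ℝ) * (2 * q ^ 2)) * (energy E : ℝ) := by
    rw [hn, hq]
    exact_mod_cast hf
  rw [one_mul] at hE
  have hn0 : 0 < n := lt_of_lt_of_le (by positivity) hE
  have h1 : q ^ 3 ≤ n ^ 2 := by
    have h2 : (q ^ (3 / 2 : ℝ)) ^ 2 = q ^ 3 := by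
      rw [← Real.rpow_natCast, ← Real.rpow_mul hq0.le, ← Real.rpow_natCast]
      norm_num
    rw [← h2]
    exact pow_le_pow_left₀ (by positivity) hE 2
  have h2 : q ^ (-((3 : ℕ) : ℝ)) = (q ^ 3)⁻¹ := by
    rw [Real.rpow_neg hq0.le, Real.rpow_natCast]
  have h3 : n ^ (4 - 4 * (1 / 2 : ℝ)) = n ^ 2 := by
    rw [show (4 - 4 * (1 / 2 : ℝ)) = ((2 : ℕ) : ℝ) by norm_num, Real.rpow_natCast]
  rw [h2, h3] at hen
  have h4 : n ^ 2 ≤ (q ^ 3)⁻¹ * n ^ 4 := by
    rw [inv_mul_eq_div, le_div_iff₀ (by positivity)]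
    calc n ^ 2 * q ^ 3 ≤ n ^ 2 * n ^ 2 := mul_le_mul_of_nonneg_left h1 (by positivity)
      _ = n ^ 4 := by ring
  have h5 : (energy E : ℝ) ≤ 2 * C0 * ((q ^ 3)⁻¹ * n ^ 4) := by
    refine hen.trans ?_
    calc C0 * ((q ^ 3)⁻¹ * n ^ 4 + n ^ 2) ≤ C0 * ((q ^ 3)⁻¹ * n ^ 4 + (q ^ 3)⁻¹ * n ^ 4) :=
          mul_le_mul_of_nonneg_left (by linarith) hC0.le
      _ = _ := by ring
  have h6 : n ^ 4 ≤ (((distSet E).card : ℝ) * (2 * q ^ 2)) * (2 * C0 * ((q ^ 3)⁻¹ * n ^ 4)) :=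
    hf'.trans (mul_le_mul_of_nonneg_left h5 (by positivity))
  have h7 : (((distSet E).card : ℝ) * (2 * q ^ 2)) * (2 * C0 * ((q ^ 3)⁻¹ * n ^ 4)) =
      (((distSet E).card : ℝ) * (4 * C0) / q) * n ^ 4 := by
    field_simp
    ring
  rw [h7] at h6
  have h8 : 1 ≤ ((distSet E).card : ℝ) * (4 * C0) / q := by
    have h9 : 1 * n ^ 4 ≤ (((distSet E).card : ℝ) * (4 * C0) / q) * n ^ 4 := by linarith
    exact le_of_mul_le_mul_right h9 (by positivity)
  rw [le_div_iff₀ hq0] at h8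
  rw [one_div, inv_mul_le_iff₀ (by positivity)]
  linarith

end Run7.h191.Sal
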