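import Mathlib

set_option autoImplicit false

/-! # Generalised continuants: algebra and counting modulo primes -/

namespace Pool.Agent.Run7.h191.CT

open Finset

open scoped Classical

/-- The generalised continuant of `x i, …, x (i + l - 1)`: the determinant of the tridiagonal matrix with the
diagonal `x i, …, x (i + l - 1)` and the products `- b j` of the off-diagonal entries next to each other. -/
def kk {R : Type} [CommRing R] (b : ℕ → ℤ) (x : ℕ → R) (i : ℕ) : ℕ → R
  | 0 => 1
  | 1 => x i
  | (l + 2) => x (i + l + 1) * kk b x i (l + 1) + (b (i + l + 1) : R) * kk b x i l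

section alg

variable {R : Type} [CommRing R]

lemma kk_zero (b : ℕ → ℤ) (x : ℕ → R) (i : ℕ) : kk b x i 0 = 1 := rfl
lemma kk_one (b : ℕ → ℤ) (x : ℕ → R) (i : ℕ) : kk b x i 1 = x i := rfl
lemma kk_succ (b : ℕ → ℤ) (x : ℕ → R) (i l : ℕ) :
    kk b x i (l + 2) = x (i + l + 1) * kk b x i (l + 1) + (b (i + l + 1) : R) * kk b x i l := rfl

lemma kk_left (b : ℕ → ℤ) (x : ℕ → R) (l : ℕ) : ∀ i : ℕ,
    kk b x i (l + 2) = x i * kk b x (i + 1) (l + 1) + (b (i + 1) : R) * kk b x (i + 2) l := by
  induction l using Nat.strong_induction_on with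
  | _ l ih =>
    intro i
    match l with
    | 0 =>
      rw [kk_succ, kk_zero, kk_zero, kk_one, kk_one, Nat.add_zero]
      ring
    | 1 =>
      rw [kk_succ, kk_succ b x (i + 1) 0, kk_succ b x i 0, kk_zero, kk_one, kk_one, kk_one, kk_zero]
      rw [show i + 0 + 1 = i + 1 from rfl, show i + 1 + 0 + 1 = i + 2 from rfl, show i + 1 + 1 = i + 2 from rfl]
      ring
    | (m + 2) =>
      rw [kk_succ b x i (m + 2), ih (m + 1) (by omega) i, ih m (by omega) i, kk_succ b x (i + 1) (m + 1),
        kk_succ b x (i + 2) m]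
      rw [show i + (m + 2) + 1 = i + m + 3 by ring, show i + 1 + (m + 1) + 1 = i + m + 3 by ring,
        show i + 2 + m + 1 = i + m + 3 by ring]
      ring

lemma kk_congr (b : ℕ → ℤ) (x y : ℕ → R) (i : ℕ) : ∀ l : ℕ, (∀ j, i ≤ j → j < i + l → x j = y j) →
    kk b x i l = kk b y i l := by
  intro l
  induction l using Nat.strong_induction_on with
  | _ l ih =>
    intro h
    match l with
    | 0 => rfl
    | 1 => exact h i le_rfl (by omega)
    | (m + 2) =>
      rw [kk_succ, kk_succ, ih (m + 1) (by omega) (fun j h1 h2 => h j h1 (by omega)),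
        ih m (by omega) (fun j h1 h2 => h j h1 (by omega)), h (i + m + 1) (by omega) (by omega)]

lemma kk_map {S : Type} [CommRing S] (f : R →+* S) (b : ℕ → ℤ) (x : ℕ → R) (i : ℕ) : ∀ l : ℕ,
    f (kk b x i l) = kk b (fun n => f (x n)) i l := by
  intro l
  induction l using Nat.strong_induction_on with
  | _ l ih =>
    match l with
    | 0 => rw [kk_zero, kk_zero, map_one]
    | 1 => rfl
    | (m + 2) =>
      rw [kk_succ, kk_succ, map_add, map_mul, map_mul, map_intCast, ih (m + 1) (by omega), ih m (by omega)]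

end alg

section field

variable {F : Type} [Field F]

lemma coprime_right (b : ℕ → ℤ) (x : ℕ → F) (i : ℕ) : ∀ l : ℕ, (∀ j, i < j → j < i + l + 1 → (b j : F) ≠ 0) →
    kk b x i (l + 1) = 0 → kk b x i l = 0 → False := by
  intro l
  induction l with
  | zero => intro _ _ h2; rw [kk_zero] at h2; exact one_ne_zero h2
  | succ l ih =>
    intro hb h1 h2
    rw [show l + 1 + 1 = l + 2 from rfl, kk_succ, h2, mul_zero, zero_add] at h1
    rcases mul_eq_zero.1 h1 with h | h
    · exact hb (i + l + 1) (by omega) (by omega) h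
    · exact ih (fun j hj hj2 => hb j hj (by omega)) h2 h

lemma coprime_left (b : ℕ → ℤ) (x : ℕ → F) : ∀ (l i : ℕ), (∀ j, i < j → j < i + l + 1 → (b j : F) ≠ 0) →
    kk b x i (l + 1) = 0 → kk b x (i + 1) l = 0 → False := by
  intro l
  induction l with
  | zero => intro i _ _ h2; rw [kk_zero] at h2; exact one_ne_zero h2
  | succ l ih =>
    intro i hb h1 h2
    rw [show l + 1 + 1 = l + 2 from rfl, kk_left, h2, mul_zero, zero_add] at h1
    rcases mul_eq_zero.1 h1 with h | h
    · exact hb (i + 1) (by omega) (by omega) h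
    · exact ih (i + 1) (fun j hj hj2 => hb j (by omega) (by omega)) h2 h

end field

section count

variable {d p : ℕ} [hp : Fact p.Prime]

/-- `G` does not depend on the coordinate `t` -/
def Inv {α : Type} (t : Fin d) (G : (Fin d → ZMod p) → α) : Prop :=
  ∀ x c, G (Function.update x t c) = G x

/-- the number of points with the property `P` -/
noncomputable def nn (P : (Fin d → ZMod p) → Prop) : ℕ := Nat.card {x : Fin d → ZMod p // P x}

lemma nn_eq (P : (Fin d → ZMod p) → Prop) : nn P = (univ.filter P).card := by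
  rw [nn, Nat.card_eq_fintype_card, Fintype.card_subtype]

lemma nn_mono {P Q : (Fin d → ZMod p) → Prop} (h : ∀ x, P x → Q x) : nn P ≤ nn Q := by
  rw [nn_eq, nn_eq]
  exact card_le_card fun x hx => by
    rw [mem_filter] at hx ⊢
    exact ⟨hx.1, h x hx.2⟩

lemma nn_zero {P : (Fin d → ZMod p) → Prop} (h : ∀ x, ¬ P x) : nn P = 0 := by
  rw [nn_eq, card_eq_zero, filter_eq_empty_iff]
  exact fun x _ => h x

lemma nn_split (P Q : (Fin d → ZMod p) → Prop) : nn P = nn (fun x => P x ∧ Q x) + nn (fun x => P x ∧ ¬ Q x) := by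
  have h := card_filter_add_card_filter_not (s := univ.filter P) Q
  rw [filter_filter, filter_filter] at h
  rw [nn_eq, nn_eq, nn_eq, ← h]
  congr 1 <;> congr 1 <;> ext x <;> simp only [mem_filter]

lemma nn_true : nn (fun _ : Fin d → ZMod p => True) = p ^ d := by
  have h : (univ.filter fun _ : Fin d → ZMod p => True) = univ := by
    ext x
    simp only [mem_filter, mem_univ, and_true]
  have h2 : nn (fun _ : Fin d → ZMod p => True) = (univ.filter fun _ : Fin d → ZMod p => True).card := by
    rw [nn_eq]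
    congr 1
    ext x
    simp only [mem_filter]
  rw [h2, h, card_univ, Fintype.card_fun, ZMod.card, Fintype.card_fin]

lemma nn_congr {P Q : (Fin d → ZMod p) → Prop} (h : ∀ x, P x ↔ Q x) : nn P = nn Q :=
  le_antisymm (nn_mono fun x => (h x).1) (nn_mono fun x => (h x).2)

/-- fibres of a linear equation -/
lemma fib (t : Fin d) (A B : (Fin d → ZMod p) → ZMod p) (Q : (Fin d → ZMod p) → Prop) (hA : Inv t A)
    (hB : Inv t B) (hQ : Inv t Q) (r : ZMod p) :
    p * nn (fun x => Q x ∧ A x ≠ 0 ∧ x t * A x + B x = r) = nn (fun x => Q x ∧ A x ≠ 0) := by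
  have e : {x : Fin d → ZMod p // Q x ∧ A x ≠ 0 ∧ x t * A x + B x = r} × ZMod p ≃
      {x : Fin d → ZMod p // Q x ∧ A x ≠ 0} :=
    { toFun := fun z => ⟨Function.update z.1.1 t z.2, by
        rw [hA, hQ]
        exact ⟨z.1.2.1, z.1.2.2.1⟩⟩
      invFun := fun y => (⟨Function.update y.1 t ((r - B y.1) / A y.1), by
        rw [hA, hQ, hB, Function.update_self]
        refine ⟨y.2.1, y.2.2, ?_⟩
        rw [div_mul_cancel₀ _ y.2.2]
        ring⟩, y.1 t)
      left_inv := by
        rintro ⟨⟨x, hx1, hx2, hx3⟩, c⟩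
        have h2 : (r - B x) / A x = x t := by
          rw [div_eq_iff hx2, ← hx3]
          ring
        refine Prod.ext (Subtype.ext ?_) ?_
        · show Function.update (Function.update x t c) t ((r - B (Function.update x t c)) /
            A (Function.update x t c)) = x
          rw [hA, hB, h2, Function.update_idem, Function.update_eq_self]
        · show Function.update x t c t = c
          rw [Function.update_self]
      right_inv := by
        rintro ⟨y, hy⟩
        refine Subtype.ext ?_
        show Function.update (Function.update y t ((r - B y) / A y)) t (y t) = y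
        rw [Function.update_idem, Function.update_eq_self] }
  have h := Nat.card_congr e
  rw [Nat.card_prod, Nat.card_zmod] at h
  rw [nn, nn, ← h, mul_comm]

/-- fibres of a coordinate -/
lemma fib_one (t : Fin d) (Q : (Fin d → ZMod p) → Prop) (hQ : Inv t Q) (r : ZMod p) :
    p * nn (fun x => Q x ∧ x t = r) = nn Q := by
  have h := fib (p := p) t (fun _ => 1) (fun _ => 0) Q (fun _ _ => rfl) (fun _ _ => rfl) hQ r
  rw [nn_congr (P := fun x => Q x ∧ x t = r) (Q := fun x => Q x ∧ (1 : ZMod p) ≠ 0 ∧ x t * 1 + 0 = r)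
    (fun x => by rw [mul_one, add_zero]; exact ⟨fun h => ⟨h.1, one_ne_zero, h.2⟩, fun h => ⟨h.1, h.2.2⟩⟩), h]
  exact nn_congr fun x => ⟨fun h => h.1, fun h => ⟨h, one_ne_zero⟩⟩

end count

end Pool.Agent.Run7.h191.CT
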