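import Pool.Agent.Run7.h191.Cont1

set_option autoImplicit false

/-! # Generalised continuants: the counts modulo primes -/

namespace Pool.Agent.Run7.h191.CT

open Finset

open scoped Classical

/-- extension by zero of a finite sequence -/
def ex {R : Type} [Zero R] {d : ℕ} (x : Fin d → R) (n : ℕ) : R := if h : n < d then x ⟨n, h⟩ else 0

lemma ex_lt {R : Type} [Zero R] {d : ℕ} (x : Fin d → R) {n : ℕ} (h : n < d) : ex x n = x ⟨n, h⟩ := dif_pos h

lemma ex_update {R : Type} [Zero R] {d : ℕ} (x : Fin d → R) (t : Fin d) (c : R) (n : ℕ) (h : n ≠ t.val) :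
    ex (Function.update x t c) n = ex x n := by
  unfold ex
  split_ifs with h1
  · rw [Function.update_of_ne]
    intro h2
    exact h (by rw [← h2])
  · rfl

section count

variable {d p : ℕ} [hp : Fact p.Prime] (b : ℕ → ℤ)

/-- the continuant as a function modulo `p` -/
def KK (i l : ℕ) (x : Fin d → ZMod p) : ZMod p := kk b (ex x) i l

lemma KK_inv (t : Fin d) (i l : ℕ) (h : t.val < i ∨ i + l ≤ t.val) : Inv t (KK (p := p) b i l) := by
  intro x c
  refine kk_congr b _ _ i l fun j h1 h2 => ex_update x t c j (by omega)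

lemma KK_right (i m : ℕ) (h : i + m + 1 < d) (x : Fin d → ZMod p) :
    KK b i (m + 2) x = x ⟨i + m + 1, h⟩ * KK b i (m + 1) x + (b (i + m + 1) : ZMod p) * KK b i m x := by
  unfold KK
  rw [kk_succ, ex_lt x h]

lemma KK_left (i m : ℕ) (h : i < d) (x : Fin d → ZMod p) :
    KK b i (m + 2) x = x ⟨i, h⟩ * KK b (i + 1) (m + 1) x + (b (i + 1) : ZMod p) * KK b (i + 2) m x := by
  unfold KK
  rw [kk_left, ex_lt x h]

variable (hb : ∀ j, j < d → (b j : ZMod p) ≠ 0)

include hb

lemma Zr {i l : ℕ} (hl : 1 ≤ l) (h : i + l + 1 ≤ d)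
    (hN : ∀ r : ZMod p, p * nn (fun x : Fin d → ZMod p => KK b i l x = r) ≤ 2 * p ^ d) (s : ZMod p) :
    p * (p * nn (fun x : Fin d → ZMod p => KK b i (l + 1) x = 0 ∧ KK b i l x = s)) ≤ 2 * p ^ d := by
  by_cases hs : s = 0
  · subst hs
    rw [nn_zero]
    · simp
    · rintro x ⟨h1, h2⟩
      exact coprime_right b (ex x) i l (fun j h3 h4 => hb j (by omega)) h1 h2
  · obtain ⟨m, rfl⟩ : ∃ m, l = m + 1 := ⟨l - 1, by omega⟩
    have ht : i + m + 1 < d := by omega
    have h1 := fib (p := p) ⟨i + m + 1, ht⟩ (KK b i (m + 1)) (fun x => (b (i + m + 1) : ZMod p) * KK b i m x)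
      (fun x => KK b i (m + 1) x = s) (KK_inv b _ i (m + 1) (Or.inr (by show i + (m + 1) ≤ i + m + 1; omega)))
      (fun x c => by
        show (b (i + m + 1) : ZMod p) * KK b i m _ = (b (i + m + 1) : ZMod p) * KK b i m _
        rw [KK_inv b ⟨i + m + 1, ht⟩ i m (Or.inr (by show i + m ≤ i + m + 1; omega)) x c])
      (fun x c => by
        show (KK b i (m + 1) _ = s) = (KK b i (m + 1) _ = s)
        rw [KK_inv b ⟨i + m + 1, ht⟩ i (m + 1) (Or.inr (by show i + (m + 1) ≤ i + m + 1; omega)) x c]) 0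
    have h2 : nn (fun x : Fin d → ZMod p => KK b i (m + 1 + 1) x = 0 ∧ KK b i (m + 1) x = s) ≤
        nn (fun x : Fin d → ZMod p => KK b i (m + 1) x = s ∧ KK b i (m + 1) x ≠ 0 ∧
          x ⟨i + m + 1, ht⟩ * KK b i (m + 1) x + (b (i + m + 1) : ZMod p) * KK b i m x = 0) := by
      refine nn_mono fun x hx => ⟨hx.2, by rw [hx.2]; exact hs, ?_⟩
      rw [← KK_right]
      exact hx.1
    have h3 : nn (fun x : Fin d → ZMod p => KK b i (m + 1) x = s ∧ KK b i (m + 1) x ≠ 0) ≤
        nn (fun x : Fin d → ZMod p => KK b i (m + 1) x = s) := nn_mono fun x hx => hx.1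
    calc p * (p * nn (fun x : Fin d → ZMod p => KK b i (m + 1 + 1) x = 0 ∧ KK b i (m + 1) x = s))
        ≤ p * (p * nn (fun x : Fin d → ZMod p => KK b i (m + 1) x = s ∧ KK b i (m + 1) x ≠ 0 ∧
          x ⟨i + m + 1, ht⟩ * KK b i (m + 1) x + (b (i + m + 1) : ZMod p) * KK b i m x = 0)) :=
          Nat.mul_le_mul_left _ (Nat.mul_le_mul_left _ h2)
      _ = p * nn (fun x : Fin d → ZMod p => KK b i (m + 1) x = s ∧ KK b i (m + 1) x ≠ 0) := by rw [h1]
      _ ≤ p * nn (fun x : Fin d → ZMod p => KK b i (m + 1) x = s) := Nat.mul_le_mul_left _ h3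
      _ ≤ 2 * p ^ d := hN s

lemma Zl {i l : ℕ} (hl : 1 ≤ l) (h : i + l + 1 ≤ d)
    (hN : ∀ r : ZMod p, p * nn (fun x : Fin d → ZMod p => KK b (i + 1) l x = r) ≤ 2 * p ^ d) (s : ZMod p) :
    p * (p * nn (fun x : Fin d → ZMod p => KK b i (l + 1) x = 0 ∧ KK b (i + 1) l x = s)) ≤ 2 * p ^ d := by
  by_cases hs : s = 0
  · subst hs
    rw [nn_zero]
    · simp
    · rintro x ⟨h1, h2⟩
      exact coprime_left b (ex x) l i (fun j h3 h4 => hb j (by omega)) h1 h2
  · obtain ⟨m, rfl⟩ : ∃ m, l = m + 1 := ⟨l - 1, by omega⟩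
    have ht : i < d := by omega
    have h1 := fib (p := p) ⟨i, ht⟩ (KK b (i + 1) (m + 1)) (fun x => (b (i + 1) : ZMod p) * KK b (i + 2) m x)
      (fun x => KK b (i + 1) (m + 1) x = s) (KK_inv b _ (i + 1) (m + 1) (Or.inl (by show i < i + 1; omega)))
      (fun x c => by
        show (b (i + 1) : ZMod p) * KK b (i + 2) m _ = (b (i + 1) : ZMod p) * KK b (i + 2) m _
        rw [KK_inv b ⟨i, ht⟩ (i + 2) m (Or.inl (by show i < i + 2; omega)) x c])
      (fun x c => by
        show (KK b (i + 1) (m + 1) _ = s) = (KK b (i + 1) (m + 1) _ = s)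
        rw [KK_inv b ⟨i, ht⟩ (i + 1) (m + 1) (Or.inl (by show i < i + 1; omega)) x c]) 0
    have h2 : nn (fun x : Fin d → ZMod p => KK b i (m + 1 + 1) x = 0 ∧ KK b (i + 1) (m + 1) x = s) ≤
        nn (fun x : Fin d → ZMod p => KK b (i + 1) (m + 1) x = s ∧ KK b (i + 1) (m + 1) x ≠ 0 ∧
          x ⟨i, ht⟩ * KK b (i + 1) (m + 1) x + (b (i + 1) : ZMod p) * KK b (i + 2) m x = 0) := by
      refine nn_mono fun x hx => ⟨hx.2, by rw [hx.2]; exact hs, ?_⟩
      rw [← KK_left]
      exact hx.1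
    have h3 : nn (fun x : Fin d → ZMod p => KK b (i + 1) (m + 1) x = s ∧ KK b (i + 1) (m + 1) x ≠ 0) ≤
        nn (fun x : Fin d → ZMod p => KK b (i + 1) (m + 1) x = s) := nn_mono fun x hx => hx.1
    calc p * (p * nn (fun x : Fin d → ZMod p => KK b i (m + 1 + 1) x = 0 ∧ KK b (i + 1) (m + 1) x = s))
        ≤ p * (p * nn (fun x : Fin d → ZMod p => KK b (i + 1) (m + 1) x = s ∧ KK b (i + 1) (m + 1) x ≠ 0 ∧
          x ⟨i, ht⟩ * KK b (i + 1) (m + 1) x + (b (i + 1) : ZMod p) * KK b (i + 2) m x = 0)) :=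
          Nat.mul_le_mul_left _ (Nat.mul_le_mul_left _ h2)
      _ = p * nn (fun x : Fin d → ZMod p => KK b (i + 1) (m + 1) x = s ∧ KK b (i + 1) (m + 1) x ≠ 0) := by rw [h1]
      _ ≤ p * nn (fun x : Fin d → ZMod p => KK b (i + 1) (m + 1) x = s) := Nat.mul_le_mul_left _ h3
      _ ≤ 2 * p ^ d := hN s

omit hb in
lemma mul_cancel_le {a c : ℕ} (h : p * a ≤ 2 * c) : a ≤ c := by
  have h2 := hp.out.two_le
  have h3 : 2 * a ≤ p * a := Nat.mul_le_mul_right _ h2
  omega

/-- the defect set of the expansion at the last coordinate -/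
lemma Wr {i m : ℕ} (hm : 1 ≤ m) (h : i + m + 1 < d)
    (hN : ∀ r : ZMod p, p * nn (fun x : Fin d → ZMod p => KK b i m x = r) ≤ 2 * p ^ d) (s : ZMod p) :
    p * (p * nn (fun x : Fin d → ZMod p => KK b i (m + 1) x = 0 ∧ (b (i + m + 1) : ZMod p) * KK b i m x = s)) ≤
      2 * p ^ d := by
  refine le_trans (Nat.mul_le_mul_left _ (Nat.mul_le_mul_left _ (nn_mono ?_)))
    (Zr b hb hm (by omega) hN (s / (b (i + m + 1) : ZMod p)))
  rintro x ⟨h1, h2⟩
  refine ⟨h1, ?_⟩
  rw [eq_div_iff (hb _ h), mul_comm]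
  exact h2

/-- the defect set of the expansion at the first coordinate -/
lemma Wl {i m : ℕ} (hm : 1 ≤ m) (h : i + m + 1 < d)
    (hN : ∀ r : ZMod p, p * nn (fun x : Fin d → ZMod p => KK b (i + 2) m x = r) ≤ 2 * p ^ d) (s : ZMod p) :
    p * (p * nn (fun x : Fin d → ZMod p => KK b (i + 1) (m + 1) x = 0 ∧ (b (i + 1) : ZMod p) * KK b (i + 2) m x = s)) ≤
      2 * p ^ d := by
  refine le_trans (Nat.mul_le_mul_left _ (Nat.mul_le_mul_left _ (nn_mono ?_)))
    (Zl b hb hm (by omega) hN (s / (b (i + 1) : ZMod p)))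
  rintro x ⟨h1, h2⟩
  refine ⟨h1, ?_⟩
  rw [eq_div_iff (hb (i + 1) (by omega)), mul_comm]
  exact h2

omit hb in
/-- the expansion of the count -/
lemma expand {i m : ℕ} (h : i + m + 1 < d) (r : ZMod p) :
    p * nn (fun x : Fin d → ZMod p => KK b i (m + 2) x = r) =
      nn (fun x : Fin d → ZMod p => KK b i (m + 1) x ≠ 0) +
        p * nn (fun x : Fin d → ZMod p => KK b i (m + 1) x = 0 ∧ (b (i + m + 1) : ZMod p) * KK b i m x = r) := by
  have h1 := fib (p := p) ⟨i + m + 1, h⟩ (KK b i (m + 1)) (fun x => (b (i + m + 1) : ZMod p) * KK b i m x)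
    (fun _ => True) (KK_inv b _ i (m + 1) (Or.inr (by show i + (m + 1) ≤ i + m + 1; omega)))
    (fun x c => by
      show (b (i + m + 1) : ZMod p) * KK b i m _ = (b (i + m + 1) : ZMod p) * KK b i m _
      rw [KK_inv b ⟨i + m + 1, h⟩ i m (Or.inr (by show i + m ≤ i + m + 1; omega)) x c])
    (fun x c => rfl) r
  rw [nn_split _ (fun x => KK b i (m + 1) x ≠ 0), mul_add]
  congr 1
  · rw [nn_congr (Q := fun x : Fin d → ZMod p => True ∧ KK b i (m + 1) x ≠ 0)
      (fun x => ⟨fun h => ⟨trivial, h⟩, fun h => h.2⟩), ← h1]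
    congr 1
    refine nn_congr fun x => ?_
    rw [KK_right b i m h]
    exact ⟨fun h => ⟨trivial, h.2, h.1⟩, fun h => ⟨h.2.2, h.2.1⟩⟩
  · congr 1
    refine nn_congr fun x => ?_
    rw [KK_right b i m h]
    constructor
    · rintro ⟨h2, h3⟩
      have h4 : KK b i (m + 1) x = 0 := not_not.1 h3
      rw [h4, mul_zero, zero_add] at h2
      exact ⟨h4, h2⟩
    · rintro ⟨h2, h3⟩
      refine ⟨?_, not_not.2 h2⟩
      rw [h2, mul_zero, zero_add, h3]

omit hb in
lemma nn_le (P : (Fin d → ZMod p) → Prop) : nn P ≤ p ^ d := by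
  rw [← nn_true]
  exact nn_mono fun _ _ => trivial

omit hb in
lemma count_one {i : ℕ} (h : i < d) (r : ZMod p) :
    p * nn (fun x : Fin d → ZMod p => KK b i 1 x = r) = p ^ d := by
  have h1 := fib_one (p := p) ⟨i, h⟩ (fun _ => True) (fun _ _ => rfl) r
  rw [nn_true] at h1
  rw [← h1]
  congr 1
  refine nn_congr fun x => ?_
  show KK b i 1 x = r ↔ True ∧ x ⟨i, h⟩ = r
  rw [KK, kk_one, ex_lt x h]
  exact ⟨fun h => ⟨trivial, h⟩, fun h => h.2⟩

/-- the upper bound for the number of points with a given continuant -/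
lemma count_le (l : ℕ) : ∀ i : ℕ, 1 ≤ l → i + l ≤ d → ∀ r : ZMod p,
    p * nn (fun x : Fin d → ZMod p => KK b i l x = r) ≤ 2 * p ^ d := by
  induction l using Nat.strong_induction_on with
  | _ l ih =>
    intro i hl h r
    match l with
    | 0 => omega
    | 1 => rw [count_one b (by omega) r]; omega
    | (m + 2) =>
      rw [expand b (by omega) r]
      have h1 : nn (fun x : Fin d → ZMod p => KK b i (m + 1) x ≠ 0) ≤ p ^ d := nn_le _
      have h2 : p * nn (fun x : Fin d → ZMod p => KK b i (m + 1) x = 0 ∧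
          (b (i + m + 1) : ZMod p) * KK b i m x = r) ≤ p ^ d := by
        match m with
        | 0 =>
          rw [← count_one b (show i < d by omega) 0]
          exact Nat.mul_le_mul_left _ (nn_mono fun x hx => hx.1)
        | (k + 1) =>
          exact mul_cancel_le (Wr b hb (by omega) (by omega) (ih (k + 1) (by omega) i (by omega) (by omega)) r)
      omega

/-- the defect of the uniform distribution -/
lemma count_unif {i l : ℕ} (hl : 1 ≤ l) (h : i + l ≤ d) (r : ZMod p) (hr : l = 2 → r ≠ (b (i + 1) : ZMod p)) :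
    |(p : ℝ) * (nn (fun x : Fin d → ZMod p => KK b i l x = r) : ℝ) - (p : ℝ) ^ d| ≤ 2 * (p : ℝ) ^ d * (p : ℝ)⁻¹ := by
  have hp0 : (0 : ℝ) < p := by exact_mod_cast hp.out.pos
  match l with
  | 0 => omega
  | 1 =>
    have h1 := count_one (p := p) b (show i < d by omega) r
    have h2 : (p : ℝ) * (nn (fun x : Fin d → ZMod p => KK b i 1 x = r) : ℝ) = (p : ℝ) ^ d := by exact_mod_cast h1
    rw [h2, sub_self, abs_zero]
    positivity
  | (m + 2) =>
    have h1 := expand (p := p) b (show i + m + 1 < d by omega) r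
    have h2 := nn_split (fun _ : Fin d → ZMod p => True) (fun x => KK b i (m + 1) x ≠ 0)
    rw [nn_true] at h2
    have h3 : nn (fun x : Fin d → ZMod p => True ∧ KK b i (m + 1) x ≠ 0) =
        nn (fun x : Fin d → ZMod p => KK b i (m + 1) x ≠ 0) :=
      nn_congr fun x => ⟨fun h => h.2, fun h => ⟨trivial, h⟩⟩
    have h4 : nn (fun x : Fin d → ZMod p => True ∧ ¬ KK b i (m + 1) x ≠ 0) =
        nn (fun x : Fin d → ZMod p => KK b i (m + 1) x = 0) :=
      nn_congr fun x => ⟨fun h => not_not.1 h.2, fun h => ⟨trivial, not_not.2 h⟩⟩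
    rw [h3, h4] at h2
    have h5 := count_le b hb (m + 1) i (by omega) (by omega) 0
    have h6 : p * (p * nn (fun x : Fin d → ZMod p => KK b i (m + 1) x = 0 ∧
          (b (i + m + 1) : ZMod p) * KK b i m x = r)) ≤ 2 * p ^ d := by
      match m with
      | 0 =>
        rw [nn_zero]
        · simp
        · rintro x ⟨-, h7⟩
          rw [KK, kk_zero, mul_one] at h7
          exact hr rfl h7.symm
      | (k + 1) => exact Wr b hb (by omega) (by omega) (count_le b hb (k + 1) i (by omega) (by omega)) r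
    generalize nn (fun x : Fin d → ZMod p => KK b i (m + 2) x = r) = a1 at h1 ⊢
    generalize nn (fun x : Fin d → ZMod p => KK b i (m + 1) x ≠ 0) = a2 at h1 h2
    generalize nn (fun x : Fin d → ZMod p => KK b i (m + 1) x = 0) = a3 at h2 h5
    generalize nn (fun x : Fin d → ZMod p => KK b i (m + 1) x = 0 ∧
          (b (i + m + 1) : ZMod p) * KK b i m x = r) = a4 at h1 h6
    have e1 : (p : ℝ) * a1 = a2 + p * a4 := by exact_mod_cast h1
    have e2 : (p : ℝ) ^ d = a2 + a3 := by exact_mod_cast h2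
    have e3 : (p : ℝ) * a3 ≤ 2 * (p : ℝ) ^ d := by exact_mod_cast h5
    have e4 : (p : ℝ) * (p * a4) ≤ 2 * (p : ℝ) ^ d := by exact_mod_cast h6
    have e5 : (a3 : ℝ) ≤ 2 * (p : ℝ) ^ d * (p : ℝ)⁻¹ := by
      rw [← div_eq_mul_inv, le_div_iff₀ hp0, mul_comm]
      exact e3
    have e6 : (p : ℝ) * a4 ≤ 2 * (p : ℝ) ^ d * (p : ℝ)⁻¹ := by
      rw [← div_eq_mul_inv, le_div_iff₀ hp0, mul_comm]
      exact e4
    have e7 : (0 : ℝ) ≤ a3 := by positivity
    have e8 : (0 : ℝ) ≤ (p : ℝ) * a4 := by positivity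
    rw [e1, abs_le]
    constructor <;> linarith

omit hb in
/-- the abstract pair bound -/
lemma pair_abs (t : Fin d) (F A B : (Fin d → ZMod p) → ZMod p) (hF : Inv t F) (hA : Inv t A) (hB : Inv t B)
    (r s : ZMod p) (h1 : p * nn (fun x => F x = r) ≤ 2 * p ^ d)
    (h2 : p * (p * nn (fun x => A x = 0 ∧ B x = s)) ≤ 2 * p ^ d) :
    p * (p * nn (fun x => F x = r ∧ x t * A x + B x = s)) ≤ 4 * p ^ d := by
  have h3 := fib (p := p) t A B (fun x => F x = r) hA hB (fun x c => by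
    show (F _ = r) = (F _ = r)
    rw [hF]) s
  rw [nn_split _ (fun x => A x ≠ 0), mul_add, mul_add]
  have h4 : nn (fun x => (F x = r ∧ x t * A x + B x = s) ∧ A x ≠ 0) ≤
      nn (fun x => F x = r ∧ A x ≠ 0 ∧ x t * A x + B x = s) := nn_mono fun x hx => ⟨hx.1.1, hx.2, hx.1.2⟩
  have h5 : nn (fun x => F x = r ∧ A x ≠ 0) ≤ nn (fun x => F x = r) := nn_mono fun x hx => hx.1
  have h6 : nn (fun x => (F x = r ∧ x t * A x + B x = s) ∧ ¬ A x ≠ 0) ≤ nn (fun x => A x = 0 ∧ B x = s) := by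
    refine nn_mono fun x hx => ?_
    have h7 : A x = 0 := not_not.1 hx.2
    have h8 := hx.1.2
    rw [h7, mul_zero, zero_add] at h8
    exact ⟨h7, h8⟩
  have e1 : p * (p * nn (fun x => (F x = r ∧ x t * A x + B x = s) ∧ A x ≠ 0)) ≤ 2 * p ^ d := by
    calc _ ≤ p * (p * nn (fun x => F x = r ∧ A x ≠ 0 ∧ x t * A x + B x = s)) :=
          Nat.mul_le_mul_left _ (Nat.mul_le_mul_left _ h4)
      _ = p * nn (fun x => F x = r ∧ A x ≠ 0) := by rw [h3]
      _ ≤ p * nn (fun x => F x = r) := Nat.mul_le_mul_left _ h5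
      _ ≤ _ := h1
  have e2 : p * (p * nn (fun x => (F x = r ∧ x t * A x + B x = s) ∧ ¬ A x ≠ 0)) ≤ 2 * p ^ d :=
    le_trans (Nat.mul_le_mul_left _ (Nat.mul_le_mul_left _ h6)) h2
  omega

/-- the pair bound, when the last indices are different -/
lemma pair_right {i l i' l' : ℕ} (hl : 1 ≤ l) (h : i + l ≤ d) (hl' : 1 ≤ l') (h' : i' + l' ≤ d)
    (hlt : i + l < i' + l') (r s : ZMod p) (hs : l' = 2 → s ≠ (b (i' + 1) : ZMod p)) :
    p * (p * nn (fun x : Fin d → ZMod p => KK b i l x = r ∧ KK b i' l' x = s)) ≤ 4 * p ^ d := by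
  match l' with
  | 0 => omega
  | 1 =>
    have ht : i' < d := by omega
    have h1 := pair_abs (p := p) ⟨i', ht⟩ (KK b i l) (fun _ => 1) (fun _ => 0)
      (KK_inv b _ i l (Or.inr (by show i + l ≤ i'; omega))) (fun _ _ => rfl) (fun _ _ => rfl) r s
      (count_le b hb l i hl h r) (by
        rw [nn_zero]
        · simp
        · exact fun x hx => one_ne_zero hx.1)
    refine le_of_eq_of_le ?_ h1
    congr 2
    refine nn_congr fun x => ?_
    rw [mul_one, add_zero, KK, KK, kk_one, ex_lt x ht]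
  | (m + 2) =>
    have ht : i' + m + 1 < d := by omega
    have h1 := pair_abs (p := p) ⟨i' + m + 1, ht⟩ (KK b i l) (KK b i' (m + 1))
      (fun x => (b (i' + m + 1) : ZMod p) * KK b i' m x)
      (KK_inv b _ i l (Or.inr (by show i + l ≤ i' + m + 1; omega)))
      (KK_inv b _ i' (m + 1) (Or.inr (by show i' + (m + 1) ≤ i' + m + 1; omega)))
      (fun x c => by
        show (b (i' + m + 1) : ZMod p) * KK b i' m _ = (b (i' + m + 1) : ZMod p) * KK b i' m _
        rw [KK_inv b ⟨i' + m + 1, ht⟩ i' m (Or.inr (by show i' + m ≤ i' + m + 1; omega)) x c]) r s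
      (count_le b hb l i hl h r) (by
        match m with
        | 0 =>
          rw [nn_zero]
          · simp
          · rintro x ⟨-, h7⟩
            rw [KK, kk_zero, mul_one] at h7
            exact hs rfl h7.symm
        | (k + 1) => exact Wr b hb (by omega) (by omega) (count_le b hb (k + 1) i' (by omega) (by omega)) s)
    refine le_of_eq_of_le ?_ h1
    congr 2
    refine nn_congr fun x => ?_
    rw [KK_right b i' m ht]

/-- the pair bound, when the first indices are different -/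
lemma pair_left {i l i' l' : ℕ} (hl : 1 ≤ l) (h : i + l ≤ d) (hl' : 1 ≤ l') (h' : i' + l' ≤ d)
    (hlt : i' < i) (r s : ZMod p) (hs : l' = 2 → s ≠ (b (i' + 1) : ZMod p)) :
    p * (p * nn (fun x : Fin d → ZMod p => KK b i l x = r ∧ KK b i' l' x = s)) ≤ 4 * p ^ d := by
  have ht : i' < d := by omega
  match l' with
  | 0 => omega
  | 1 =>
    have h1 := pair_abs (p := p) ⟨i', ht⟩ (KK b i l) (fun _ => 1) (fun _ => 0)
      (KK_inv b _ i l (Or.inl (by show i' < i; omega))) (fun _ _ => rfl) (fun _ _ => rfl) r s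
      (count_le b hb l i hl h r) (by
        rw [nn_zero]
        · simp
        · exact fun x hx => one_ne_zero hx.1)
    refine le_of_eq_of_le ?_ h1
    congr 2
    refine nn_congr fun x => ?_
    rw [mul_one, add_zero, KK, KK, kk_one, ex_lt x ht]
  | (m + 2) =>
    have h1 := pair_abs (p := p) ⟨i', ht⟩ (KK b i l) (KK b (i' + 1) (m + 1))
      (fun x => (b (i' + 1) : ZMod p) * KK b (i' + 2) m x)
      (KK_inv b _ i l (Or.inl (by show i' < i; omega)))
      (KK_inv b _ (i' + 1) (m + 1) (Or.inl (by show i' < i' + 1; omega)))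
      (fun x c => by
        show (b (i' + 1) : ZMod p) * KK b (i' + 2) m _ = (b (i' + 1) : ZMod p) * KK b (i' + 2) m _
        rw [KK_inv b ⟨i', ht⟩ (i' + 2) m (Or.inl (by show i' < i' + 2; omega)) x c]) r s
      (count_le b hb l i hl h r) (by
        match m with
        | 0 =>
          rw [nn_zero]
          · simp
          · rintro x ⟨-, h7⟩
            rw [KK, kk_zero, mul_one] at h7
            exact hs rfl h7.symm
        | (k + 1) =>
          exact Wl b hb (by omega) (by omega) (count_le b hb (k + 1) (i' + 2) (by omega) (by omega)) s)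
    refine le_of_eq_of_le ?_ h1
    congr 2
    refine nn_congr fun x => ?_
    rw [KK_left b i' m ht]

/-- **The pair bound.** -/
lemma pair {i l i' l' : ℕ} (hl : 1 ≤ l) (h : i + l ≤ d) (hl' : 1 ≤ l') (h' : i' + l' ≤ d)
    (hne : ¬ (i = i' ∧ l = l')) (r s : ZMod p) (hr : l = 2 → r ≠ (b (i + 1) : ZMod p))
    (hs : l' = 2 → s ≠ (b (i' + 1) : ZMod p)) :
    p * (p * nn (fun x : Fin d → ZMod p => KK b i l x = r ∧ KK b i' l' x = s)) ≤ 4 * p ^ d := by
  have hsw : nn (fun x : Fin d → ZMod p => KK b i l x = r ∧ KK b i' l' x = s) =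
      nn (fun x : Fin d → ZMod p => KK b i' l' x = s ∧ KK b i l x = r) :=
    nn_congr fun x => ⟨fun h => ⟨h.2, h.1⟩, fun h => ⟨h.2, h.1⟩⟩
  rcases lt_trichotomy (i + l) (i' + l') with h1 | h1 | h1
  · exact pair_right b hb hl h hl' h' h1 r s hs
  · rcases lt_trichotomy i i' with h2 | h2 | h2
    · rw [hsw]
      exact pair_left b hb hl' h' hl h h2 s r hr
    · exact absurd ⟨h2, by omega⟩ hne
    · exact pair_left b hb hl h hl' h' h2 r s hs
  · rw [hsw]
    exact pair_right b hb hl' h' hl h h1 s r hr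

end count

end Pool.Agent.Run7.h191.CT
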