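import Pool.Agent.Run7.h191.Cont2
import Pool.Agent.Y837.SV.Crit3

set_option autoImplicit false

/-! # Record prime gaps around all generalised continuants -/

namespace Pool.Agent.Run7.h191.CT

open Finset
open Pool.Agent.H256R2.SC (ff)

open scoped Classical

/-- the pairs (start, length) of the contiguous blocks of `d` consecutive places -/
abbrev II (d : ℕ) : Type := {q : Fin (d + 1) × Fin (d + 1) // 1 ≤ q.2.val ∧ q.1.val + q.2.val ≤ d}

/-- the continuants as polynomials -/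
noncomputable def FF (b : ℕ → ℤ) (d : ℕ) (j : II d) : MvPolynomial (Fin d) ℤ :=
  kk b (ex (MvPolynomial.X : Fin d → MvPolynomial (Fin d) ℤ)) j.1.1.val j.1.2.val

lemma map_ex {R S : Type} [CommRing R] [CommRing S] {d : ℕ} (f : R →+* S) (x : Fin d → R) (n : ℕ) :
    f (ex x n) = ex (fun i => f (x i)) n := by
  unfold ex
  split_ifs with h
  · rfl
  · exact map_zero f

lemma eval_FF (b : ℕ → ℤ) (d : ℕ) (j : II d) (x : Fin d → ℤ) :
    MvPolynomial.eval x (FF b d j) = kk b (ex x) j.1.1.val j.1.2.val := by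
  unfold FF
  rw [kk_map (MvPolynomial.eval x)]
  refine kk_congr b _ _ _ _ fun n _ _ => ?_
  rw [map_ex]
  simp only [MvPolynomial.eval_X]

lemma aeval_FF (b : ℕ → ℤ) (d p : ℕ) [Fact p.Prime] (j : II d) (x : Fin d → ZMod p) :
    MvPolynomial.aeval x (FF b d j) = KK b j.1.1.val j.1.2.val x := by
  have h := kk_map (MvPolynomial.aeval x : MvPolynomial (Fin d) ℤ →ₐ[ℤ] ZMod p).toRingHom b
    (ex (MvPolynomial.X : Fin d → MvPolynomial (Fin d) ℤ)) j.1.1.val j.1.2.val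
  refine h.trans ?_
  refine kk_congr b _ _ _ _ fun n _ _ => ?_
  rw [map_ex]
  congr 1
  funext i
  exact MvPolynomial.aeval_X x i

lemma b_ne {b : ℕ → ℤ} {d : ℕ} (hb : ∀ j, j < d → b j ≠ 0) {p : ℕ} (hp : ∑ j ∈ range d, (b j).natAbs < p) :
    ∀ j, j < d → (b j : ZMod p) ≠ 0 := by
  intro j hj h
  rw [ZMod.intCast_zmod_eq_zero_iff_dvd] at h
  have h1 := Int.natAbs_dvd_natAbs.2 h
  rw [Int.natAbs_natCast] at h1
  have h2 := Nat.le_of_dvd (Int.natAbs_pos.2 (hb j hj)) h1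
  have h3 : (b j).natAbs ≤ ∑ j ∈ range d, (b j).natAbs :=
    Finset.single_le_sum (f := fun j => (b j).natAbs) (fun _ _ => Nat.zero_le _) (mem_range.2 hj)
  omega

lemma FF_ne (b : ℕ → ℤ) (d : ℕ) (hb : ∀ j, j < d → b j ≠ 0) (j : II d) (c : ℤ) :
    FF b d j ≠ MvPolynomial.C c := by
  intro h
  obtain ⟨p, hp1, hp⟩ := Nat.exists_infinite_primes (max (∑ j ∈ range d, (b j).natAbs) 2 + 1)
  have : Fact p.Prime := ⟨hp⟩
  have h1 := count_le (d := d) (p := p) b (b_ne hb (by omega)) j.1.2.val j.1.1.val j.2.1 j.2.2 (c : ZMod p)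
  have h2 : nn (fun x : Fin d → ZMod p => KK b j.1.1.val j.1.2.val x = (c : ZMod p)) = p ^ d := by
    rw [← nn_true]
    refine nn_congr fun x => ⟨fun _ => trivial, fun _ => ?_⟩
    rw [← aeval_FF, h, MvPolynomial.aeval_C]
    simp
  rw [h2] at h1
  have h3 : 0 < p ^ d := pow_pos hp.pos _
  have h4 : 2 < p := by omega
  nlinarith

/-- the exceptional values -/
def Ex (b : ℕ → ℤ) (d : ℕ) (j : II d) : Finset ℤ := if j.1.2.val = 2 then {b (j.1.1.val + 1)} else ∅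

lemma Ex_mem {b : ℕ → ℤ} {d : ℕ} {j : II d} (h : j.1.2.val = 2) : b (j.1.1.val + 1) ∈ Ex b d j := by
  unfold Ex
  rw [if_pos h]
  exact mem_singleton_self _

/-- **Record neighbourhoods of all generalised continuants.** -/
theorem main (b : ℕ → ℤ) (d : ℕ) (hb : ∀ j, j < d → b j ≠ 0) :
    ∃ c : ℝ, 0 < c ∧ ∃ Z₀ : ℝ, ∀ Z : ℕ, Z₀ ≤ Z → ∀ M : Fin d → ℤ, ∃ x : Fin d → ℤ,
      (∀ i, M i < x i ∧ x i ≤ M i + Z) ∧ ∀ i l : ℕ, 1 ≤ l → i + l ≤ d → ∀ n : ℤ,
        |(n : ℝ) - (kk b (ex x) i l : ℤ)| ≤ c * ff Z →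
          ∃ p : ℕ, p.Prime ∧ (p : ℝ) ≤ (Z : ℝ) ^ (1 / 10 : ℝ) ∧ (p : ℤ) ∣ n := by
  have key := Pool.Agent.Y837.SV.crit3 d (FF b d) (FF_ne b d hb) (Ex b d) (by
    intro j r hr B
    obtain ⟨p, hp1, hp⟩ := Nat.exists_infinite_primes (B + 1)
    refine ⟨p, hp, by omega, fun _ => 0, ?_⟩
    unfold Ex at hr
    split_ifs at hr with h2
    · rw [mem_singleton] at hr
      have h3 : MvPolynomial.eval (fun _ => (0 : ℤ)) (FF b d j) = b (j.1.1.val + 1) := by
        rw [eval_FF, h2, kk_succ, kk_zero, kk_one]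
        have h4 : ∀ n, ex (fun _ : Fin d => (0 : ℤ)) n = 0 := by
          intro n
          unfold ex
          split_ifs <;> rfl
        rw [h4]
        simp
      rw [h3, hr, sub_self]
      exact dvd_zero _
    · exact absurd hr (notMem_empty _)) (∑ j ∈ range d, (b j).natAbs) 4 1 one_pos (by
    intro p hp hpB j r hr
    have : Fact p.Prime := ⟨hp⟩
    have h1 := count_unif (d := d) (p := p) b (b_ne hb hpB) j.2.1 j.2.2 r (fun h2 => hr _ (Ex_mem h2))
    have h2 : (Nat.card {x : Fin d → ZMod p // MvPolynomial.aeval x (FF b d j) = r}) =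
        nn (fun x : Fin d → ZMod p => KK b j.1.1.val j.1.2.val x = r) :=
      nn_congr (fun x => by rw [aeval_FF])
    rw [h2, Real.rpow_neg_one]
    refine h1.trans ?_
    have h3 : (0 : ℝ) ≤ (p : ℝ) ^ d * (p : ℝ)⁻¹ := by positivity
    nlinarith) (by
    intro p hp hpB i j hij r s hr hs
    have : Fact p.Prime := ⟨hp⟩
    have h1 := pair (d := d) (p := p) b (b_ne hb hpB) i.2.1 i.2.2 j.2.1 j.2.2 (by
      rintro ⟨h3, h4⟩
      exact hij (Subtype.ext (Prod.ext (Fin.ext h3) (Fin.ext h4)))) r s (fun h2 => hr _ (Ex_mem h2))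
      (fun h2 => hs _ (Ex_mem h2))
    have h2 : (Nat.card {x : Fin d → ZMod p // MvPolynomial.aeval x (FF b d i) = r ∧
        MvPolynomial.aeval x (FF b d j) = s}) =
        nn (fun x : Fin d → ZMod p => KK b i.1.1.val i.1.2.val x = r ∧ KK b j.1.1.val j.1.2.val x = s) :=
      nn_congr (fun x => by rw [aeval_FF, aeval_FF])
    rw [h2]
    have h3 : (p : ℝ) * (p * (nn (fun x : Fin d → ZMod p => KK b i.1.1.val i.1.2.val x = r ∧
        KK b j.1.1.val j.1.2.val x = s) : ℝ)) ≤ 4 * (p : ℝ) ^ d := by exact_mod_cast h1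
    nlinarith)
  obtain ⟨c, hc, Z₀, hZ⟩ := key
  refine ⟨c, hc, Z₀, fun Z hZ1 M => ?_⟩
  obtain ⟨x, hx1, hx2⟩ := hZ Z hZ1 M
  refine ⟨x, hx1, fun i l hl hil n hn => ?_⟩
  refine hx2 ⟨(⟨i, by omega⟩, ⟨l, by omega⟩), hl, hil⟩ n ?_
  rw [eval_FF]
  exact hn

end Pool.Agent.Run7.h191.CT
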