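import Pool.Agent.Run7.h191.Cont3

set_option autoImplicit false

/-! # The Euclidean algorithm and record prime gaps -/

namespace Pool.Agent.Run7.h191.CT

open Finset
open Pool.Agent.H256R2.SC (ff)

/-- the remainders of the Euclidean algorithm applied to `u` and `v` -/
def rem (u v : ℕ) : ℕ → ℕ
  | 0 => u
  | 1 => v
  | (k + 2) => rem u v k % rem u v (k + 1)

/-- the numerators of the convergents -/
def num (a : ℕ → ℕ) : ℕ → ℕ
  | 0 => 1
  | 1 => a 0
  | (k + 2) => a (k + 1) * num a (k + 1) + num a k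

/-- the denominators of the convergents -/
def den (a : ℕ → ℕ) : ℕ → ℕ
  | 0 => 0
  | 1 => 1
  | (k + 2) => a (k + 1) * den a (k + 1) + den a k

/-- continuants of natural numbers -/
def kn (a : ℕ → ℕ) (i : ℕ) : ℕ → ℕ
  | 0 => 1
  | 1 => a i
  | (l + 2) => a (i + l + 1) * kn a i (l + 1) + kn a i l

lemma kn_cast (a : ℕ → ℕ) (i : ℕ) (l : ℕ) :
    ((kn a i l : ℕ) : ℤ) = kk (fun _ => 1) (fun n => (a n : ℤ)) i l := by
  induction l using Nat.strong_induction_on with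
  | _ l ih =>
    match l with
    | 0 => rfl
    | 1 => rfl
    | (m + 2) =>
      rw [kk_succ, ← ih (m + 1) (by omega), ← ih m (by omega)]
      show ((a (i + m + 1) * kn a i (m + 1) + kn a i m : ℕ) : ℤ) = _
      push_cast
      ring

lemma kn_left (a : ℕ → ℕ) (i l : ℕ) : kn a i (l + 2) = a i * kn a (i + 1) (l + 1) + kn a (i + 2) l := by
  have h := kk_left (fun _ => 1) (fun n => (a n : ℤ)) l i
  rw [← kn_cast, ← kn_cast, ← kn_cast] at h
  push_cast at h
  rw [one_mul] at h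
  exact_mod_cast h

section

variable (a : ℕ → ℕ) (d : ℕ) (ha : ∀ i, i < d → 2 ≤ a i)

include ha

lemma kn_pos (i l : ℕ) (h : i + l ≤ d) : 1 ≤ kn a i l := by
  induction l using Nat.strong_induction_on with
  | _ l ih =>
    match l with
    | 0 => exact le_rfl
    | 1 => exact le_trans (by norm_num) (ha i (by omega))
    | (m + 2) =>
      show 1 ≤ a (i + m + 1) * kn a i (m + 1) + kn a i m
      have := ih m (by omega) (by omega)
      omega

lemma kn_lt : ∀ (l i : ℕ), i + l + 1 ≤ d → kn a (i + 1) l < kn a i (l + 1) := by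
  intro l
  match l with
  | 0 =>
    intro i h
    show 1 < a i
    have := ha i (by omega)
    omega
  | (m + 1) =>
    intro i h
    rw [kn_left]
    have h1 := ha i (by omega)
    have h2 := kn_pos a d ha (i + 1) (m + 1) (by omega)
    nlinarith

lemma kn_ge (i l : ℕ) (hl : 1 ≤ l) (h : i + l ≤ d) : a i ≤ kn a i l := by
  match l with
  | 0 => omega
  | 1 => exact le_rfl
  | (m + 2) =>
    rw [kn_left]
    have h2 := kn_pos a d ha (i + 1) (m + 1) (by omega)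
    nlinarith

lemma rem_eq (e : ℕ) (he : d = e + 1) (k : ℕ) (hk : k ≤ d) :
    rem (kn a 0 (e + 1)) (kn a 1 e) k = kn a k (e + 1 - k) := by
  induction k using Nat.strong_induction_on with
  | _ k ih =>
    match k with
    | 0 => rfl
    | 1 => rfl
    | (m + 2) =>
      show rem (kn a 0 (e + 1)) (kn a 1 e) m % rem (kn a 0 (e + 1)) (kn a 1 e) (m + 1) = _
      rw [ih m (by omega) (by omega), ih (m + 1) (by omega) (by omega)]
      obtain ⟨t, ht⟩ : ∃ t, e + 1 - m = t + 2 := ⟨e + 1 - m - 2, by omega⟩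
      rw [ht, show e + 1 - (m + 1) = t + 1 by omega, show e + 1 - (m + 2) = t by omega, kn_left,
        Nat.mul_add_mod' , Nat.mod_eq_of_lt (kn_lt a d ha t (m + 1) (by omega))]

lemma quo_eq (e : ℕ) (he : d = e + 1) (k : ℕ) (hk : k < d) :
    rem (kn a 0 (e + 1)) (kn a 1 e) k / rem (kn a 0 (e + 1)) (kn a 1 e) (k + 1) = a k := by
  rw [rem_eq a d ha e he k (by omega), rem_eq a d ha e he (k + 1) (by omega)]
  rcases Nat.lt_or_ge k e with h | h
  · obtain ⟨t, ht⟩ : ∃ t, e + 1 - k = t + 2 := ⟨e + 1 - k - 2, by omega⟩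
    have h1 := kn_lt a d ha t (k + 1) (by omega)
    rw [ht, show e + 1 - (k + 1) = t + 1 by omega, kn_left, mul_comm, Nat.mul_add_div (by omega),
      Nat.div_eq_of_lt h1, add_zero]
  · have h2 : k = e := by omega
    subst h2
    rw [show k + 1 - k = 1 by omega, Nat.sub_self]
    show a k / 1 = a k
    exact Nat.div_one _

end

lemma kn_coprime (a : ℕ → ℕ) : ∀ (l i : ℕ), Nat.Coprime (kn a i (l + 1)) (kn a (i + 1) l) := by
  intro l
  induction l with
  | zero => intro i; exact Nat.coprime_one_right _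
  | succ l ih =>
    intro i
    rw [show l + 1 + 1 = l + 2 from rfl, kn_left]
    have h := ih (i + 1)
    rw [Nat.coprime_mul_right_add_left]
    exact h.symm

lemma num_eq (a : ℕ → ℕ) (k : ℕ) : num a k = kn a 0 k := by
  induction k using Nat.strong_induction_on with
  | _ k ih =>
    match k with
    | 0 => rfl
    | 1 => rfl
    | (m + 2) =>
      show a (m + 1) * num a (m + 1) + num a m = a (0 + m + 1) * kn a 0 (m + 1) + kn a 0 m
      rw [ih (m + 1) (by omega), ih m (by omega), zero_add]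

lemma den_eq (a : ℕ → ℕ) (k : ℕ) : den a (k + 1) = kn a 1 k := by
  induction k using Nat.strong_induction_on with
  | _ k ih =>
    match k with
    | 0 => rfl
    | 1 =>
      show a (0 + 1) * 1 + 0 = a 1
      rw [mul_one, add_zero, zero_add]
    | (m + 2) =>
      show a (m + 1 + 1) * den a (m + 1 + 1) + den a (m + 1) = a (1 + m + 1) * kn a 1 (m + 1) + kn a 1 m
      rw [ih (m + 1) (by omega), ih m (by omega), show m + 1 + 1 = 1 + m + 1 by ring]

/-- from small prime factors to the absence of primes -/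
lemma free (Z : ℕ) (hZ : 4 ≤ Z) (N : ℤ) (hN : (Z : ℤ) < N) (R : ℝ)
    (h : ∀ n : ℤ, |(n : ℝ) - N| ≤ R → ∃ p : ℕ, p.Prime ∧ (p : ℝ) ≤ (Z : ℝ) ^ (1 / 10 : ℝ) ∧ (p : ℤ) ∣ n)
    (q : ℕ) (hq : q.Prime) : R < |(q : ℝ) - N| := by
  by_contra hcon
  push Not at hcon
  have hZ1 : (4 : ℝ) ≤ Z := by exact_mod_cast hZ
  have hs : (Z : ℝ) ^ (1 / 10 : ℝ) ≤ Z / 2 := by
    have h1 : (Z : ℝ) ^ (1 / 10 : ℝ) ≤ (Z : ℝ) ^ (1 / 2 : ℝ) :=
      Real.rpow_le_rpow_of_exponent_le (by linarith) (by norm_num)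
    have h2 : (Z : ℝ) ^ (1 / 2 : ℝ) ≤ Z / 2 := by
      rw [← Real.sqrt_eq_rpow, Real.sqrt_le_left (by linarith)]
      nlinarith
    linarith
  have small : ∀ r : ℕ, r.Prime → |((r : ℤ) : ℝ) - N| ≤ R → (r : ℝ) ≤ Z / 2 := by
    intro r hr hr2
    obtain ⟨p, hp, hp2, hp3⟩ := h r hr2
    have h3 : p ∣ r := by exact_mod_cast hp3
    have h4 : p = r := (Nat.prime_dvd_prime_iff_eq hp hr).1 h3
    rw [← h4]
    linarith
  have hq2 := small q hq (by push_cast; exact hcon)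
  obtain ⟨P, hP, hP1, hP2⟩ := Nat.exists_prime_lt_and_le_two_mul (Z / 2) (by omega)
  have hP3 : P ≤ Z := by omega
  have hP4 : Z < 2 * P := by omega
  have hP3' : (P : ℝ) ≤ Z := by exact_mod_cast hP3
  have hP4' : (Z : ℝ) < 2 * P := by exact_mod_cast hP4
  have hN' : (Z : ℝ) < N := by exact_mod_cast hN
  have h5 := small P hP (by
    push_cast
    refine le_trans ?_ hcon
    rw [abs_of_nonpos (by linarith), abs_of_nonpos (by linarith)]
    linarith)
  linarith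

/-- **Euclid's algorithm and record prime gaps.** -/
theorem euclid (e : ℕ) : ∃ c : ℝ, 0 < c ∧ ∃ Z₀ : ℝ, ∀ Z : ℕ, Z₀ ≤ Z → ∀ M : ℕ → ℕ,
    (∀ i, i ≤ e → Z ≤ M i) → ∃ a : ℕ → ℕ, (∀ i, i ≤ e → M i < a i ∧ a i ≤ M i + Z) ∧
      ∀ u v : ℕ, u = num a (e + 1) → v = den a (e + 1) → Nat.Coprime u v ∧ v < u ∧
      (∀ k, k ≤ e → rem u v k / rem u v (k + 1) = a k ∧ rem u v (k + 1) < rem u v k) ∧
      rem u v (e + 1) = 1 ∧ rem u v (e + 2) = 0 ∧
      ∀ q : ℕ, q.Prime →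
        (∀ k, k ≤ e → c * ff Z < |(q : ℝ) - (rem u v k : ℕ)|) ∧
        (∀ k, 1 ≤ k → k ≤ e + 1 → c * ff Z < |(q : ℝ) - (num a k : ℕ)|) ∧
        (∀ k, 2 ≤ k → k ≤ e + 1 → c * ff Z < |(q : ℝ) - (den a k : ℕ)|) := by
  obtain ⟨c, hc, Z₀, hZ⟩ := main (fun _ => 1) (e + 1) (fun _ _ => one_ne_zero)
  refine ⟨c, hc, max Z₀ 4, fun Z hZ1 M hM => ?_⟩
  have hZ4 : 4 ≤ Z := by exact_mod_cast (le_max_right _ _).trans hZ1
  obtain ⟨x, hx1, hx2⟩ := hZ Z ((le_max_left _ _).trans hZ1) (fun i => (M i.val : ℤ))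
  obtain ⟨a, ha⟩ : ∃ a : ℕ → ℕ, a = fun n => (ex x n).toNat := ⟨_, rfl⟩
  have hxpos : ∀ i : ℕ, ∀ h : i < e + 1, ((a i : ℕ) : ℤ) = x ⟨i, h⟩ := by
    intro i h
    have h1 := (hx1 ⟨i, h⟩).1
    rw [ha]
    show (((ex x i).toNat : ℕ) : ℤ) = _
    rw [ex_lt x h, Int.toNat_of_nonneg]
    have : (0 : ℤ) ≤ (M i : ℤ) := Int.natCast_nonneg _
    show 0 ≤ x ⟨i, h⟩
    have h2 : ((M i : ℕ) : ℤ) < x ⟨i, h⟩ := h1
    omega
  have hab : ∀ i, i ≤ e → M i < a i ∧ a i ≤ M i + Z := by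
    intro i hi
    have h1 := hx1 ⟨i, by omega⟩
    rw [← hxpos i (by omega)] at h1
    have h2 : ((M i : ℕ) : ℤ) < a i ∧ ((a i : ℕ) : ℤ) ≤ (M i : ℕ) + Z := h1
    omega
  have ha2 : ∀ i, i < e + 1 → 2 ≤ a i := by
    intro i hi
    have h1 := (hab i (by omega)).1
    have h2 := hM i (by omega)
    omega
  have hfree : ∀ i l : ℕ, 1 ≤ l → i + l ≤ e + 1 → ∀ q : ℕ, q.Prime → c * ff Z < |(q : ℝ) - (kn a i l : ℕ)| := by
    intro i l hl hil q hq
    have h1 := hx2 i l hl hil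
    have h2 : kk (fun _ => 1) (ex x) i l = ((kn a i l : ℕ) : ℤ) := by
      rw [kn_cast]
      refine kk_congr _ _ _ _ _ fun j hj1 hj2 => ?_
      rw [ex_lt x (show j < e + 1 by omega), hxpos]
    rw [h2] at h1
    have h3 := kn_ge a (e + 1) ha2 i l hl hil
    have h4 := (hab i (by omega)).1
    have h5 := hM i (by omega)
    have h6 := free Z hZ4 ((kn a i l : ℕ) : ℤ) (by omega) (c * ff Z) (fun n hn => h1 n hn) q hq
    exact_mod_cast h6
  refine ⟨a, hab, fun u v hu hv => ?_⟩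
  rw [num_eq] at hu
  rw [den_eq] at hv
  subst hu
  subst hv
  refine ⟨kn_coprime a e 0, kn_lt a (e + 1) ha2 e 0 (by omega), fun k hk => ?_, ?_, ?_, fun q hq =>
    ⟨fun k hk => ?_, fun k hk1 hk2 => ?_, fun k hk1 hk2 => ?_⟩⟩
  · refine ⟨quo_eq a (e + 1) ha2 e rfl k (by omega), ?_⟩
    rw [rem_eq a (e + 1) ha2 e rfl k (by omega), rem_eq a (e + 1) ha2 e rfl (k + 1) (by omega)]
    have h1 := kn_lt a (e + 1) ha2 (e - k) k (by omega)
    rw [show e + 1 - k = e - k + 1 by omega, show e + 1 - (k + 1) = e - k by omega]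
    exact h1
  · rw [rem_eq a (e + 1) ha2 e rfl (e + 1) le_rfl, Nat.sub_self]
    rfl
  · show rem _ _ e % rem _ _ (e + 1) = 0
    rw [rem_eq a (e + 1) ha2 e rfl (e + 1) le_rfl, Nat.sub_self]
    exact Nat.mod_one _
  · rw [rem_eq a (e + 1) ha2 e rfl k (by omega)]
    exact hfree k (e + 1 - k) (by omega) (by omega) q hq
  · rw [num_eq]
    exact hfree 0 k hk1 (by omega) q hq
  · obtain ⟨m, rfl⟩ : ∃ m, k = m + 1 := ⟨k - 1, by omega⟩
    rw [den_eq]
    exact hfree 1 m (by omega) (by omega) q hq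

end Pool.Agent.Run7.h191.CT
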